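import Pool.Agent.J4H77.CB.Prm

set_option autoImplicit false
set_option linter.all false

/-! Almost all primitive cubic characters: the sums over all intervals. -/

namespace Pool.Agent.J4H77.CB

open Finset
open Pool.Agent.Y692.QS
open Pool.Agent.X22.CC

/-- the sums over all intervals are small -/
def AllInt (δ : ℝ) (A : ℕ) {κ : Type} (w : κ → ℕ → ℂ) (Λ : ℕ → Finset κ) (y : ℕ) (X : ℝ) {q : ℕ} (χ : DirichletCharacter ℂ q) : Prop :=
  ∀ x : ℕ, y ≤ x → (x : ℝ) ≤ X → ∀ i ∈ Λ x, ∀ M : ℕ, M ≤ x ^ A →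
    ‖∑ n ∈ Ioc M (M + x), w i n * χ (n : ZMod q)‖ ≤ (x : ℝ) ^ (1 / 2 + δ)

lemma coords {Q : ℕ} {α : Ei} (h0 : 0 ≤ α.re) (h1 : 0 ≤ α.im) (h : nr α ≤ Q) :
    ∃ t, t < (2 * Nat.sqrt Q + 2) * (2 * Nat.sqrt Q + 2) ∧ toE (sq2 (2 * Nat.sqrt Q + 2) t) = α := by
  obtain ⟨T, hT⟩ : ∃ T, T = 2 * Nat.sqrt Q + 2 := ⟨_, rfl⟩
  obtain ⟨a, ha⟩ : ∃ a : ℕ, α.re = a := ⟨α.re.toNat, (Int.toNat_of_nonneg h0).symm⟩
  obtain ⟨b, hb⟩ : ∃ b : ℕ, α.im = b := ⟨α.im.toNat, (Int.toNat_of_nonneg h1).symm⟩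
  rw [← hT]
  have hs : Q < (Nat.sqrt Q + 1) * (Nat.sqrt Q + 1) := Nat.lt_succ_sqrt Q
  have hQ : (4 * Q : ℤ) < (T : ℤ) * T := by
    have : 4 * Q < T * T := by
      rw [hT]
      nlinarith
    exact_mod_cast this
  unfold nr at h
  rw [ha, hb] at h
  have ha1 : a < T := by
    by_contra hcon
    push Not at hcon
    have h2 : (T : ℤ) ≤ a := by exact_mod_cast hcon
    have h3 : (0 : ℤ) ≤ T := Int.natCast_nonneg T
    have h4 : (T : ℤ) * T ≤ a * a := mul_le_mul h2 h2 h3 (by omega)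
    nlinarith [sq_nonneg (2 * (b : ℤ) - a)]
  have hb1 : b < T := by
    by_contra hcon
    push Not at hcon
    have h2 : (T : ℤ) ≤ b := by exact_mod_cast hcon
    have h3 : (0 : ℤ) ≤ T := Int.natCast_nonneg T
    have h4 : (T : ℤ) * T ≤ b * b := mul_le_mul h2 h2 h3 (by omega)
    nlinarith [sq_nonneg (2 * (a : ℤ) - b)]
  have hT0 : 0 < T := by omega
  refine ⟨a + T * b, ?_, ?_⟩
  · calc a + T * b < T + T * b := by omega
      _ = T * (b + 1) := by ring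
      _ ≤ T * T := Nat.mul_le_mul_left _ hb1
  · apply QuadraticAlgebra.ext
    · show (((a + T * b) % T : ℕ) : ℤ) = α.re
      rw [Nat.add_mul_mod_self_left, Nat.mod_eq_of_lt ha1, ha]
    · show (((a + T * b) / T : ℕ) : ℤ) = α.im
      rw [Nat.add_mul_div_left _ _ hT0, Nat.div_eq_of_lt ha1, zero_add, hb]

open Classical in
theorem alm (δ : ℝ) (hδ : 0 < δ) (A : ℕ) : ∃ κ₀ : ℝ, 0 < κ₀ ∧ ∃ y₀ : ℕ, ∀ y Q : ℕ, y₀ ≤ y →
    ∀ (κ : Type) (w : κ → ℕ → ℂ) (Λ : ℕ → Finset κ), (∀ i n, ‖w i n‖ ≤ 1) → (∀ x, (Λ x).card ≤ x ^ A) →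
      {p : Σ q : ℕ, DirichletCharacter ℂ q | 1 ≤ p.1 ∧ p.1 ≤ Q ∧ p.2 ^ 3 = 1 ∧ p.2.IsPrimitive ∧
        ¬ AllInt δ A w Λ y ((Q : ℝ) ^ κ₀) p.2}.Finite ∧
      (({p : Σ q : ℕ, DirichletCharacter ℂ q | 1 ≤ p.1 ∧ p.1 ≤ Q ∧ p.2 ^ 3 = 1 ∧ p.2.IsPrimitive ∧
        ¬ AllInt δ A w Λ y ((Q : ℝ) ^ κ₀) p.2}).ncard : ℝ) ≤ 1 / (y : ℝ) ^ A * Q := by
  obtain ⟨κ₁, hκ₁, y₁, h⟩ := law_sq (r := 3) (by norm_num) 3 (by norm_num) δ hδ (A + 1) (A + 20)
  refine ⟨κ₁ / 2, by positivity, y₁ + 3 ^ 9 * 160 + 3, fun y Q hy κ w Λ hw hΛ => ?_⟩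
  obtain ⟨S, hS⟩ : ∃ S : Set (Σ q : ℕ, DirichletCharacter ℂ q), S = {p : Σ q : ℕ, DirichletCharacter ℂ q | 1 ≤ p.1 ∧ p.1 ≤ Q ∧
    p.2 ^ 3 = 1 ∧ p.2.IsPrimitive ∧ ¬ AllInt δ A w Λ y ((Q : ℝ) ^ (κ₁ / 2)) p.2} := ⟨_, rfl⟩
  rw [← hS]
  obtain ⟨T, hT⟩ : ∃ T, T = 2 * Nat.sqrt Q + 2 := ⟨_, rfl⟩
  have hQT : (Q : ℝ) ^ (κ₁ / 2) ≤ (T : ℝ) ^ κ₁ := by
    have h1 : Q < (Nat.sqrt Q + 1) * (Nat.sqrt Q + 1) := Nat.lt_succ_sqrt Q
    have h2 : (Q : ℝ) ≤ (T : ℝ) ^ 2 := by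
      have : Q ≤ T ^ 2 := by
        rw [hT]
        nlinarith
      exact_mod_cast this
    calc (Q : ℝ) ^ (κ₁ / 2) ≤ ((T : ℝ) ^ 2) ^ (κ₁ / 2) := Real.rpow_le_rpow (Nat.cast_nonneg _) h2 (by positivity)
      _ = (T : ℝ) ^ κ₁ := by
          rw [← Real.rpow_natCast, ← Real.rpow_mul (Nat.cast_nonneg _)]
          congr 1
          push_cast
          ring
  -- the functions modulo nine
  obtain ⟨G, hG⟩ : ∃ G : Finset (ZMod 9 → ℂ), G = Fintype.piFinset (fun _ => ({1, wC, wC ^ 2} : Finset ℂ)) := ⟨_, rfl⟩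
  have hGc : G.card ≤ 3 ^ 9 := by
    rw [hG, Fintype.card_piFinset, prod_const, card_univ, ZMod.card]
    exact Nat.pow_le_pow_left Finset.card_le_three 9
  have hGm : ∀ g : ZMod 9 → ℂ, (∀ a, g a ^ 3 = 1) → g ∈ G := by
    intro g hg
    rw [hG, Fintype.mem_piFinset]
    intro a
    rw [mem_insert, mem_insert, mem_singleton]
    exact three_cases (hg a) wC_cube wC_ne.1
  have hGn : ∀ g ∈ G, ∀ a, ‖g a‖ = 1 := by
    intro g hg a
    rw [hG, Fintype.mem_piFinset] at hg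
    have h1 := hg a
    rw [mem_insert, mem_insert, mem_singleton] at h1
    rcases h1 with h1 | h1 | h1
    · rw [h1, norm_one]
    · rw [h1, wC_norm]
    · rw [h1, norm_pow, wC_norm, one_pow]
  obtain ⟨E, hE⟩ : ∃ E : (Fin 2 → ℕ) → Prop, E = fun m => ∀ (q : ℕ) (χ : DirichletCharacter ℂ q), ∀ g ∈ G,
      (∀ n : ℕ, 1 ≤ n → n.Coprime 3 → χ (n : ZMod q) = g n * (FF n (star (ep (toE m))) * FF n (toE m))) →
      AllInt δ A w Λ y ((T : ℝ) ^ κ₁) χ := ⟨_, rfl⟩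
  have hlaw := h y T (by omega) (κ × {g // g ∈ G} × (ZMod 3 × ZMod 3)) (fun x => (Λ x) ×ˢ (univ ×ˢ univ)) ?_
    (fun n m => FF n (toE m)) fr_surf (fun x l n => w l.1 n) (fun x l n => l.2.1.1 n * FF n (star (epz l.2.2.1 l.2.2.2)))
    (fun x l n => hw l.1 n) ?_ E ?_
  rotate_left
  · intro x hx
    rw [card_product, card_product]
    have e1 : (univ : Finset (ZMod 3 × ZMod 3)).card = 9 := by decide
    have e2 : (univ : Finset {g // g ∈ G}).card ≤ 3 ^ 9 := by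
      rw [card_univ, Fintype.card_coe]
      exact hGc
    rw [e1]
    calc (Λ x).card * ((univ : Finset {g // g ∈ G}).card * 9) ≤ x ^ A * (3 ^ 9 * 9) := Nat.mul_le_mul (hΛ x) (Nat.mul_le_mul_right _ e2)
      _ = x ^ A * 3 ^ 11 := by norm_num
      _ ≤ x ^ A * x ^ 11 := Nat.mul_le_mul_left _ (Nat.pow_le_pow_left (by omega) 11)
      _ = x ^ (A + 11) := by rw [pow_add]
      _ ≤ x ^ (A + 20) := Nat.pow_le_pow_right (by omega) (by omega)
  · intro x l n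
    rw [norm_mul, hGn _ l.2.1.2, one_mul]
    exact FF_norm _ _
  · intro m hm
    rw [hE]
    intro q χ g hg hχ x hyx hxT i hi M hM
    refine hm x hyx hxT (i, ⟨g, hg⟩, ((toE m).re : ZMod 3), ((toE m).im : ZMod 3)) ?_ (fun n => χ (n : ZMod q)) ?_ ?_ ?_ M
      (hM.trans (Nat.pow_le_pow_right (by omega) (by omega)))
    · exact mem_product.2 ⟨hi, mem_product.2 ⟨mem_univ _, mem_univ _⟩⟩
    · intro n
      exact DirichletCharacter.norm_le_one χ _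
    · intro n n' _ _
      show χ ((n * n' : ℕ) : ZMod q) = _
      rw [Nat.cast_mul, map_mul]
    · intro n hn1 hn3
      show χ (n : ZMod q) = g n * FF n (star (epz ((toE m).re : ZMod 3) ((toE m).im : ZMod 3))) * FF n (toE m)
      rw [hχ n hn1 hn3, mul_assoc]
      rfl
  -- the map
  obtain ⟨Bad, hBad⟩ : ∃ Bad, Bad = (range (T * T)).filter fun t => ¬ E (sq2 T t) := ⟨_, rfl⟩
  rw [← hBad] at hlaw
  obtain ⟨R, hR⟩ : ∃ R : (Σ q : ℕ, DirichletCharacter ℂ q) → (ℕ × (ZMod 9 → ℂ) × ℕ) → Prop, R = fun p z => 1 ≤ p.1 ∧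
      p.1 = (nr (toE (sq2 T z.1))).natAbs * z.2.2 ∧ ∀ n : ℕ, 1 ≤ n → n.Coprime 3 →
        p.2 (n : ZMod p.1) = z.2.1 n * (FF n (star (ep (toE (sq2 T z.1)))) * FF n (toE (sq2 T z.1))) := ⟨_, rfl⟩
  have hex : ∀ p ∈ S, ∃ z ∈ Bad ×ˢ (G ×ˢ range 10), R p z := by
    rintro ⟨q, χ⟩ hp
    rw [hS] at hp
    obtain ⟨hq1, hqQ, hχ3, hχp, hnot⟩ := hp
    dsimp only at hq1 hqQ hχ3 hχp hnot
    obtain ⟨α, g, hre, him, h3, hd, hd9, hg, hval⟩ := prim_rep hq1 χ hχ3 hχp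
    have hnq : nr α ≤ Q := (Int.le_of_dvd (by exact_mod_cast hq1) hd).trans (by exact_mod_cast hqQ)
    obtain ⟨t, ht, htα⟩ := coords hre him hnq
    rw [← hT] at ht htα
    obtain ⟨N, hN⟩ : ∃ N : ℕ, nr α = N := ⟨(nr α).toNat, (Int.toNat_of_nonneg (nr_nonneg α)).symm⟩
    rw [hN] at hd hd9
    have hd' : N ∣ q := by exact_mod_cast hd
    have hd9' : q ∣ 9 * N := by exact_mod_cast hd9
    obtain ⟨k, hk⟩ := hd'
    have hN0 : 0 < N := by
      rcases Nat.eq_zero_or_pos N with h0 | h0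
      · rw [h0, zero_mul] at hk
        omega
      · exact h0
    have hk9 : k ∣ 9 := by
      rw [hk, mul_comm 9 N] at hd9'
      exact Nat.dvd_of_mul_dvd_mul_left hN0 hd9'
    have hk10 : k < 10 := by
      have := Nat.le_of_dvd (by norm_num) hk9
      omega
    refine ⟨(t, g, k), ?_, ?_⟩
    · rw [mem_product, mem_product, mem_range]
      refine ⟨?_, hGm g hg, hk10⟩
      rw [hBad, mem_filter, mem_range]
      refine ⟨ht, fun hEt => hnot ?_⟩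
      rw [hE] at hEt
      have h1 := hEt q χ g (hGm g hg) (by
        intro n hn1 hn3
        rw [htα]
        exact hval n hn1 hn3)
      intro x hyx hxQ
      exact h1 x hyx (hxQ.trans hQT)
    · rw [hR]
      refine ⟨hq1, ?_, ?_⟩
      · show q = (nr (toE (sq2 T t))).natAbs * k
        rw [htα, hN, Int.natAbs_natCast]
        exact hk
      · intro n hn1 hn3
        show χ (n : ZMod q) = g n * (FF n (star (ep (toE (sq2 T t)))) * FF n (toE (sq2 T t)))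
        rw [htα]
        exact hval n hn1 hn3
  have huniq : ∀ p p' z, R p z → R p' z → p = p' := by
    rintro ⟨q, χ⟩ ⟨q', χ'⟩ z h1 h2
    rw [hR] at h1 h2
    obtain ⟨a1, a2, a3⟩ := h1
    obtain ⟨b1, b2, b3⟩ := h2
    dsimp only at a1 a2 a3 b1 b2 b3
    have hqq : q = q' := a2.trans b2.symm
    subst hqq
    have : χ = χ' := char_ext a1 χ χ' fun n hn1 hn3 => (a3 n hn1 hn3).trans (b3 n hn1 hn3).symm
    rw [this]
  obtain ⟨f, hf⟩ : ∃ f : (Σ q : ℕ, DirichletCharacter ℂ q) → (ℕ × (ZMod 9 → ℂ) × ℕ), ∀ p ∈ S,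
      f p ∈ Bad ×ˢ (G ×ˢ range 10) ∧ R p (f p) := by
    refine ⟨fun p => if hp : p ∈ S then Classical.choose (hex p hp) else (0, fun _ => 0, 0), fun p hp => ?_⟩
    simp only [hp, dif_pos]
    exact Classical.choose_spec (hex p hp)
  have hmaps : Set.MapsTo f S (↑(Bad ×ˢ (G ×ˢ range 10)) : Set (ℕ × (ZMod 9 → ℂ) × ℕ)) := fun p hp => (hf p hp).1
  have hinj : Set.InjOn f S := by
    intro p hp p' hp' heq
    have h1 := (hf p hp).2
    have h2 := (hf p' hp').2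
    rw [← heq] at h2
    exact huniq p p' _ h1 h2
  refine ⟨Set.Finite.of_injOn hmaps hinj (Finset.finite_toSet _), ?_⟩
  obtain ⟨C, hC⟩ : ∃ C : ℕ, C = 3 ^ 9 * 10 := ⟨_, rfl⟩
  have hcard : S.ncard ≤ Bad.card * C := by
    have h1 := Set.ncard_le_ncard_of_injOn f (fun p hp => hmaps hp) hinj (Finset.finite_toSet _)
    rw [Set.ncard_coe_finset, card_product, card_product, card_range] at h1
    rw [hC]
    exact h1.trans (Nat.mul_le_mul_left _ (Nat.mul_le_mul_right _ hGc))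
  rcases Nat.eq_zero_or_pos Q with hQ | hQ
  · have : S = ∅ := by
      rw [hS]
      apply Set.eq_empty_of_forall_notMem
      rintro p ⟨h1, h2, _⟩
      omega
    rw [this, Set.ncard_empty, Nat.cast_zero]
    positivity
  · have hT2 : (T : ℝ) * T ≤ 16 * Q := by
      have h1 : Nat.sqrt Q * Nat.sqrt Q ≤ Q := Nat.sqrt_le Q
      have h2 : T * T ≤ 16 * Q := by
        rw [hT]
        have h3 : Nat.sqrt Q ≤ Q := Nat.sqrt_le_self Q
        nlinarith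
      exact_mod_cast h2
    have hy0 : (0 : ℝ) < y := by exact_mod_cast (by omega : 0 < y)
    have hyb : (C : ℝ) * 16 ≤ y := by
      have : C * 16 ≤ y := by
        rw [hC]
        omega
      exact_mod_cast this
    calc (S.ncard : ℝ) ≤ (Bad.card : ℝ) * C := by exact_mod_cast hcard
      _ ≤ (1 / (y : ℝ) ^ (A + 1) * (T * T)) * C := mul_le_mul_of_nonneg_right hlaw (by positivity)
      _ ≤ (1 / (y : ℝ) ^ (A + 1) * (16 * Q)) * C := by gcongr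
      _ = 1 / (y : ℝ) ^ A * Q * ((C : ℝ) * 16 / y) := by
          rw [pow_succ]
          field_simp
      _ ≤ 1 / (y : ℝ) ^ A * Q * 1 := by
          apply mul_le_mul_of_nonneg_left _ (by positivity)
          rw [div_le_one hy0]
          exact hyb
      _ = _ := mul_one _

end Pool.Agent.J4H77.CB
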