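import Pool.Agent.J4H77.CB.Lin

set_option autoImplicit false
set_option linter.all false

/-! The sums over all intervals, for the pairs of integers of a square. -/

namespace Pool.Agent.J4H77.CB

open Finset
open Pool.Agent.TH894.NE (box mem_box card_box)
open Pool.Agent.N647.TS (WellN)

/-- the integers below `T` in a residue class -/
lemma rg_count (q r T : ℕ) (hq : 1 ≤ q) (hr : r < q) :
    |(((range T).filter (fun n => n % q = r)).card : ℝ) - (T : ℝ) / q| ≤ 1 := by
  have h1 := Nat.count_modEq_card_eq_ceil T (by omega : 0 < q) r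
  have hq0 : (0 : ℚ) < q := by exact_mod_cast hq
  obtain ⟨c, hc⟩ : ∃ c, c = ((range T).filter (fun n => n % q = r)).card := ⟨_, rfl⟩
  have h2 : (Nat.count (fun n => n ≡ r [MOD q]) T) = c := by
    rw [Nat.count_eq_card_filter_range, hc]
    congr 1
    apply filter_congr
    intro n _
    show n % q = r % q ↔ n % q = r
    rw [Nat.mod_eq_of_lt hr]
  rw [h2, Nat.mod_eq_of_lt hr] at h1
  have h3 : |(c : ℚ) - (T : ℚ) / q| ≤ 1 := by
    have h4 : (c : ℚ) = (⌈((T : ℚ) - r) / (q : ℚ)⌉ : ℚ) := by exact_mod_cast h1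
    have h5 := Int.le_ceil (((T : ℚ) - r) / (q : ℚ))
    have h6 := Int.ceil_lt_add_one (((T : ℚ) - r) / (q : ℚ))
    have h7 : ((T : ℚ) - r) / q = (T : ℚ) / q - (r : ℚ) / q := by ring
    have h8 : (0 : ℚ) ≤ (r : ℚ) / q := by positivity
    have h9 : (r : ℚ) / q ≤ 1 := by
      rw [div_le_one hq0]
      exact_mod_cast hr.le
    rw [h4, abs_le]
    constructor <;> linarith
  rw [← hc]
  have h4 := (Rat.cast_le (K := ℝ)).mpr h3
  push_cast at h4
  exact h4

/-- the members of the square -/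
def sq2 (T : ℕ) (t : ℕ) (i : Fin 2) : ℕ := if i = 0 then t % T else t / T

/-- the pairs of a square are well distributed -/
lemma wellN_sq (T H : ℕ) (hT : 3 * (2 * H + 1) ^ 2 ≤ T) : WellN (d := 2) (range (T * T)) (sq2 T) H where
  pos := by
    rw [card_range]
    have : 0 < (2 * H + 1) ^ 2 := by positivity
    exact Nat.mul_pos (by omega) (by omega)
  dist q hq hqH r hr := by
    rw [mem_box] at hr
    have hr0 := hr 0
    have hr1 := hr 1
    have hT0 : 0 < T := lt_of_lt_of_le (by positivity) hT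
    have hTr : (0 : ℝ) < T := by exact_mod_cast hT0
    have hq0 : (0 : ℝ) < q := by exact_mod_cast hq
    have e1 : ((range (T * T)).filter fun n => (fun i : Fin 2 => sq2 T n i % q) = r).card =
        ((range T).filter fun n => n % q = r 0).card * ((range T).filter fun n => n % q = r 1).card := by
      rw [← card_product]
      refine Finset.card_nbij' (fun n => (n % T, n / T)) (fun z => z.1 + T * z.2) ?_ ?_ ?_ ?_
      · intro n hn
        rw [mem_coe, mem_filter, mem_range] at hn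
        have h1 := congrFun hn.2 0
        have h2 := congrFun hn.2 1
        rw [mem_coe, mem_product, mem_filter, mem_filter, mem_range, mem_range]
        refine ⟨⟨Nat.mod_lt _ hT0, h1⟩, (Nat.div_lt_iff_lt_mul hT0).2 hn.1, h2⟩
      · intro z hz
        rw [mem_coe, mem_product, mem_filter, mem_filter, mem_range, mem_range] at hz
        obtain ⟨⟨h1, h2⟩, h3, h4⟩ := hz
        rw [mem_coe, mem_filter, mem_range]
        refine ⟨?_, ?_⟩
        · calc z.1 + T * z.2 < T + T * z.2 := by omega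
            _ = T * (z.2 + 1) := by ring
            _ ≤ T * T := Nat.mul_le_mul_left _ h3
        · funext i
          fin_cases i
          · show (z.1 + T * z.2) % T % q = r 0
            rw [Nat.add_mul_mod_self_left, Nat.mod_eq_of_lt h1]
            exact h2
          · show (z.1 + T * z.2) / T % q = r 1
            rw [Nat.add_mul_div_left _ _ hT0, Nat.div_eq_of_lt h1, zero_add]
            exact h4
      · intro n _
        exact Nat.mod_add_div n T
      · intro z hz
        rw [mem_coe, mem_product, mem_filter, mem_filter, mem_range, mem_range] at hz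
        obtain ⟨⟨h1, h2⟩, h3, h4⟩ := hz
        refine Prod.ext ?_ ?_
        · show (z.1 + T * z.2) % T = z.1
          rw [Nat.add_mul_mod_self_left, Nat.mod_eq_of_lt h1]
        · show (z.1 + T * z.2) / T = z.2
          rw [Nat.add_mul_div_left _ _ hT0, Nat.div_eq_of_lt h1, zero_add]
    rw [e1, card_range]
    obtain ⟨a, ha⟩ : ∃ a : ℝ, a = (((range T).filter fun n => n % q = r 0).card : ℝ) - (T : ℝ) / q := ⟨_, rfl⟩
    obtain ⟨b, hb⟩ : ∃ b : ℝ, b = (((range T).filter fun n => n % q = r 1).card : ℝ) - (T : ℝ) / q := ⟨_, rfl⟩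
    have ha1 : |a| ≤ 1 := by rw [ha]; exact rg_count q (r 0) T hq hr0
    have hb1 : |b| ≤ 1 := by rw [hb]; exact rg_count q (r 1) T hq hr1
    have e2 : (((((range T).filter fun n => n % q = r 0).card * ((range T).filter fun n => n % q = r 1).card : ℕ)) : ℝ) / ((T * T : ℕ) : ℝ) -
        1 / (q : ℝ) ^ 2 = (a + b) / (q * T) + a * b / (T * T) := by
      push_cast
      rw [show (((range T).filter fun n => n % q = r 0).card : ℝ) = a + (T : ℝ) / q by rw [ha]; ring,
        show (((range T).filter fun n => n % q = r 1).card : ℝ) = b + (T : ℝ) / q by rw [hb]; ring]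
      field_simp
      ring
    rw [e2]
    have hqT : (3 : ℝ) * (2 * H + 1) * q ≤ T := by
      have h4 : 3 * (2 * H + 1) * q ≤ T := by
        calc 3 * (2 * H + 1) * q ≤ 3 * (2 * H + 1) * (2 * H + 1) := Nat.mul_le_mul_left _ hqH
          _ = 3 * (2 * H + 1) ^ 2 := by ring
          _ ≤ T := hT
      exact_mod_cast h4
    have hqT' : (q : ℝ) ≤ T := by
      have : (0 : ℝ) ≤ H := Nat.cast_nonneg _
      nlinarith
    have h1 : |(a + b) / (q * T)| ≤ 2 / (q * T) := by
      rw [abs_div, abs_of_pos (by positivity : (0 : ℝ) < q * T)]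
      apply div_le_div_of_nonneg_right _ (by positivity)
      exact (abs_add_le a b).trans (by linarith)
    have h2 : |a * b / (T * T)| ≤ 1 / (q * T) := by
      rw [abs_div, abs_of_pos (by positivity : (0 : ℝ) < (T : ℝ) * T), abs_mul]
      have h5 : |a| * |b| ≤ 1 := by
        have := mul_le_mul ha1 hb1 (abs_nonneg _) zero_le_one
        linarith
      calc |a| * |b| / ((T : ℝ) * T) ≤ 1 / ((T : ℝ) * T) := div_le_div_of_nonneg_right h5 (by positivity)
        _ ≤ 1 / (q * T) := by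
            apply one_div_le_one_div_of_le (by positivity)
            gcongr
    refine (abs_add_le _ _).trans ((add_le_add h1 h2).trans ?_)
    rw [← add_div, one_div_mul_one_div, div_le_div_iff₀ (by positivity) (by positivity)]
    nlinarith [hqT, hq0, mul_le_mul_of_nonneg_left hqT hq0.le]

open Classical in
/-- **The sums over all the intervals, for squares.** -/
theorem law_sq {r : ℕ} [NeZero r] (hr : 2 ≤ r) (L : ℕ) (hL0 : L ≠ 0) (δ : ℝ) (hδ : 0 < δ) (A B : ℕ) :
    ∃ κ₀ : ℝ, 0 < κ₀ ∧ ∃ y₀ : ℕ, ∀ y T : ℕ, y₀ ≤ y →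
    ∀ (κ : Type) (Λ : ℕ → Finset κ), (∀ x, y ≤ x → (Λ x).card ≤ x ^ B) →
    ∀ (F : ℕ → (Fin 2 → ℕ) → ℂ), FR r 2 L F →
    ∀ (v w : ℕ → κ → ℕ → ℂ), (∀ x l n, ‖v x l n‖ ≤ 1) → (∀ x l n, ‖w x l n‖ ≤ 1) →
    ∀ E : (Fin 2 → ℕ) → Prop,
    (∀ m, (∀ x : ℕ, y ≤ x → (x : ℝ) ≤ (T : ℝ) ^ κ₀ → ∀ l ∈ Λ x, ∀ χ : ℕ → ℂ,
      (∀ n, ‖χ n‖ ≤ 1) → (∀ n n' : ℕ, 1 ≤ n → 1 ≤ n' → χ (n * n') = χ n * χ n') →
      (∀ n, 1 ≤ n → n.Coprime L → χ n = w x l n * F n m) → ∀ M : ℕ, M ≤ x ^ B →
      ‖∑ n ∈ Ioc M (M + x), v x l n * χ n‖ ≤ (x : ℝ) ^ (1 / 2 + δ)) → E m) →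
      (((range (T * T)).filter fun t => ¬ E (sq2 T t)).card : ℝ) ≤ 1 / (y : ℝ) ^ A * (T * T) := by
  obtain ⟨M₀, y₀, h⟩ := lawI (r := r) hr 2 L hL0 δ hδ A B
  refine ⟨1 / (4 * (M₀ + 1)), by positivity, y₀ + 7, fun y T hy κ Λ hΛ F hF v w hv hw E hE => ?_⟩
  by_cases hT : ∃ x : ℕ, y ≤ x ∧ (x : ℝ) ≤ (T : ℝ) ^ ((1 : ℝ) / (4 * (M₀ + 1)))
  · -- the largest length
    have key : ∀ x : ℕ, y ≤ x → (x : ℝ) ≤ (T : ℝ) ^ ((1 : ℝ) / (4 * (M₀ + 1))) → (x ^ (M₀ + 1)) ^ 4 ≤ T := by
      intro x hx hxT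
      have h4 : ((x : ℝ)) ^ (4 * (M₀ + 1)) ≤ T := by
        calc (x : ℝ) ^ (4 * (M₀ + 1)) ≤ ((T : ℝ) ^ ((1 : ℝ) / (4 * (M₀ + 1)))) ^ (4 * (M₀ + 1)) := pow_le_pow_left₀ (Nat.cast_nonneg _) hxT _
          _ = T := by
              rw [← Real.rpow_natCast, ← Real.rpow_mul (Nat.cast_nonneg _)]
              push_cast
              rw [one_div_mul_cancel (by positivity), Real.rpow_one]
      have h5 : x ^ (4 * (M₀ + 1)) ≤ T := by exact_mod_cast h4
      rw [← pow_mul, mul_comm (M₀ + 1) 4]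
      exact h5
    obtain ⟨s, hs⟩ : ∃ s, s = Nat.sqrt (T / 3) := ⟨_, rfl⟩
    have hsT : s * s ≤ T / 3 := by rw [hs]; exact Nat.sqrt_le _
    have hbig : ∀ x : ℕ, y ≤ x → (x : ℝ) ≤ (T : ℝ) ^ ((1 : ℝ) / (4 * (M₀ + 1))) → x ^ M₀ + 1 ≤ s := by
      intro x hx hxT
      obtain ⟨z, hz⟩ : ∃ z, z = x ^ (M₀ + 1) := ⟨_, rfl⟩
      have hz2 : 7 ≤ z := by
        rw [hz]
        exact (by omega : 7 ≤ x).trans (Nat.le_self_pow (by omega) x)
      have hz4 := key x hx hxT
      rw [← hz] at hz4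
      have h5 : x ^ M₀ ≤ z := by
        rw [hz]
        exact Nat.pow_le_pow_right (by omega) (by omega)
      have h6 : (z + 1) * (z + 1) ≤ T / 3 := by
        rw [Nat.le_div_iff_mul_le (by norm_num)]
        have h7 : (z + 1) * (z + 1) * 3 ≤ z ^ 4 := by
          have h8 : (z + 1) * (z + 1) * 3 ≤ z * z * 7 := by nlinarith
          have h9 : z * z * 7 ≤ z * z * (z * z) := Nat.mul_le_mul_left _ (by nlinarith)
          calc (z + 1) * (z + 1) * 3 ≤ z * z * (z * z) := h8.trans h9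
            _ = z ^ 4 := by ring
        exact h7.trans hz4
      have h7 : z + 1 ≤ s := by
        rw [hs]
        exact Nat.le_sqrt.2 h6
      omega
    obtain ⟨x₁, hx₁, hx₁T⟩ := hT
    have hs1 : 1 ≤ s := by
      have := hbig x₁ hx₁ hx₁T
      omega
    have hH : 3 * (2 * ((s - 1) / 2) + 1) ^ 2 ≤ T := by
      have h3 : (2 * ((s - 1) / 2) + 1) ^ 2 ≤ T / 3 := by
        refine le_trans (Nat.pow_le_pow_left (by omega : 2 * ((s - 1) / 2) + 1 ≤ s) 2) ?_
        rw [sq]
        exact hsT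
      omega
    have hW := wellN_sq T ((s - 1) / 2) hH
    have h1 := h (range (T * T)) (sq2 T) ((s - 1) / 2) y hW (by omega) κ Λ hΛ F hF v w hv hw E ?_
    · rw [card_range] at h1
      push_cast at h1
      exact h1
    · intro m hm
      refine hE m fun x hyx hxT => hm x hyx ?_
      have := hbig x hyx hxT
      omega
  · have hall : ∀ m, E m := by
      intro m
      refine hE m fun x hyx hxT => ?_
      exact absurd ⟨x, hyx, hxT⟩ hT
    rw [filter_false_of_mem (fun t _ => not_not.2 (hall _)), card_empty, Nat.cast_zero]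
    positivity

end Pool.Agent.J4H77.CB
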