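import Pool.Agent.J4H77.CB.Star
import Mathlib

set_option autoImplicit false
set_option linter.all false

/-! The classification of the cubic Dirichlet characters. -/

namespace Pool.Agent.J4H77.CB

open Finset
open Pool.Agent.Y692.QS
open Pool.Agent.X22.CC

/-- a cubic character modulo `q`, as a function on the natural numbers coprime to `q` -/
structure CF (q : ℕ) (f : ℕ → ℂ) : Prop where
  mul : ∀ m n : ℕ, m.Coprime q → n.Coprime q → f (m * n) = f m * f n
  cub : ∀ n : ℕ, n.Coprime q → f n ^ 3 = 1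
  per : ∀ m n : ℕ, m.Coprime q → m ≡ n [MOD q] → f m = f n

lemma CF.one {q : ℕ} {f : ℕ → ℂ} (h : CF q f) : f 1 = 1 := by
  have h1 := h.mul 1 1 (Nat.coprime_one_left q) (Nat.coprime_one_left q)
  rw [mul_one] at h1
  have h2 := h.cub 1 (Nat.coprime_one_left q)
  have h3 : f 1 ≠ 0 := by
    intro h0
    rw [h0] at h2
    norm_num at h2
  exact (mul_left_cancel₀ h3 (by rw [mul_one]; exact h1)).symm

lemma CF.pow {q : ℕ} {f : ℕ → ℂ} (h : CF q f) {n : ℕ} (hn : n.Coprime q) (k : ℕ) : f (n ^ k) = f n ^ k := by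
  induction k with
  | zero => rw [pow_zero, pow_zero, h.one]
  | succ k ih => rw [pow_succ, pow_succ, h.mul _ _ (Nat.Coprime.pow_left k hn) hn, ih]

/-- the inverse -/
lemma inv_mod {q n : ℕ} (hq : 1 ≤ q) (hn : n.Coprime q) : ∃ n' : ℕ, n'.Coprime q ∧ n * n' ≡ 1 [MOD q] := by
  refine ⟨n ^ (q.totient - 1), Nat.Coprime.pow_left _ hn, ?_⟩
  have h1 : 1 ≤ q.totient := Nat.totient_pos.2 hq
  rw [← pow_succ', Nat.sub_add_cancel h1]
  exact Nat.ModEq.pow_totient hn

lemma CF.ratio {q : ℕ} {f : ℕ → ℂ} (h : CF q f) (hq : 1 ≤ q) {d : ℕ} (hd : ∀ m : ℕ, m.Coprime q → m ≡ 1 [MOD d] → f m = 1)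
    (hdq : d ∣ q) {m n : ℕ} (hm : m.Coprime q) (hn : n.Coprime q) (hmn : m ≡ n [MOD d]) : f m = f n := by
  obtain ⟨n', h1, h2⟩ := inv_mod hq hn
  have h3 : n * n' ≡ 1 [MOD d] := h2.of_dvd hdq
  have h4 : m * n' ≡ 1 [MOD d] := (hmn.mul_right n').trans h3
  have h5 := hd (m * n') (Nat.Coprime.mul_left hm h1) h4
  have h6 := hd (n * n') (Nat.Coprime.mul_left hn h1) h3
  rw [h.mul _ _ hm h1] at h5
  rw [h.mul _ _ hn h1] at h6
  have h7 : f n' ≠ 0 := by
    intro h0
    rw [h0, mul_zero] at h6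
    exact zero_ne_one h6
  exact mul_right_cancel₀ h7 (h5.trans h6.symm)

lemma one_of_pow {z : ℂ} (h3 : z ^ 3 = 1) {m : ℕ} (hm : z ^ m = 1) (hc : Nat.Coprime 3 m) : z = 1 := by
  have h1 : m % 3 = 1 ∨ m % 3 = 2 := by
    have : ¬ 3 ∣ m := fun h => by
      have := Nat.Coprime.eq_one_of_dvd hc h
      omega
    omega
  rcases h1 with h1 | h1
  · rw [← Nat.mod_add_div m 3, pow_add, pow_mul, h3, one_pow, mul_one, h1, pow_one] at hm
    exact hm
  · rw [← Nat.mod_add_div m 3, pow_add, pow_mul, h3, one_pow, mul_one, h1] at hm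
    calc z = z ^ 3 * z := by rw [h3, one_mul]
      _ = (z ^ 2) * (z ^ 2) := by ring
      _ = 1 := by rw [hm, one_mul]

/-- the representation of a cubic character -/
def Rep (q : ℕ) (f : ℕ → ℂ) : Prop :=
  ∃ (P : Multiset Ei) (g : ZMod 9 → ℂ), (∀ π ∈ P, Prime π) ∧ nr P.prod ∣ q ∧ ¬ (3 : ℤ) ∣ nr P.prod ∧ (∀ a, g a ^ 3 = 1) ∧
    ∀ n : ℕ, n.Coprime q → n.Coprime 3 → f n = g n * (P.map (fun π => loc π (n : Ei))).prod

/-- the characters without cubic part -/
lemma rep_two {p k : ℕ} (hp : p.Prime) (h3 : p ≠ 3) (hp2 : p % 3 ≠ 1) {f : ℕ → ℂ} (h : CF (p ^ k) f) : Rep (p ^ k) f := by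
  refine ⟨0, fun _ => 1, by simp, by simp [nr_one], ?_, by simp, ?_⟩
  · rw [Multiset.prod_zero, nr_one]
    norm_num
  · intro n hn _
    rw [Multiset.map_zero, Multiset.prod_zero, mul_one]
    have h1 : f n ^ (p ^ k).totient = 1 := by
      rw [← h.pow hn]
      have h2 := Nat.ModEq.pow_totient hn
      rw [h.per _ 1 (Nat.Coprime.pow_left _ hn) h2, h.one]
    refine one_of_pow (h.cub n hn) h1 ?_
    have h4 : ¬ 3 ∣ p := fun hd => h3 ((Nat.prime_dvd_prime_iff_eq Nat.prime_three hp).1 hd).symm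
    rcases Nat.eq_zero_or_pos k with hk | hk
    · rw [hk, pow_zero, Nat.totient_one]
      exact Nat.coprime_one_right 3
    · rw [Nat.totient_prime_pow hp hk]
      refine Nat.Coprime.mul_right (Nat.Coprime.pow_right _ ((Nat.Prime.coprime_iff_not_dvd Nat.prime_three).2 h4)) ?_
      rw [Nat.Prime.coprime_iff_not_dvd Nat.prime_three]
      have := hp.two_le
      omega

/-- the characters modulo a power of `3` -/
lemma rep_three {k : ℕ} {f : ℕ → ℂ} (h : CF (3 ^ k) f) : Rep (3 ^ k) f := by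
  have hq : 1 ≤ 3 ^ k := Nat.one_le_pow _ _ (by norm_num)
  have hc3 : ∀ j m : ℕ, 1 ≤ j → m ≡ 1 [MOD 3 ^ j] → m.Coprime 3 := by
    intro j m hj hm
    have h1 : m ≡ 1 [MOD 3] := hm.of_dvd (dvd_pow_self 3 (by omega))
    rw [Nat.coprime_comm, Nat.Prime.coprime_iff_not_dvd Nat.prime_three]
    have : m % 3 = 1 := h1
    omega
  have hco : ∀ m : ℕ, m.Coprime 3 → m.Coprime (3 ^ k) := fun m hm => Nat.Coprime.pow_right _ hm
  have key : ∀ e j : ℕ, j + e = k → 2 ≤ j → ∀ m : ℕ, m ≡ 1 [MOD 3 ^ j] → f m = 1 := by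
    intro e
    induction e with
    | zero =>
      intro j hj hj2 m hm
      rw [add_zero] at hj
      rw [hj] at hm
      rw [h.per m 1 (hco m (hc3 j m (by omega) (hj ▸ hm))) hm, h.one]
    | succ e ih =>
      intro j hj hj2 m hm
      have hm1 : 1 ≤ m := by
        rcases Nat.eq_zero_or_pos m with h0 | h0
        · rw [h0] at hm
          have := hc3 j 0 (by omega) hm
          norm_num at this
        · exact h0
      obtain ⟨t, ht⟩ : ∃ t, m = 1 + 3 ^ j * t := by
        obtain ⟨t, ht⟩ := (Nat.modEq_iff_dvd' hm1).1 hm.symm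
        exact ⟨t, by omega⟩
      obtain ⟨i, rfl⟩ : ∃ i, j = i + 2 := ⟨j - 2, by omega⟩
      obtain ⟨c, hc⟩ : ∃ c, c = 1 + 3 ^ (i + 1) * t := ⟨_, rfl⟩
      have hc1 : c.Coprime 3 := by
        apply hc3 1 c le_rfl
        rw [pow_one, hc, pow_succ]
        show (1 + 3 ^ i * 3 * t) % 3 = 1 % 3
        rw [show 3 ^ i * 3 * t = 3 * (3 ^ i * t) by ring, Nat.add_mul_mod_self_left]
      obtain ⟨c', h1, h2⟩ := inv_mod hq (hco c hc1)
      have hcm : c ^ 3 ≡ m [MOD 3 ^ (i + 2 + 1)] := by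
        have e1 : c ^ 3 = m + 3 ^ (i + 2 + 1) * (3 ^ i * t ^ 2 + 3 ^ (2 * i) * t ^ 3) := by
          rw [hc, ht]
          ring
        rw [e1]
        exact Nat.add_mul_mod_self_left _ _ _
      have hdv : 3 ^ (i + 2 + 1) ∣ 3 ^ k := pow_dvd_pow 3 (by omega)
      have h3 : m * c' ^ 3 ≡ 1 [MOD 3 ^ (i + 2 + 1)] := by
        calc m * c' ^ 3 ≡ c ^ 3 * c' ^ 3 [MOD 3 ^ (i + 2 + 1)] := (hcm.symm).mul_right _
          _ = (c * c') ^ 3 := by ring
          _ ≡ 1 ^ 3 [MOD 3 ^ (i + 2 + 1)] := (h2.of_dvd hdv).pow 3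
          _ = 1 := by norm_num
      have h4 := ih (i + 2 + 1) (by omega) (by omega) _ h3
      have hmc : m.Coprime (3 ^ k) := hco m (hc3 (i + 2) m (by omega) hm)
      rw [h.mul _ _ hmc (Nat.Coprime.pow_left 3 h1), h.pow h1, h.cub c' h1, mul_one] at h4
      exact h4
  have hnine : ∀ m : ℕ, m.Coprime (3 ^ k) → m ≡ 1 [MOD Nat.gcd 9 (3 ^ k)] → f m = 1 := by
    intro m hm h1
    by_cases hk : 2 ≤ k
    · have e : Nat.gcd 9 (3 ^ k) = 9 := Nat.gcd_eq_left (by
        have : (3 : ℕ) ^ 2 ∣ 3 ^ k := pow_dvd_pow 3 hk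
        simpa using this)
      rw [e] at h1
      exact key (k - 2) 2 (by omega) le_rfl m h1
    · have e : Nat.gcd 9 (3 ^ k) = 3 ^ k := Nat.gcd_eq_right (by
        have : (3 : ℕ) ^ k ∣ 3 ^ 2 := pow_dvd_pow 3 (by omega)
        simpa using this)
      rw [e] at h1
      rw [h.per m 1 hm h1, h.one]
  classical
  refine ⟨0, fun a => if IsUnit a then f a.val else 1, by simp, by simp [nr_one], ?_, ?_, ?_⟩
  · rw [Multiset.prod_zero, nr_one]
    norm_num
  · intro a
    show (if IsUnit a then f a.val else 1) ^ 3 = 1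
    split_ifs with ha
    · apply h.cub
      apply hco
      have h1 : (a.val).Coprime 9 := by
        rw [← ZMod.isUnit_iff_coprime, ZMod.natCast_zmod_val]
        exact ha
      exact Nat.Coprime.coprime_dvd_right (by norm_num : 3 ∣ 9) h1
    · norm_num
  · intro n hn hn3
    rw [Multiset.map_zero, Multiset.prod_zero, mul_one]
    show f n = if IsUnit ((n : ℕ) : ZMod 9) then f ((n : ZMod 9)).val else 1
    have hn9 : n.Coprime 9 := by
      have : n.Coprime (3 ^ 2) := Nat.Coprime.pow_right _ hn3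
      simpa using this
    rw [if_pos ((ZMod.isUnit_iff_coprime n 9).2 hn9), ZMod.val_natCast]
    have h1 : (n % 9).Coprime 3 := by
      rw [Nat.coprime_comm, Nat.Prime.coprime_iff_not_dvd Nat.prime_three] at hn3 ⊢
      omega
    refine h.ratio hq hnine (Nat.gcd_dvd_right _ _) hn (hco _ h1) ?_
    have h2 : n ≡ n % 9 [MOD 9] := (Nat.mod_modEq n 9).symm
    exact h2.of_dvd (Nat.gcd_dvd_left _ _)

/-- a prime above `p` of degree one -/
lemma split_prime {p : ℕ} (hp : p.Prime) (hp1 : p % 3 = 1) : ∃ π : Ei, Prime π ∧ nr π = p := by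
  haveI := Fact.mk hp
  have hp0 := hp.ne_zero
  obtain ⟨ρ, hρm⟩ := UniqueFactorizationMonoid.exists_mem_factors (nat_ne hp0) (by
    rw [isUnit_iff, nr_nat]
    intro h
    have h1 : (1 : ℤ) < (p : ℤ) := by exact_mod_cast hp.one_lt
    nlinarith)
  have h3' : ¬ 3 ∣ p := by omega
  obtain ⟨hρ, hρd, hρ3⟩ := factor_three hp0 h3' hρm
  refine ⟨ρ, hρ, ?_⟩
  have hnr : nr ρ = p ∨ nr ρ = (p : ℤ) ^ 2 := by
    have h1 := nr_dvd hρd
    rw [nr_nat] at h1
    have h2 := nr_nonneg ρ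
    obtain ⟨k, hk⟩ : ∃ k : ℕ, nr ρ = k := ⟨(nr ρ).toNat, (Int.toNat_of_nonneg h2).symm⟩
    rw [hk] at h1 ⊢
    have h4 : k ∣ p ^ 2 := by exact_mod_cast h1
    obtain ⟨j, hj, hkj⟩ := (Nat.dvd_prime_pow hp).1 h4
    interval_cases j
    · exfalso
      rw [pow_zero] at hkj
      apply hρ.not_isUnit
      rw [isUnit_iff, hk, hkj]
      rfl
    · left
      rw [hkj, pow_one]
    · right
      rw [hkj]
      push_cast
      rfl
  rcases hnr with hnr | hnr
  · exact hnr
  · exfalso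
    have hass : Associated ρ (p : Ei) := by
      obtain ⟨c, hc⟩ := hρd
      have h1 : nr c = 1 := by
        have h2 := congrArg nr hc
        rw [nr_nat, nr_mul, hnr] at h2
        have h4 : (p : ℤ) ^ 2 ≠ 0 := pow_ne_zero _ (by exact_mod_cast hp0)
        exact mul_left_cancel₀ h4 (by rw [← h2, mul_one])
      obtain ⟨u, hu⟩ := isUnit_iff.2 h1
      exact ⟨u, by rw [hu, hc]⟩
    have hpp : Prime (p : Ei) := hass.prime hρ
    -- an element of order three
    have hcard : 3 ∣ Fintype.card (ZMod p)ˣ := by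
      rw [ZMod.card_units_eq_totient, Nat.totient_prime hp]
      omega
    haveI : Fact (Nat.Prime 3) := ⟨Nat.prime_three⟩
    obtain ⟨u, hu⟩ := exists_prime_orderOf_dvd_card 3 hcard
    have hu3 : (u : ZMod p) ^ 3 = 1 := by
      have := pow_orderOf_eq_one u
      rw [hu] at this
      rw [← Units.val_pow_eq_pow_val, this, Units.val_one]
    have hu1 : (u : ZMod p) ≠ 1 := by
      intro h
      have : u = 1 := Units.ext h
      rw [this, orderOf_one] at hu
      norm_num at hu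
    have hz : (u : ZMod p) ^ 2 + u + 1 = 0 := by
      have h1 : ((u : ZMod p) - 1) * ((u : ZMod p) ^ 2 + u + 1) = 0 := by
        have e : ((u : ZMod p) - 1) * ((u : ZMod p) ^ 2 + u + 1) = (u : ZMod p) ^ 3 - 1 := by ring
        rw [e, hu3, sub_self]
      rcases mul_eq_zero.1 h1 with h | h
      · exact absurd (sub_eq_zero.1 h) hu1
      · exact h
    obtain ⟨z, hzv⟩ : ∃ z : ℕ, z = (u : ZMod p).val := ⟨_, rfl⟩
    have hz2 : p ∣ z ^ 2 + z + 1 := by
      rw [← ZMod.natCast_eq_zero_iff]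
      push_cast
      rw [hzv, ZMod.natCast_zmod_val]
      exact hz
    have hz3 : (p : Ei) ∣ (⟨z, -1⟩ : Ei) * ⟨z + 1, 1⟩ := by
      have h1 : (⟨z, -1⟩ : Ei) * ⟨z + 1, 1⟩ = (((z ^ 2 + z + 1 : ℕ)) : Ei) := by
        apply QuadraticAlgebra.ext
        · rw [mul_re, QuadraticAlgebra.re_natCast]
          push_cast
          show (z : ℤ) * (z + 1) - (-1) * 1 = _
          ring
        · rw [mul_im, QuadraticAlgebra.im_natCast]
          show (z : ℤ) * 1 + (-1) * (z + 1) - (-1) * 1 = 0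
          ring
      rw [h1]
      exact_mod_cast (Nat.cast_dvd_cast hz2 : ((p : ℕ) : Ei) ∣ ((z ^ 2 + z + 1 : ℕ) : Ei))
    have hpZ : ∀ x : Ei, (p : Ei) ∣ x → (p : ℤ) ∣ x.im := by
      intro x hx
      have h1 : (((p : ℤ) : Ei)) ∣ x := by exact_mod_cast hx
      exact (int_dvd.1 h1).2
    rcases hpp.dvd_or_dvd hz3 with h | h
    · have h1 := hpZ _ h
      have h2 : (p : ℤ) ∣ 1 := by
        have : (p : ℤ) ∣ -1 := h1
        exact (dvd_neg).1 this
      have h3 : p ∣ 1 := by exact_mod_cast h2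
      exact hp.one_lt.ne' (Nat.dvd_one.1 h3)
    · have h1 := hpZ _ h
      have h2 : (p : ℤ) ∣ 1 := h1
      have h3 : p ∣ 1 := by exact_mod_cast h2
      exact hp.one_lt.ne' (Nat.dvd_one.1 h3)

/-- the residue classes modulo a prime of degree one -/
lemma rat_rep {p : ℕ} (hp : p.Prime) {π : Ei} (hπ : nr π = p) (x : Ei) : ∃ n : ℕ, π ∣ x - (n : Ei) := by
  have hπp : π ∣ (p : Ei) := by
    refine ⟨star π, ?_⟩
    rw [Pool.Agent.Y692.QS.mul_star, hπ]
    push_cast
    rfl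
  have hpZ : Prime (p : ℤ) := Nat.prime_iff_prime_int.1 hp
  have hb : ¬ (p : ℤ) ∣ π.im := by
    intro h
    have h1 : (p : ℤ) ∣ π.re := by
      have h2 : (p : ℤ) ∣ π.re ^ 2 := by
        have h3 : π.re ^ 2 = p + (π.re - π.im) * π.im := by
          rw [← hπ]
          unfold nr
          ring
        rw [h3]
        exact dvd_add (dvd_refl _) (h.mul_left _)
      exact hpZ.dvd_of_dvd_pow h2
    obtain ⟨a, ha⟩ := h
    obtain ⟨b, hb⟩ := h1
    have h2 : (p : ℤ) ^ 2 ∣ p := by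
      have h3 : nr π = (p : ℤ) ^ 2 * (b ^ 2 - b * a + a ^ 2) := by
        unfold nr
        rw [ha, hb]
        ring
      exact ⟨b ^ 2 - b * a + a ^ 2, hπ.symm.trans h3⟩
    have h4 := Int.le_of_dvd (by exact_mod_cast hp.pos) h2
    have h5 : (1 : ℤ) < p := by exact_mod_cast hp.one_lt
    nlinarith
  have hcop : IsCoprime π.im (p : ℤ) := (hpZ.irreducible.coprime_iff_not_dvd.2 hb).symm
  obtain ⟨u, v, huv⟩ := hcop
  obtain ⟨m, hm⟩ : ∃ m : ℤ, m = x.re - x.im * u * π.re := ⟨_, rfl⟩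
  have h1 : π ∣ x - (m : Ei) := by
    have e : x - (m : Ei) = ((x.im * u : ℤ) : Ei) * π + (p : Ei) * (((v * x.im : ℤ) : Ei) * w) := by
      apply QuadraticAlgebra.ext
      · rw [hm]
        simp only [QuadraticAlgebra.re_sub, QuadraticAlgebra.re_add, mul_re, mul_im, QuadraticAlgebra.re_natCast, QuadraticAlgebra.im_natCast,
          QuadraticAlgebra.re_intCast, QuadraticAlgebra.im_intCast, Int.cast_id]
        have hw1 : (w : Ei).re = 0 := rfl
        have hw2 : (w : Ei).im = 1 := rfl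
        rw [hw1, hw2]
        ring
      · rw [hm]
        simp only [QuadraticAlgebra.im_sub, QuadraticAlgebra.im_add, mul_re, mul_im, QuadraticAlgebra.re_natCast, QuadraticAlgebra.im_natCast,
          QuadraticAlgebra.re_intCast, QuadraticAlgebra.im_intCast, Int.cast_id]
        have hw1 : (w : Ei).re = 0 := rfl
        have hw2 : (w : Ei).im = 1 := rfl
        rw [hw1, hw2]
        linear_combination -x.im * huv
    rw [e]
    exact dvd_add (dvd_mul_left _ _) (hπp.mul_right _)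
  refine ⟨(m % p).toNat, ?_⟩
  have h2 : (((m % p).toNat : ℕ) : ℤ) = m % p := Int.toNat_of_nonneg (Int.emod_nonneg _ (by exact_mod_cast hp.ne_zero))
  have h3 : (((m % p).toNat : ℕ) : Ei) = ((m % p : ℤ) : Ei) := by
    rw [← h2]
    push_cast
    rfl
  rw [h3]
  have h4 : π ∣ (m : Ei) - ((m % p : ℤ) : Ei) := by
    have h5 : ((p : ℤ) : Ei) ∣ ((m - m % p : ℤ) : Ei) := int_dvd_int.2 Int.dvd_self_sub_emod
    rw [Int.cast_sub] at h5
    exact (by exact_mod_cast hπp : π ∣ ((p : ℤ) : Ei)).trans h5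
  have h5 := dvd_add h1 h4
  rwa [sub_add_sub_cancel] at h5

/-- the third roots of unity -/
lemma three_cases {z x : ℂ} (hz : z ^ 3 = 1) (hx : x ^ 3 = 1) (hx1 : x ≠ 1) : z = 1 ∨ z = x ∨ z = x ^ 2 := by
  have h1 : x ^ 2 + x + 1 = 0 := by
    have h : (x - 1) * (x ^ 2 + x + 1) = 0 := by
      have e : (x - 1) * (x ^ 2 + x + 1) = x ^ 3 - 1 := by ring
      rw [e, hx, sub_self]
    rcases mul_eq_zero.1 h with h | h
    · exact absurd (sub_eq_zero.1 h) hx1
    · exact h
  have h2 : (z - 1) * ((z - x) * (z - x ^ 2)) = 0 := by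
    have e : (z - 1) * ((z - x) * (z - x ^ 2)) = z ^ 3 - 1 - (z - 1) * (z * (x ^ 2 + x + 1) - (x ^ 3 - 1)) := by ring
    rw [e, hz, h1, hx]
    ring
  rcases mul_eq_zero.1 h2 with h | h
  · left
    exact sub_eq_zero.1 h
  · rcases mul_eq_zero.1 h with h | h
    · right; left
      exact sub_eq_zero.1 h
    · right; right
      exact sub_eq_zero.1 h

/-- the characters modulo a power of a prime `p` with `p ≡ 1` modulo `3` -/
lemma rep_one {p k : ℕ} (hp : p.Prime) (hk : 0 < k) (hp1 : p % 3 = 1) {f : ℕ → ℂ} (h : CF (p ^ k) f) : Rep (p ^ k) f := by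
  haveI := Fact.mk hp
  have hq : 1 ≤ p ^ k := Nat.one_le_pow _ _ hp.pos
  have hco : ∀ m : ℕ, m.Coprime p → m.Coprime (p ^ k) := fun m hm => Nat.Coprime.pow_right _ hm
  have hco' : ∀ m : ℕ, m.Coprime (p ^ k) → m.Coprime p := fun m hm => Nat.Coprime.coprime_dvd_right (dvd_pow_self p (by omega)) hm
  have h3p : ¬ 3 ∣ p := by omega
  -- the values depend on the class modulo `p` only
  have hone : ∀ m : ℕ, m.Coprime (p ^ k) → m ≡ 1 [MOD p] → f m = 1 := by
    intro m hm h1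
    have h2 : m ^ p ^ (k - 1) ≡ 1 [MOD p ^ k] := by
      have h3 : ((p : ℕ) : ℤ) ∣ ((m : ℕ) : ℤ) - 1 := by
        have := (Nat.modEq_iff_dvd).1 h1.symm
        exact_mod_cast this
      have h4 := dvd_sub_pow_of_dvd_sub h3 (k - 1)
      rw [Nat.sub_add_cancel hk, one_pow] at h4
      exact (Nat.modEq_iff_dvd.2 (by push_cast; exact h4)).symm
    have h5 : f m ^ p ^ (k - 1) = 1 := by
      rw [← h.pow hm, h.per _ 1 (Nat.Coprime.pow_left _ hm) h2, h.one]
    exact one_of_pow (h.cub m hm) h5 (Nat.Coprime.pow_right _ ((Nat.Prime.coprime_iff_not_dvd Nat.prime_three).2 h3p))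
  have hper : ∀ m n : ℕ, m.Coprime p → n.Coprime p → m ≡ n [MOD p] → f m = f n := fun m n hm hn hmn =>
    h.ratio hq hone (dvd_pow_self p (by omega)) (hco m hm) (hco n hn) hmn
  obtain ⟨π, hπ, hπn⟩ := split_prime hp hp1
  have hπp : π ∣ (p : Ei) := by
    refine ⟨star π, ?_⟩
    rw [Pool.Agent.Y692.QS.mul_star, hπn]
    push_cast
    rfl
  have hπ3 : ¬ π ∣ 3 := not_three (by rw [hπn]; exact_mod_cast h3p) hπ
  have hpZ : Prime (p : ℤ) := Nat.prime_iff_prime_int.1 hp
  -- the symbol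
  have hloc : ∀ n : ℕ, n.Coprime p → loc π (n : Ei) ≠ 0 := by
    intro n hn h0
    have h1 : π ∣ (n : Ei) := by
      by_contra hcon
      rw [loc_ne hcon] at h0
      exact pow_ne_zero _ (by
        intro h
        have := wC_norm
        rw [h, norm_zero] at this
        exact zero_ne_one this) h0
    have h2 := nr_dvd h1
    rw [nr_nat, hπn] at h2
    have h3 : p ∣ n := by
      have : (p : ℤ) ∣ n := hpZ.dvd_of_dvd_pow h2
      exact_mod_cast this
    have := Nat.Coprime.eq_one_of_dvd hn.symm h3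
    exact hp.one_lt.ne' this
  have hloccub : ∀ n : ℕ, n.Coprime p → loc π (n : Ei) ^ 3 = 1 := fun n hn => (loc_val π (n : Ei)).resolve_left (hloc n hn)
  have hlocper : ∀ m n : ℕ, m ≡ n [MOD p] → loc π (m : Ei) = loc π (n : Ei) := by
    intro m n hmn
    apply loc_congr hπ hπ3
    have h1 : (p : ℤ) ∣ (m : ℤ) - n := by
      have := (Nat.modEq_iff_dvd).1 hmn.symm
      exact_mod_cast this
    have h2 : ((p : ℤ) : Ei) ∣ (((m : ℤ) - n : ℤ) : Ei) := int_dvd_int.2 h1
    push_cast at h2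
    exact hπp.trans h2
  -- the generator
  obtain ⟨γ, hγ⟩ := IsCyclic.exists_generator (α := (ZMod p)ˣ)
  obtain ⟨c, hc⟩ : ∃ c : ℕ, c = (γ : ZMod p).val := ⟨_, rfl⟩
  have hcc : c.Coprime p := by
    rw [← ZMod.isUnit_iff_coprime, hc, ZMod.natCast_zmod_val]
    exact γ.isUnit
  have hgen : ∀ n : ℕ, n.Coprime p → ∃ j : ℕ, n ≡ c ^ j [MOD p] := by
    intro n hn
    obtain ⟨j, hj⟩ := (mem_powers_iff_mem_zpowers.2 (hγ (ZMod.unitOfCoprime n hn)))
    refine ⟨j, ?_⟩
    rw [← ZMod.natCast_eq_natCast_iff]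
    push_cast
    rw [hc, ZMod.natCast_zmod_val]
    have h1 := congrArg (fun u : (ZMod p)ˣ => (u : ZMod p)) hj
    simp only [Units.val_pow_eq_pow_val, ZMod.coe_unitOfCoprime] at h1
    exact h1.symm
  have hfpow : ∀ n : ℕ, n.Coprime p → ∀ j : ℕ, n ≡ c ^ j [MOD p] → f n = f c ^ j := by
    intro n hn j hj
    rw [hper n (c ^ j) hn (Nat.Coprime.pow_left _ hcc) hj, h.pow (hco c hcc)]
  have hlpow : ∀ n : ℕ, n.Coprime p → ∀ j : ℕ, n ≡ c ^ j [MOD p] → loc π (n : Ei) = loc π (c : Ei) ^ j := by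
    intro n hn j hj
    rw [hlocper n (c ^ j) hj]
    clear hj
    induction j with
    | zero => rw [pow_zero, pow_zero, Nat.cast_one, loc_one hπ hπ3]
    | succ j ih => rw [pow_succ, pow_succ, Nat.cast_mul, loc_mul hπ hπ3, ih]
  have hne : loc π (c : Ei) ≠ 1 := by
    intro h1
    obtain ⟨x, hx0, hx1⟩ := exists_nontriv hπ hπ3
    obtain ⟨n, hn⟩ := rat_rep hp hπn x
    have h2 := loc_congr hπ hπ3 hn
    have hnc : n.Coprime p := by
      rw [Nat.coprime_comm, Nat.Prime.coprime_iff_not_dvd hp]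
      intro hd
      apply hx0
      rw [h2]
      apply loc_zero
      exact hπp.trans (by exact_mod_cast (Nat.cast_dvd_cast hd : ((p : ℕ) : Ei) ∣ (n : Ei)))
    obtain ⟨j, hj⟩ := hgen n hnc
    rw [h2, hlpow n hnc j hj, h1, one_pow] at hx1
    exact hx1 rfl
  have hc3 := three_cases (h.cub c (hco c hcc)) (hloccub c hcc) hne
  rcases hc3 with hc3 | hc3 | hc3
  · refine ⟨0, fun _ => 1, by simp, by simp [nr_one], ?_, by simp, ?_⟩
    · rw [Multiset.prod_zero, nr_one]
      norm_num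
    · intro n hn _
      obtain ⟨j, hj⟩ := hgen n (hco' n hn)
      rw [hfpow n (hco' n hn) j hj, hc3, one_pow]
      simp
  · refine ⟨{π}, fun _ => 1, ?_, ?_, ?_, by simp, ?_⟩
    · intro τ hτ
      rw [Multiset.mem_singleton] at hτ
      rw [hτ]
      exact hπ
    · rw [Multiset.prod_singleton, hπn]
      push_cast
      exact dvd_pow_self _ (by omega)
    · rw [Multiset.prod_singleton, hπn]
      exact_mod_cast h3p
    · intro n hn _
      obtain ⟨j, hj⟩ := hgen n (hco' n hn)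
      rw [Multiset.map_singleton, Multiset.prod_singleton, one_mul, hfpow n (hco' n hn) j hj, hlpow n (hco' n hn) j hj, hc3]
  · refine ⟨{star π}, fun _ => 1, ?_, ?_, ?_, by simp, ?_⟩
    · intro τ hτ
      rw [Multiset.mem_singleton] at hτ
      rw [hτ]
      exact Pool.Agent.Y715.T.RecC.star_prime hπ
    · rw [Multiset.prod_singleton, nr_star, hπn]
      push_cast
      exact dvd_pow_self _ (by omega)
    · rw [Multiset.prod_singleton, nr_star, hπn]
      exact_mod_cast h3p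
    · intro n hn _
      obtain ⟨j, hj⟩ := hgen n (hco' n hn)
      have hn1 : ‖loc π (n : Ei)‖ = 1 := Complex.norm_eq_one_of_pow_eq_one (hloccub n (hco' n hn)) (by norm_num)
      have h1 : loc (star π) (n : Ei) = (starRingEnd ℂ) (loc π (n : Ei)) := by
        have := loc_star hπ hπ3 (n : Ei)
        rwa [star_nat] at this
      have h2 : (starRingEnd ℂ) (loc π (n : Ei)) = loc π (n : Ei) ^ 2 := by
        have h4 := hloc n (hco' n hn)
        apply mul_left_cancel₀ h4
        rw [Complex.mul_conj, Complex.normSq_eq_norm_sq, hn1, ← pow_succ', hloccub n (hco' n hn)]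
        norm_num
      rw [Multiset.map_singleton, Multiset.prod_singleton, one_mul, h1, h2, hlpow n (hco' n hn) j hj, hfpow n (hco' n hn) j hj, hc3,
        ← pow_mul, ← pow_mul, mul_comm]

/-- the product of two coprime moduli -/
lemma rep_mul {a b : ℕ} (ha : 1 < a) (hb : 1 < b) (hab : a.Coprime b) (ia : ∀ f, CF a f → Rep a f) (ib : ∀ f, CF b f → Rep b f)
    {f : ℕ → ℂ} (h : CF (a * b) f) : Rep (a * b) f := by
  obtain ⟨s, hs⟩ : ∃ s : ℕ → ℕ, s = fun n => (Nat.chineseRemainder hab n 1 : ℕ) := ⟨_, rfl⟩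
  obtain ⟨t, ht⟩ : ∃ t : ℕ → ℕ, t = fun n => (Nat.chineseRemainder hab 1 n : ℕ) := ⟨_, rfl⟩
  have hs1 : ∀ n, s n ≡ n [MOD a] := fun n => by rw [hs]; exact (Nat.chineseRemainder hab n 1).2.1
  have hs2 : ∀ n, s n ≡ 1 [MOD b] := fun n => by rw [hs]; exact (Nat.chineseRemainder hab n 1).2.2
  have ht1 : ∀ n, t n ≡ 1 [MOD a] := fun n => by rw [ht]; exact (Nat.chineseRemainder hab 1 n).2.1
  have ht2 : ∀ n, t n ≡ n [MOD b] := fun n => by rw [ht]; exact (Nat.chineseRemainder hab 1 n).2.2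
  have cop : ∀ q m n : ℕ, m ≡ n [MOD q] → n.Coprime q → m.Coprime q := by
    intro q m n h1 h2
    have := h1.gcd_eq
    unfold Nat.Coprime
    rw [this]
    exact h2
  have hsc : ∀ n : ℕ, n.Coprime a → (s n).Coprime (a * b) := fun n hn =>
    Nat.Coprime.mul_right (cop a _ _ (hs1 n) hn) (cop b _ _ (hs2 n) (Nat.coprime_one_left b))
  have htc : ∀ n : ℕ, n.Coprime b → (t n).Coprime (a * b) := fun n hn =>
    Nat.Coprime.mul_right (cop a _ _ (ht1 n) (Nat.coprime_one_left a)) (cop b _ _ (ht2 n) hn)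
  have hcrt : ∀ m n : ℕ, m ≡ n [MOD a] → m ≡ n [MOD b] → m ≡ n [MOD a * b] := fun m n h1 h2 =>
    (Nat.modEq_and_modEq_iff_modEq_mul hab).1 ⟨h1, h2⟩
  have hfa : CF a (fun n => f (s n)) := by
    refine ⟨fun m n hm hn => ?_, fun n hn => h.cub _ (hsc n hn), fun m n hm hmn => ?_⟩
    · show f (s (m * n)) = f (s m) * f (s n)
      rw [← h.mul _ _ (hsc m hm) (hsc n hn)]
      apply h.per _ _ (hsc _ (Nat.Coprime.mul_left hm hn))
      apply hcrt
      · exact (hs1 _).trans ((hs1 m).mul (hs1 n)).symm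
      · exact (hs2 _).trans (by simpa using ((hs2 m).mul (hs2 n)).symm)
    · apply h.per _ _ (hsc _ hm)
      apply hcrt
      · exact ((hs1 m).trans hmn).trans (hs1 n).symm
      · exact (hs2 m).trans (hs2 n).symm
  have hfb : CF b (fun n => f (t n)) := by
    refine ⟨fun m n hm hn => ?_, fun n hn => h.cub _ (htc n hn), fun m n hm hmn => ?_⟩
    · show f (t (m * n)) = f (t m) * f (t n)
      rw [← h.mul _ _ (htc m hm) (htc n hn)]
      apply h.per _ _ (htc _ (Nat.Coprime.mul_left hm hn))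
      apply hcrt
      · exact (ht1 _).trans (by simpa using ((ht1 m).mul (ht1 n)).symm)
      · exact (ht2 _).trans ((ht2 m).mul (ht2 n)).symm
    · apply h.per _ _ (htc _ hm)
      apply hcrt
      · exact (ht1 m).trans (ht1 n).symm
      · exact ((ht2 m).trans hmn).trans (ht2 n).symm
  obtain ⟨P₁, g₁, a1, a2, a3, a4, a5⟩ := ia _ hfa
  obtain ⟨P₂, g₂, b1, b2, b3, b4, b5⟩ := ib _ hfb
  refine ⟨P₁ + P₂, fun x => g₁ x * g₂ x, ?_, ?_, ?_, ?_, ?_⟩
  · intro π hπ
    rcases Multiset.mem_add.1 hπ with h1 | h1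
    · exact a1 π h1
    · exact b1 π h1
  · rw [Multiset.prod_add, nr_mul]
    push_cast
    exact mul_dvd_mul a2 b2
  · rw [Multiset.prod_add, nr_mul]
    intro h1
    rcases (Int.prime_three.dvd_or_dvd h1) with h2 | h2
    · exact a3 h2
    · exact b3 h2
  · intro x
    rw [mul_pow, a4, b4, mul_one]
  · intro n hn hn3
    have hna : n.Coprime a := Nat.Coprime.coprime_dvd_right (dvd_mul_right a b) hn
    have hnb : n.Coprime b := Nat.Coprime.coprime_dvd_right (dvd_mul_left b a) hn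
    have h1 : f n = f (s n) * f (t n) := by
      rw [← h.mul _ _ (hsc n hna) (htc n hnb)]
      apply h.per _ _ hn
      apply hcrt
      · exact (by simpa using ((hs1 n).mul (ht1 n)).symm)
      · exact (by simpa using ((hs2 n).mul (ht2 n)).symm)
    have h2 : f (s n) = g₁ n * (P₁.map (fun π => loc π (n : Ei))).prod := a5 n hna hn3
    have h3 : f (t n) = g₂ n * (P₂.map (fun π => loc π (n : Ei))).prod := b5 n hnb hn3
    rw [h1, h2, h3, Multiset.map_add, Multiset.prod_add]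
    ring

/-- **The classification.** -/
theorem rep_all (q : ℕ) : 1 ≤ q → ∀ f : ℕ → ℂ, CF q f → Rep q f := by
  induction q using Nat.recOnPosPrimePosCoprime with
  | prime_pow p k hp hk =>
    intro _ f hf
    by_cases h3 : p = 3
    · subst h3
      exact rep_three hf
    · by_cases h1 : p % 3 = 1
      · exact rep_one hp hk h1 hf
      · exact rep_two hp h3 h1 hf
  | zero => intro h; omega
  | one =>
    intro _ f hf
    have := rep_three (k := 0) (f := f) (by simpa using hf)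
    simpa using this
  | coprime a b ha hb hab ia ib =>
    intro _ f hf
    exact rep_mul ha hb hab (ia (by omega)) (ib (by omega)) hf

end Pool.Agent.J4H77.CB
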