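import Pool.Agent.J4H77.CB.HD
import Pool.Agent.H305R2.MertensM

set_option autoImplicit false
set_option linter.all false

/-! The quadratic form for the integers of an interval. -/

namespace Pool.Agent.J4H77.CB

open Finset

/-- the exponents modulo `r` of the primes up to `X` -/
def ev (r X : ℕ) (n : ℕ) (i : Fin (X + 1)) : ZMod r := ((n.factorization (i : ℕ) : ℕ) : ZMod r)

/-- integers with the same exponents modulo `r` -/
lemma same_class {r X : ℕ} (hr : 1 ≤ r) {n n' : ℕ} (hn : 1 ≤ n) (hn' : 1 ≤ n') (hX : n ≤ X) (hX' : n' ≤ X)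
    (h : ev r X n = ev r X n') : ∃ G c c' : ℕ, 1 ≤ G ∧ n = G * c ^ r ∧ n' = G * c' ^ r := by
  have hmod : ∀ p, n.factorization p ≡ n'.factorization p [MOD r] := by
    intro p
    by_cases hp : p ≤ X
    · have h1 := congrFun h ⟨p, by omega⟩
      unfold ev at h1
      exact (ZMod.natCast_eq_natCast_iff _ _ _).1 h1
    · have h1 : ∀ u : ℕ, 1 ≤ u → u ≤ X → u.factorization p = 0 := by
        intro u hu1 hu
        apply Nat.factorization_eq_zero_of_not_dvd
        intro hd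
        exact hp ((Nat.le_of_dvd hu1 hd).trans hu)
      rw [h1 n hn hX, h1 n' hn' hX']
  -- roots
  have root : ∀ u : ℕ, 1 ≤ u → (∀ p, r ∣ u.factorization p) → ∃ c, u = c ^ r := by
    intro u hu hd
    refine ⟨∏ p ∈ u.primeFactors, p ^ (u.factorization p / r), ?_⟩
    rw [← Finset.prod_pow]
    conv_lhs => rw [← Nat.factorization_prod_pow_eq_self (by omega : u ≠ 0)]
    rw [Finsupp.prod, Nat.support_factorization]
    refine Finset.prod_congr rfl fun p _ => ?_
    rw [← pow_mul, Nat.div_mul_cancel (hd p)]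
  have hG : 1 ≤ n.gcd n' := Nat.gcd_pos_of_pos_left _ hn
  have hfac : ∀ u v : ℕ, 1 ≤ u → 1 ≤ v → (∀ p, u.factorization p ≡ v.factorization p [MOD r]) →
      ∃ c, u = u.gcd v * c ^ r := by
    intro u v hu hv huv
    have hg : 1 ≤ u.gcd v := Nat.gcd_pos_of_pos_left _ hu
    obtain ⟨w, hw⟩ := Nat.gcd_dvd_left u v
    have hw1 : 1 ≤ w := by
      rcases Nat.eq_zero_or_pos w with h0 | h0
      · rw [h0, mul_zero] at hw
        omega
      · exact h0
    obtain ⟨c, hc⟩ := root w hw1 (by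
      intro p
      have h1 : u.factorization p = (u.gcd v).factorization p + w.factorization p := by
        conv_lhs => rw [hw]
        rw [Nat.factorization_mul (by omega) (by omega), Finsupp.add_apply]
      have h2 : (u.gcd v).factorization p = min (u.factorization p) (v.factorization p) := by
        rw [Nat.factorization_gcd (by omega) (by omega), Finsupp.inf_apply]
      have h3 := huv p
      rcases le_total (u.factorization p) (v.factorization p) with h4 | h4
      · rw [min_eq_left h4] at h2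
        have : w.factorization p = 0 := by omega
        rw [this]
        exact dvd_zero _
      · rw [min_eq_right h4] at h2
        have : w.factorization p = u.factorization p - v.factorization p := by omega
        rw [this]
        exact (Nat.modEq_iff_dvd' h4).1 h3.symm)
    exact ⟨c, by rw [← hc]; exact hw⟩
  obtain ⟨c, hc⟩ := hfac n n' hn hn' hmod
  obtain ⟨c', hc'⟩ := hfac n' n hn' hn fun p => (hmod p).symm
  rw [Nat.gcd_comm] at hc'
  exact ⟨n.gcd n', c, c', hG, hc, hc'⟩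

open Classical in
/-- the numbers `c` with `G c ^ r` in the interval -/
noncomputable def SG (r M X G : ℕ) : Finset ℕ := (range (X + 1)).filter fun c => M < G * c ^ r ∧ G * c ^ r ≤ X

lemma SG_card {r M X G : ℕ} (hr : 2 ≤ r) (hG : 1 ≤ G) (hM : M < X) :
    ((SG r M X G).card : ℝ) ^ 2 ≤ 2 + 2 * ((X - M : ℕ) : ℝ) / G := by
  classical
  obtain ⟨N, hN⟩ : ∃ N, N = X - M := ⟨_, rfl⟩
  rw [← hN]
  have hG0 : (0 : ℝ) < G := by exact_mod_cast hG
  rcases (SG r M X G).eq_empty_or_nonempty with h | h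
  · rw [h]
    simp
    positivity
  · obtain ⟨a, ha⟩ : ∃ a, a = (SG r M X G).min' h := ⟨_, rfl⟩
    obtain ⟨b, hb⟩ : ∃ b, b = (SG r M X G).max' h := ⟨_, rfl⟩
    have ham := (SG r M X G).min'_mem h
    have hbm := (SG r M X G).max'_mem h
    rw [← ha] at ham
    rw [← hb] at hbm
    have hab : a ≤ b := by
      rw [hb]
      exact Finset.le_max' _ _ ham
    unfold SG at ham hbm
    rw [mem_filter] at ham hbm
    have hsub : SG r M X G ⊆ Icc a b := by
      intro c hc
      rw [mem_Icc, ha, hb]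
      exact ⟨Finset.min'_le _ _ hc, Finset.le_max' _ _ hc⟩
    have hcard : (SG r M X G).card ≤ b - a + 1 := by
      refine (Finset.card_le_card hsub).trans ?_
      rw [Nat.card_Icc]
      omega
    obtain ⟨t, ht⟩ : ∃ t, b = a + t := ⟨b - a, by omega⟩
    have ht' : b - a = t := by omega
    have hpow : a ^ r + t ^ r ≤ b ^ r := by
      rw [ht]
      exact pow_add_pow_le (Nat.zero_le _) (Nat.zero_le _) (by omega)
    have h1 : G * t ^ r ≤ N := by
      have h2 := ham.2.1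
      have h3 := hbm.2.2
      have h4 : G * a ^ r + G * t ^ r ≤ G * b ^ r := by
        rw [← mul_add]
        exact Nat.mul_le_mul_left _ hpow
      omega
    have h2 : t ^ 2 ≤ t ^ r := by
      rcases Nat.eq_zero_or_pos t with h0 | h0
      · rw [h0]
        simp
      · exact Nat.pow_le_pow_right h0 hr
    have h3 : (G : ℝ) * (t : ℝ) ^ 2 ≤ N := by
      have : G * t ^ 2 ≤ N := (Nat.mul_le_mul_left _ h2).trans h1
      exact_mod_cast this
    have h4 : ((SG r M X G).card : ℝ) ≤ t + 1 := by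
      have : (SG r M X G).card ≤ t + 1 := by omega
      exact_mod_cast this
    have h5 : (t : ℝ) ^ 2 ≤ N / G := by
      rw [le_div_iff₀ hG0]
      linarith
    calc ((SG r M X G).card : ℝ) ^ 2 ≤ ((t : ℝ) + 1) ^ 2 := pow_le_pow_left₀ (Nat.cast_nonneg _) h4 2
      _ ≤ 2 + 2 * (t : ℝ) ^ 2 := by nlinarith [sq_nonneg ((t : ℝ) - 1)]
      _ ≤ 2 + 2 * (N / G) := by linarith
      _ = _ := by ring

open Classical in
/-- **The number of the pairs of integers of an interval whose quotient is a quotient of `r`-th powers.** -/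
lemma pairs_card {r M X : ℕ} (hr : 2 ≤ r) (hM : M < X) :
    ((((Ioc M X) ×ˢ (Ioc M X)).filter fun q => ev r X q.1 = ev r X q.2).card : ℝ) ≤
      ((X - M : ℕ) : ℝ) * (5 + 2 * Real.log ((X - M : ℕ) : ℝ)) := by
  obtain ⟨N, hN⟩ : ∃ N, N = X - M := ⟨_, rfl⟩
  rw [← hN]
  have hN1 : 1 ≤ N := by omega
  have hsub : ((Ioc M X) ×ˢ (Ioc M X)).filter (fun q => ev r X q.1 = ev r X q.2) ⊆
      ((Ioc M X).image fun n => (n, n)) ∪ ((Icc 1 N).biUnion fun G =>
        ((SG r M X G) ×ˢ (SG r M X G)).image fun z => (G * z.1 ^ r, G * z.2 ^ r)) := by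
    rintro ⟨n, n'⟩ hq
    rw [mem_filter, mem_product, mem_Ioc, mem_Ioc] at hq
    obtain ⟨⟨⟨a1, a2⟩, ⟨a3, a4⟩⟩, h⟩ := hq
    simp only at a1 a2 a3 a4 h
    rw [mem_union]
    by_cases hnn : n = n'
    · left
      rw [mem_image]
      exact ⟨n, mem_Ioc.2 ⟨a1, a2⟩, by rw [hnn]⟩
    · right
      obtain ⟨G, c, c', hG, h1, h2⟩ := same_class (by omega) (by omega) (by omega) a2 a4 h
      rw [mem_biUnion]
      have hGN : G ≤ N := by
        have hd1 : G ∣ n := ⟨_, h1⟩
        have hd2 : G ∣ n' := ⟨_, h2⟩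
        rcases Nat.lt_or_gt_of_ne hnn with h3 | h3
        · have := Nat.le_of_dvd (by omega) (Nat.dvd_sub hd2 hd1)
          omega
        · have := Nat.le_of_dvd (by omega) (Nat.dvd_sub hd1 hd2)
          omega
      refine ⟨G, mem_Icc.2 ⟨hG, hGN⟩, ?_⟩
      have hmem : ∀ u c : ℕ, M < u → u ≤ X → u = G * c ^ r → c ∈ SG r M X G := by
        intro u c hu1 hu2 hu
        unfold SG
        rw [mem_filter, mem_range, ← hu]
        refine ⟨?_, hu1, hu2⟩
        have h4 : c ≤ c ^ r := Nat.le_self_pow (by omega) c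
        have h5 : c ^ r ≤ G * c ^ r := Nat.le_mul_of_pos_left _ hG
        omega
      rw [mem_image]
      refine ⟨(c, c'), mem_product.2 ⟨hmem n c a1 a2 h1, hmem n' c' a3 a4 h2⟩, ?_⟩
      simp only
      rw [← h1, ← h2]
  have h1 := Finset.card_le_card hsub
  have h2 : ((((Ioc M X) ×ˢ (Ioc M X)).filter (fun q => ev r X q.1 = ev r X q.2)).card : ℝ) ≤
      N + ∑ G ∈ Icc 1 N, ((SG r M X G).card : ℝ) ^ 2 := by
    have h3 : (((Ioc M X) ×ˢ (Ioc M X)).filter (fun q => ev r X q.1 = ev r X q.2)).card ≤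
        N + ∑ G ∈ Icc 1 N, (SG r M X G).card * (SG r M X G).card := by
      refine h1.trans ((Finset.card_union_le _ _).trans (Nat.add_le_add ?_ ?_))
      · refine Finset.card_image_le.trans ?_
        rw [Nat.card_Ioc, hN]
      · refine Finset.card_biUnion_le.trans (Finset.sum_le_sum fun G _ => ?_)
        refine Finset.card_image_le.trans ?_
        rw [card_product]
    calc ((((Ioc M X) ×ˢ (Ioc M X)).filter (fun q => ev r X q.1 = ev r X q.2)).card : ℝ) ≤
        ((N + ∑ G ∈ Icc 1 N, (SG r M X G).card * (SG r M X G).card : ℕ) : ℝ) := by exact_mod_cast h3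
      _ = _ := by
        push_cast
        congr 1
        refine Finset.sum_congr rfl fun G _ => ?_
        ring
  refine h2.trans ?_
  have h3 : ∑ G ∈ Icc 1 N, ((SG r M X G).card : ℝ) ^ 2 ≤ ∑ G ∈ Icc 1 N, (2 + 2 * (N : ℝ) * (1 / G)) := by
    refine Finset.sum_le_sum fun G hG => ?_
    have := SG_card (M := M) (X := X) hr (mem_Icc.1 hG).1 hM
    rw [← hN] at this
    refine this.trans (le_of_eq ?_)
    ring
  have h4 : ∑ G ∈ Icc 1 N, (1 : ℝ) / (G : ℝ) ≤ 1 + Real.log N := by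
    have h5 := harmonic_le_one_add_log N
    rw [harmonic_eq_sum_Icc] at h5
    push_cast at h5
    refine le_trans (le_of_eq ?_) h5
    refine Finset.sum_congr rfl fun G _ => ?_
    rw [one_div]
  have h5 : ∑ G ∈ Icc 1 N, (2 + 2 * (N : ℝ) * (1 / G)) = 2 * N + 2 * N * ∑ G ∈ Icc 1 N, (1 : ℝ) / G := by
    rw [Finset.sum_add_distrib, Finset.sum_const, Nat.card_Icc, ← Finset.mul_sum, nsmul_eq_mul]
    push_cast
    simp
    ring
  rw [h5] at h3
  have hN0 : (0 : ℝ) ≤ N := Nat.cast_nonneg _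
  nlinarith

lemma nz_ev {r X n : ℕ} [NeZero r] (hn : 1 ≤ n) : nz (ev r X n) ≤ n.primeFactors.card := by
  classical
  unfold nz
  have h1 : (univ.filter fun i : Fin (X + 1) => ev r X n i ≠ 0).card =
      ((univ.filter fun i : Fin (X + 1) => ev r X n i ≠ 0).image fun i : Fin (X + 1) => (i : ℕ)).card :=
    (Finset.card_image_of_injective _ Fin.val_injective).symm
  rw [h1]
  refine Finset.card_le_card ?_
  intro p hp
  rw [mem_image] at hp
  obtain ⟨i, hi, rfl⟩ := hp
  rw [mem_filter] at hi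
  rw [← Nat.support_factorization, Finsupp.mem_support_iff]
  intro h0
  apply hi.2
  unfold ev
  rw [h0]
  simp

/-- powers with the number of the prime factors as exponent -/
lemma omega_pow {D : ℝ} (hD : 1 ≤ D) {η : ℝ} (hη : 0 < η) : ∃ C : ℝ, 1 ≤ C ∧ ∀ n : ℕ, 1 ≤ n →
    D ^ n.primeFactors.card ≤ C * (n : ℝ) ^ η := by
  classical
  obtain ⟨P, hP⟩ := exists_nat_ge (D ^ (1 / η))
  refine ⟨D ^ P, one_le_pow₀ hD, fun n hn => ?_⟩
  have h1 : ∀ p ∈ n.primeFactors, D ≤ (if p < P then D else 1) * (p : ℝ) ^ η := by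
    intro p hp
    have hp1 : (1 : ℝ) ≤ p := by exact_mod_cast (Nat.prime_of_mem_primeFactors hp).one_lt.le
    split_ifs with h
    · have : (1 : ℝ) ≤ (p : ℝ) ^ η := Real.one_le_rpow hp1 hη.le
      nlinarith
    · rw [one_mul]
      have h2 : D ^ (1 / η) ≤ p := hP.trans (by exact_mod_cast (by omega : P ≤ p))
      calc D = (D ^ (1 / η)) ^ η := by
            rw [← Real.rpow_mul (by linarith), one_div, inv_mul_cancel₀ hη.ne', Real.rpow_one]
        _ ≤ (p : ℝ) ^ η := Real.rpow_le_rpow (by positivity) h2 hη.le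
  calc D ^ n.primeFactors.card = ∏ p ∈ n.primeFactors, D := by rw [Finset.prod_const]
    _ ≤ ∏ p ∈ n.primeFactors, ((if p < P then D else 1) * (p : ℝ) ^ η) :=
        Finset.prod_le_prod (fun _ _ => by linarith) h1
    _ = (∏ p ∈ n.primeFactors, if p < P then D else 1) * ∏ p ∈ n.primeFactors, (p : ℝ) ^ η := Finset.prod_mul_distrib
    _ ≤ D ^ P * (n : ℝ) ^ η := by
        refine mul_le_mul ?_ ?_ (Finset.prod_nonneg fun _ _ => by positivity) (by positivity)
        · rw [Finset.prod_ite, Finset.prod_const, Finset.prod_const_one, mul_one]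
          refine pow_le_pow_right₀ hD ?_
          calc (n.primeFactors.filter fun p => p < P).card ≤ (range P).card :=
                Finset.card_le_card fun p hp => mem_range.2 (mem_filter.1 hp).2
            _ = P := card_range P
        · rw [Real.finsetProd_rpow _ _ fun p _ => Nat.cast_nonneg p]
          refine Real.rpow_le_rpow (Finset.prod_nonneg fun _ _ => Nat.cast_nonneg _) ?_ hη.le
          have h3 : ∏ p ∈ n.primeFactors, p ≤ n := Nat.le_of_dvd hn (Nat.prod_primeFactors_dvd n)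
          have h4 : ((∏ p ∈ n.primeFactors, p : ℕ) : ℝ) ≤ n := by exact_mod_cast h3
          rw [Nat.cast_prod] at h4
          exact h4

/-- products over primes -/
lemma prod_primes : ∃ C : ℝ, 1 ≤ C ∧ ∀ X : ℕ, 2 ≤ X →
    ∏ p ∈ (Icc 1 X).filter Nat.Prime, (1 + 1 / (p : ℝ)) ≤ C * Real.log X := by
  obtain ⟨M, hM⟩ := Pool.Agent.H305R2.mertens_inv_tendsto
  obtain ⟨K, hK⟩ := hM.bddAbove_range
  have hK' : ∀ X : ℕ, ∑ p ∈ (Icc 1 X).filter Nat.Prime, (1 : ℝ) / p - Real.log (Real.log X) ≤ K :=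
    fun X => hK ⟨X, rfl⟩
  refine ⟨Real.exp |K|, Real.one_le_exp (abs_nonneg _), fun X hX => ?_⟩
  have hlog : 0 < Real.log X := Real.log_pos (by exact_mod_cast (by omega : 1 < X))
  calc ∏ p ∈ (Icc 1 X).filter Nat.Prime, (1 + 1 / (p : ℝ)) ≤
      ∏ p ∈ (Icc 1 X).filter Nat.Prime, Real.exp (1 / (p : ℝ)) := by
        refine Finset.prod_le_prod (fun p _ => by positivity) fun p _ => ?_
        have := Real.add_one_le_exp (1 / (p : ℝ))
        linarith
    _ = Real.exp (∑ p ∈ (Icc 1 X).filter Nat.Prime, 1 / (p : ℝ)) := (Real.exp_sum _ _).symm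
    _ ≤ Real.exp (|K| + Real.log (Real.log X)) := by
        apply Real.exp_le_exp.2
        have h1 := hK' X
        have h2 := le_abs_self K
        linarith
    _ = _ := by rw [Real.exp_add, Real.exp_log hlog]

open Classical in
/-- the quadratic form for a subset of an interval -/
lemma QQ_int {r : ℕ} [NeZero r] (hr : 2 ≤ r) {D : ℝ} (hD : 1 ≤ D) {η : ℝ} (hη : 0 < η) : ∃ C : ℝ, 1 ≤ C ∧
    ∀ M X : ℕ, M < X → ∀ I ⊆ Ioc M X, QQ D (fun n : {n // n ∈ I} => ev r X n.1) (fun _ => 1) ≤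
      C * (X : ℝ) ^ η * (((X - M : ℕ) : ℝ) * (5 + 2 * Real.log ((X - M : ℕ) : ℝ))) := by
  obtain ⟨C, hC, h⟩ := omega_pow hD hη
  refine ⟨C, hC, fun M X hM I hI => ?_⟩
  have hX0 : (0 : ℝ) ≤ C * (X : ℝ) ^ η := by positivity
  have h1 : QQ D (fun n : {n // n ∈ I} => ev r X n.1) (fun _ => 1) ≤
      ∑ n : {n // n ∈ I}, ∑ n' : {n // n ∈ I}, if ev r X n.1 = ev r X n'.1 then C * (X : ℝ) ^ η else 0 := by
    unfold QQ
    refine Finset.sum_le_sum fun n _ => Finset.sum_le_sum fun n' _ => ?_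
    split_ifs with he
    · rw [mul_one, mul_one]
      have hn := mem_Ioc.1 (hI n.2)
      have hn1 : 1 ≤ n.1 := by omega
      calc D ^ nz (ev r X n.1) ≤ D ^ (n.1).primeFactors.card := pow_le_pow_right₀ hD (nz_ev hn1)
        _ ≤ C * ((n.1 : ℕ) : ℝ) ^ η := h n.1 hn1
        _ ≤ C * (X : ℝ) ^ η := by
            refine mul_le_mul_of_nonneg_left ?_ (by linarith)
            exact Real.rpow_le_rpow (Nat.cast_nonneg _) (by exact_mod_cast hn.2) hη.le
    · exact le_rfl
  refine h1.trans ?_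
  have h2 : ∑ n : {n // n ∈ I}, ∑ n' : {n // n ∈ I}, (if ev r X n.1 = ev r X n'.1 then C * (X : ℝ) ^ η else 0) =
      ∑ n ∈ I, ∑ n' ∈ I, if ev r X n = ev r X n' then C * (X : ℝ) ^ η else 0 := by
    rw [← Finset.sum_coe_sort I (fun n => ∑ n' ∈ I, if ev r X n = ev r X n' then C * (X : ℝ) ^ η else 0)]
    refine Finset.sum_congr rfl fun n _ => ?_
    rw [← Finset.sum_coe_sort I (fun n' => if ev r X n.1 = ev r X n' then C * (X : ℝ) ^ η else 0)]
  rw [h2, ← Finset.sum_product', ← Finset.sum_filter, Finset.sum_const, nsmul_eq_mul, mul_comm]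
  refine mul_le_mul_of_nonneg_left ?_ hX0
  refine le_trans ?_ (pairs_card hr hM)
  have h3 : ((I ×ˢ I).filter fun q : ℕ × ℕ => ev r X q.1 = ev r X q.2) ⊆
      (((Ioc M X) ×ˢ (Ioc M X)).filter fun q => ev r X q.1 = ev r X q.2) := by
    intro q hq
    rw [mem_filter, mem_product] at hq ⊢
    exact ⟨⟨hI hq.1.1, hI hq.1.2⟩, hq.2⟩
  exact_mod_cast Finset.card_le_card h3

/-- the means at the primes -/
noncomputable def em (X : ℕ) (i : Fin (X + 1)) : ℝ := if (i : ℕ).Prime then 1 / ((i : ℕ) : ℝ) else 0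

lemma em_mem (X : ℕ) (i : Fin (X + 1)) : 0 ≤ em X i ∧ em X i ≤ 1 := by
  unfold em
  split_ifs with h
  · have h1 : (1 : ℝ) ≤ ((i : ℕ) : ℝ) := by exact_mod_cast h.one_lt.le
    exact ⟨by positivity, by rw [div_le_one (by linarith)]; exact h1⟩
  · exact ⟨le_rfl, zero_le_one⟩

lemma em_prod : ∃ C : ℝ, 1 ≤ C ∧ ∀ X : ℕ, 2 ≤ X → ∏ i, (1 + em X i) ≤ C * Real.log X := by
  classical
  obtain ⟨C, hC, h⟩ := prod_primes
  refine ⟨C, hC, fun X hX => ?_⟩
  refine le_trans (le_of_eq ?_) (h X hX)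
  rw [Finset.prod_filter]
  have h1 : ∏ i : Fin (X + 1), (1 + em X i) = ∏ i ∈ range (X + 1), (if i.Prime then 1 + 1 / (i : ℝ) else 1) := by
    rw [← Fin.prod_univ_eq_prod_range (fun i => if i.Prime then 1 + 1 / (i : ℝ) else 1)]
    refine Finset.prod_congr rfl fun i _ => ?_
    unfold em
    split_ifs <;> simp
  rw [h1]
  symm
  refine Finset.prod_subset ?_ ?_
  · intro i hi
    rw [mem_Icc] at hi
    rw [mem_range]
    omega
  · intro i hi hi2
    rw [mem_range] at hi
    rw [mem_Icc] at hi2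
    have : i = 0 := by omega
    subst this
    rw [if_neg Nat.not_prime_zero]

open Classical in
/-- **The moments of the model.** -/
theorem model {r : ℕ} [NeZero r] (hr : 2 ≤ r) (j : ℕ) {η : ℝ} (hη : 0 < η) : ∃ C : ℝ, 1 ≤ C ∧
    ∀ M X : ℕ, M < X → 2 ≤ X → ∀ I ⊆ Ioc M X,
      EE (em X) (fun x => ‖PP (fun n : {n // n ∈ I} => ev r X n.1) (fun _ => 1) x‖ ^ (2 * (2 * 2 ^ j))) ≤
      (C * (X : ℝ) ^ η * ((X - M : ℕ) : ℝ)) ^ (2 * 2 ^ j) := by
  have hr1 : (1 : ℝ) ≤ r := by exact_mod_cast (by omega : 1 ≤ r)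
  obtain ⟨C₁, hC₁, h₁⟩ := QQ_int (r := r) hr (one_le_pow₀ (by linarith) : (1 : ℝ) ≤ (16 * (r : ℝ)) ^ (j + 1))
    (η := η / 4) (by positivity)
  obtain ⟨C₂, hC₂, h₂⟩ := em_prod
  obtain ⟨C₃, hC₃⟩ : ∃ C₃ : ℝ, C₃ = 5 + 2 * (4 / η) := ⟨_, rfl⟩
  have hC₃1 : 1 ≤ C₃ := by
    rw [hC₃]
    have : 0 < 4 / η := by positivity
    linarith
  refine ⟨C₁ * C₂ * (4 / η + 1) * C₃, ?_, fun M X hM hX I hI => ?_⟩
  · have : 1 ≤ 4 / η + 1 := by
      have : 0 < 4 / η := by positivity
      linarith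
    exact one_le_mul_of_one_le_of_one_le (one_le_mul_of_one_le_of_one_le
      (one_le_mul_of_one_le_of_one_le hC₁ hC₂) this) hC₃1
  refine (hc_all (em X) (em_mem X) j _ _ _ fun _ => zero_le_one).trans ?_
  have hX1 : (1 : ℝ) ≤ X := by exact_mod_cast (by omega : 1 ≤ X)
  have hX0 : (0 : ℝ) < X := by linarith
  obtain ⟨N, hN⟩ : ∃ N, N = X - M := ⟨_, rfl⟩
  have hN1 : (1 : ℝ) ≤ N := by exact_mod_cast (by omega : 1 ≤ N)
  have hNX : (N : ℝ) ≤ X := by exact_mod_cast (by omega : N ≤ X)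
  have hQ := h₁ M X hM I hI
  have hR := h₂ X hX
  rw [← hN] at hQ ⊢
  have hR0 : 0 ≤ ∏ i, (1 + em X i) := Finset.prod_nonneg fun i _ => by
    have := (em_mem X i).1
    linarith
  have hQ0 : 0 ≤ QQ ((16 * (r : ℝ)) ^ (j + 1)) (fun n : {n // n ∈ I} => ev r X n.1) (fun _ => 1) :=
    QQ_nonneg (by positivity) _ fun _ => zero_le_one
  refine pow_le_pow_left₀ (mul_nonneg hR0 hQ0) ?_ _
  have hlog0 : 0 ≤ Real.log X := Real.log_nonneg hX1
  have hlX : Real.log X ≤ (4 / η) * (X : ℝ) ^ (η / 4) := by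
    have := Real.log_le_rpow_div hX0.le (by positivity : (0 : ℝ) < η / 4)
    refine this.trans (le_of_eq ?_)
    field_simp
  have hlN : 5 + 2 * Real.log N ≤ C₃ * (X : ℝ) ^ (η / 4) := by
    have h3 : Real.log N ≤ Real.log X := Real.log_le_log (by linarith) hNX
    have h4 : (1 : ℝ) ≤ (X : ℝ) ^ (η / 4) := Real.one_le_rpow hX1 (by positivity)
    rw [hC₃]
    nlinarith
  have hlN0 : 0 ≤ 5 + 2 * Real.log N := by
    have := Real.log_nonneg hN1
    linarith
  obtain ⟨P, hP⟩ : ∃ P, P = (X : ℝ) ^ (η / 4) := ⟨_, rfl⟩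
  have hP1 : 1 ≤ P := by rw [hP]; exact Real.one_le_rpow hX1 (by positivity)
  have hP4 : P * P * P * P = (X : ℝ) ^ η := by
    rw [hP, ← Real.rpow_add hX0, ← Real.rpow_add hX0, ← Real.rpow_add hX0]
    congr 1
    ring
  rw [← hP] at hlX hlN hQ
  calc (∏ i, (1 + em X i)) * QQ ((16 * (r : ℝ)) ^ (j + 1)) (fun n : {n // n ∈ I} => ev r X n.1) (fun _ => 1) ≤
      (C₂ * ((4 / η) * P)) * (C₁ * P * (N * (C₃ * P))) := by
        refine mul_le_mul (hR.trans (mul_le_mul_of_nonneg_left hlX (by linarith))) (hQ.trans ?_) hQ0 (by positivity)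
        refine mul_le_mul_of_nonneg_left (mul_le_mul_of_nonneg_left hlN (by linarith)) (by positivity)
    _ = (C₁ * C₂ * (4 / η) * C₃) * (P * P * P * 1) * N := by ring
    _ ≤ (C₁ * C₂ * (4 / η + 1) * C₃) * (P * P * P * P) * N := by
        gcongr
        linarith
    _ = _ := by rw [hP4]

end Pool.Agent.J4H77.CB
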