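import Pool.Agent.J4H77.CB.Mo

set_option autoImplicit false
set_option linter.all false

/-! The moments of sums over the integers of an interval, for well distributed families (continued). -/

namespace Pool.Agent.J4H77.CB

open Finset
open Pool.Agent.TH894.NE (box mem_box card_box)
open Pool.Agent.X22.MT
open Pool.Agent.N647.TS (WellN avg_nearC)

section
variable {r d L : ℕ} [NeZero r] {F : ℕ → (Fin d → ℕ) → ℂ}

lemma one_le_pr {J : Type} (s : Finset J) (f : J → ℕ) (hf : ∀ j, 1 ≤ f j) : 1 ≤ ∏ j ∈ s, f j := by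
  apply Nat.one_le_iff_ne_zero.2
  rw [Finset.prod_ne_zero_iff]
  intro j _
  have := hf j
  omega

lemma FR.prods (h : FR r d L F) {k : ℕ} (n : Fin k → ℕ) (hn : ∀ j, 1 ≤ n j ∧ (n j).Coprime L) (m : Fin d → ℕ) :
    F (∏ j, n j) m = ∏ j, F (n j) m := by
  classical
  have key : ∀ s : Finset (Fin k), F (∏ j ∈ s, n j) m = ∏ j ∈ s, F (n j) m := by
    intro s
    induction s using Finset.induction_on with
    | empty => rw [Finset.prod_empty, Finset.prod_empty, h.one]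
    | insert a s ha ih =>
      rw [Finset.prod_insert ha, Finset.prod_insert ha, h.mul _ _ (hn a).1 ?_ (hn a).2 ?_, ih]
      · exact one_le_pr _ _ fun j => (hn j).1
      · exact Nat.Coprime.prod_left fun j _ => (hn j).2
  exact key univ

lemma FR.norm_all (h : FR r d L F) {n : ℕ} (hn : 1 ≤ n) (hc : n.Coprime L) (m : Fin d → ℕ) : ‖F n m‖ ≤ 1 := by
  rw [h.fac hn hc (Finset.Subset.refl _) (fun p hp => Nat.prime_of_mem_primeFactors hp), norm_prod]
  refine Finset.prod_le_one (fun _ _ => norm_nonneg _) fun p hp => ?_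
  rw [norm_pow]
  exact pow_le_one₀ (norm_nonneg _) (h.norm_le NeZero.one_le (Nat.prime_of_mem_primeFactors hp)
    (Nat.Coprime.coprime_dvd_left (Nat.dvd_of_mem_primeFactors hp) hc) m)

lemma prod_fac {k : ℕ} (n : Fin k → ℕ) (hn : ∀ j, 1 ≤ n j) (p : ℕ) :
    (∏ j, n j).factorization p = ∑ j, (n j).factorization p := by
  rw [Nat.factorization_prod (fun j _ => by have := hn j; omega)]
  simp

open Classical in
/-- the weights of the model -/
lemma W_eq {k X : ℕ} (n n' : Fin k → ℕ) (hn : ∀ j, 1 ≤ n j ∧ n j ≤ X) (hn' : ∀ j, 1 ≤ n' j ∧ n' j ≤ X) :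
    W (em X) (∑ j, ev r X (n j) - ∑ j, ev r X (n' j)) =
      ∏ p ∈ ((∏ j, n j) * ∏ j, n' j).primeFactors, if (((∏ j, n j).factorization p : ℕ) : ZMod r) =
        (((∏ j, n' j).factorization p : ℕ) : ZMod r) then 1 else 1 / (p : ℝ) := by
  obtain ⟨a, ha⟩ : ∃ a, a = ∏ j, n j := ⟨_, rfl⟩
  obtain ⟨b, hb⟩ : ∃ b, b = ∏ j, n' j := ⟨_, rfl⟩
  have ha1 : 1 ≤ a := by rw [ha]; exact one_le_pr _ _ fun j => (hn j).1
  have hb1 : 1 ≤ b := by rw [hb]; exact one_le_pr _ _ fun j => (hn' j).1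
  rw [← ha, ← hb]
  obtain ⟨f, hf⟩ : ∃ f : ℕ → ℝ, f = fun p => if ((a.factorization p : ℕ) : ZMod r) = ((b.factorization p : ℕ) : ZMod r) then 1
      else if p.Prime then 1 / (p : ℝ) else 0 := ⟨_, rfl⟩
  have h1 : W (em X) (∑ j, ev r X (n j) - ∑ j, ev r X (n' j)) = ∏ p ∈ range (X + 1), f p := by
    unfold W
    rw [← Fin.prod_univ_eq_prod_range f]
    refine Finset.prod_congr rfl fun i _ => ?_
    have h2 : (∑ j, ev r X (n j) - ∑ j, ev r X (n' j)) i = 0 ↔
        ((a.factorization (i : ℕ) : ℕ) : ZMod r) = ((b.factorization (i : ℕ) : ℕ) : ZMod r) := by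
      rw [Pi.sub_apply, Finset.sum_apply, Finset.sum_apply, sub_eq_zero, ha, hb, prod_fac n (fun j => (hn j).1),
        prod_fac n' (fun j => (hn' j).1)]
      unfold ev
      push_cast
      exact Iff.rfl
    rw [hf]
    unfold em
    by_cases h3 : ((a.factorization (i : ℕ) : ℕ) : ZMod r) = ((b.factorization (i : ℕ) : ℕ) : ZMod r)
    · rw [if_pos (h2.2 h3)]
      simp only [h3, if_true]
    · rw [if_neg (fun h => h3 (h2.1 h))]
      simp only [h3, if_false]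
  rw [h1]
  have h4 : (a * b).primeFactors ⊆ range (X + 1) := by
    intro p hp
    have hpp := Nat.prime_of_mem_primeFactors hp
    have hpd := Nat.dvd_of_mem_primeFactors hp
    rw [mem_range]
    rcases hpp.dvd_mul.1 hpd with h5 | h5
    · rw [ha] at h5
      obtain ⟨j, _, hj⟩ := (Prime.dvd_finset_prod_iff hpp.prime _).1 h5
      have := Nat.le_of_dvd (hn j).1 hj
      have := (hn j).2
      omega
    · rw [hb] at h5
      obtain ⟨j, _, hj⟩ := (Prime.dvd_finset_prod_iff hpp.prime _).1 h5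
      have := Nat.le_of_dvd (hn' j).1 hj
      have := (hn' j).2
      omega
  rw [← Finset.prod_subset h4]
  · refine Finset.prod_congr rfl fun p hp => ?_
    have hpp := Nat.prime_of_mem_primeFactors hp
    rw [hf]
    simp only [hpp, if_true]
  · intro p _ hp
    rw [Nat.primeFactors_mul (by omega) (by omega), mem_union, not_or, ← Nat.support_factorization, ← Nat.support_factorization,
      Finsupp.notMem_support_iff, Finsupp.notMem_support_iff] at hp
    rw [hf]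
    simp only [hp.1, hp.2, if_true]

/-- **The moments of the sums of a family.** -/
theorem fam_moment (hr : 2 ≤ r) (j : ℕ) {η : ℝ} (hη : 0 < η) : ∃ C : ℝ, 1 ≤ C ∧
    ∀ (d L : ℕ) (F : ℕ → (Fin d → ℕ) → ℂ), FR r d L F → ∀ (S : Finset ℕ) (u : ℕ → Fin d → ℕ) (H : ℕ), WellN S u H →
    ∀ M X : ℕ, M < X → 2 ≤ X → X ^ (2 * (2 * 2 ^ j)) ≤ 2 * H + 1 → ∀ I ⊆ Ioc M X, (∀ n ∈ I, n.Coprime L) →
    ∀ w : ℕ → ℂ, (∀ n, ‖w n‖ ≤ 1) →
    ∑ t ∈ S, ‖∑ n ∈ I, w n * F n (u t)‖ ^ (2 * (2 * 2 ^ j)) ≤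
      S.card * ((C * (X : ℝ) ^ η * ((X - M : ℕ) : ℝ)) ^ (2 * 2 ^ j) + 1) := by
  classical
  obtain ⟨C, hC, hmod⟩ := model (r := r) hr j hη
  refine ⟨C, hC, fun d L F hF S u H hW M X hMX hX hXH I hI hIL w hw => ?_⟩
  obtain ⟨K, hK⟩ : ∃ K, K = 2 * 2 ^ j := ⟨_, rfl⟩
  rw [← hK] at hXH ⊢
  have hS0 : (0 : ℝ) < S.card := by exact_mod_cast hW.pos
  have hmem : ∀ n : {n // n ∈ I}, 1 ≤ n.1 ∧ n.1 ≤ X ∧ n.1.Coprime L := by
    intro n
    have := mem_Ioc.1 (hI n.2)
    exact ⟨by omega, this.2, hIL _ n.2⟩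
  -- expansion
  obtain ⟨G, hG⟩ : ∃ G : (Fin K → {n // n ∈ I}) → (Fin K → {n // n ∈ I}) → (Fin d → ℕ) → ℂ, G = fun a b m =>
      F (∏ i, (a i).1) m * (starRingEnd ℂ) (F (∏ i, (b i).1) m) := ⟨_, rfl⟩
  obtain ⟨V, hV⟩ : ∃ V : (Fin K → {n // n ∈ I}) → (Fin K → {n // n ∈ I}) → ℂ, V = fun a b =>
      (∏ i, w (a i).1) * (starRingEnd ℂ) (∏ i, w (b i).1) := ⟨_, rfl⟩
  have hV1 : ∀ a b, ‖V a b‖ ≤ 1 := by
    intro a b
    rw [hV]
    show ‖(∏ i, w (a i).1) * (starRingEnd ℂ) (∏ i, w (b i).1)‖ ≤ 1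
    rw [norm_mul, RCLike.norm_conj, norm_prod, norm_prod]
    exact mul_le_one₀ (Finset.prod_le_one (fun _ _ => norm_nonneg _) fun i _ => hw _)
      (Finset.prod_nonneg fun _ _ => norm_nonneg _) (Finset.prod_le_one (fun _ _ => norm_nonneg _) fun i _ => hw _)
  have hpow : ∀ m, (∑ n ∈ I, w n * F n m) ^ K = ∑ a : Fin K → {n // n ∈ I}, (∏ i, w (a i).1) * F (∏ i, (a i).1) m := by
    intro m
    rw [← Finset.sum_coe_sort I (fun n => w n * F n m)]
    have h2 := (Finset.prod_univ_sum (fun _ : Fin K => (univ : Finset {n // n ∈ I})) (fun _ n => w n.1 * F n.1 m))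
    rw [Fintype.piFinset_univ, Finset.prod_const, card_univ, Fintype.card_fin] at h2
    rw [h2]
    refine Finset.sum_congr rfl fun a _ => ?_
    rw [Finset.prod_mul_distrib, hF.prods (fun i => (a i).1) (fun i => ⟨(hmem (a i)).1, (hmem (a i)).2.2⟩)]
  have hexp : ∀ m, ((‖∑ n ∈ I, w n * F n m‖ ^ (2 * K) : ℝ) : ℂ) = ∑ a, ∑ b, V a b * G a b m := by
    intro m
    obtain ⟨z, hz⟩ : ∃ z, z = ∑ n ∈ I, w n * F n m := ⟨_, rfl⟩
    have h3 : ((‖z‖ ^ (2 * K) : ℝ) : ℂ) = z ^ K * (starRingEnd ℂ) (z ^ K) := by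
      rw [Complex.mul_conj, Complex.normSq_eq_norm_sq, norm_pow]
      push_cast
      ring
    rw [← hz, h3, hz, hpow, map_sum, Finset.sum_mul_sum]
    refine Finset.sum_congr rfl fun a _ => Finset.sum_congr rfl fun b _ => ?_
    rw [hV, hG, map_mul]
    ring
  -- one pair of tuples
  have hone : ∀ a b : Fin K → {n // n ∈ I}, ‖∑ t ∈ S, V a b * G a b (u t)‖ ≤
      S.card * (W (em X) (∑ i, ev r X (a i).1 - ∑ i, ev r X (b i).1) + 1 / (2 * H + 1)) := by
    intro a b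
    obtain ⟨A, hA⟩ : ∃ A, A = ∏ i, (a i).1 := ⟨_, rfl⟩
    obtain ⟨B, hB⟩ : ∃ B, B = ∏ i, (b i).1 := ⟨_, rfl⟩
    have hA1 : 1 ≤ A := by rw [hA]; exact one_le_pr _ _ fun i => (hmem (a i)).1
    have hB1 : 1 ≤ B := by rw [hB]; exact one_le_pr _ _ fun i => (hmem (b i)).1
    have hAc : A.Coprime L := by rw [hA]; exact Nat.Coprime.prod_left fun i _ => (hmem (a i)).2.2
    have hBc : B.Coprime L := by rw [hB]; exact Nat.Coprime.prod_left fun i _ => (hmem (b i)).2.2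
    have hAX : A ≤ X ^ K := by
      rw [hA]
      calc ∏ i, (a i).1 ≤ ∏ _i : Fin K, X := Finset.prod_le_prod' fun i _ => (hmem (a i)).2.1
        _ = X ^ K := by rw [prod_const, card_univ, Fintype.card_fin]
    have hBX : B ≤ X ^ K := by
      rw [hB]
      calc ∏ i, (b i).1 ≤ ∏ _i : Fin K, X := Finset.prod_le_prod' fun i _ => (hmem (b i)).2.1
        _ = X ^ K := by rw [prod_const, card_univ, Fintype.card_fin]
    have hq : A * B ≤ 2 * H + 1 := by
      refine le_trans (Nat.mul_le_mul hAX hBX) ?_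
      rw [← pow_add, ← two_mul]
      exact hXH
    have hper : PerC (A * B) (G a b) := by
      have h3 := (hF.per A hA1 hAc).of_dvd (dvd_mul_right A B)
      have h4 := (hF.per B hB1 hBc).of_dvd (dvd_mul_left B A)
      intro m
      rw [hG]
      show F (∏ i, (a i).1) m * (starRingEnd ℂ) (F (∏ i, (b i).1) m) = F (∏ i, (a i).1) _ * (starRingEnd ℂ) (F (∏ i, (b i).1) _)
      rw [← hA, ← hB, h3 m, h4 m]
    have hGn : ∀ m, ‖G a b m‖ ≤ 1 := by
      intro m
      rw [hG]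
      show ‖F (∏ i, (a i).1) m * (starRingEnd ℂ) (F (∏ i, (b i).1) m)‖ ≤ 1
      rw [← hA, ← hB, norm_mul, RCLike.norm_conj]
      exact mul_le_one₀ (hF.norm_all hA1 hAc m) (norm_nonneg _) (hF.norm_all hB1 hBc m)
    have h5 := avg_nearC hW (A * B) (Nat.mul_pos hA1 hB1) hq (G a b) hper 1 zero_le_one hGn
    have h6 := complete hF hr hA1 hB1 hAc hBc
    have h7 : (fun m => F A m * (starRingEnd ℂ) (F B m)) = G a b := by
      rw [hG, hA, hB]
    rw [show (∑ m ∈ box d (A * B), F A m * (starRingEnd ℂ) (F B m)) = ∑ m ∈ box d (A * B), G a b m from by rw [← h7]] at h6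
    rw [hA, hB] at h6
    rw [← W_eq (fun i => (a i).1) (fun i => (b i).1) (fun i => ⟨(hmem (a i)).1, (hmem (a i)).2.1⟩)
      (fun i => ⟨(hmem (b i)).1, (hmem (b i)).2.1⟩), ← hA, ← hB] at h6
    rw [← Finset.mul_sum, norm_mul]
    refine le_trans (mul_le_of_le_one_left (norm_nonneg _) (hV1 a b)) ?_
    have h8 : ‖(∑ t ∈ S, G a b (u t)) / S.card‖ ≤ W (em X) (∑ i, ev r X (a i).1 - ∑ i, ev r X (b i).1) + 1 / (2 * H + 1) := by
      have h9 := norm_le_norm_add_norm_sub' ((∑ t ∈ S, G a b (u t)) / (S.card : ℂ))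
        (1 / ((A * B : ℕ) : ℂ) ^ d * ∑ r ∈ box d (A * B), G a b r)
      refine h9.trans (add_le_add h6 h5)
    rw [norm_div, Complex.norm_natCast, div_le_iff₀ hS0] at h8
    linarith
  have h1 : ((∑ t ∈ S, ‖∑ n ∈ I, w n * F n (u t)‖ ^ (2 * K) : ℝ) : ℂ) = ∑ a, ∑ b, ∑ t ∈ S, V a b * G a b (u t) := by
    rw [Complex.ofReal_sum, Finset.sum_congr rfl fun t _ => hexp (u t), Finset.sum_comm]
    refine Finset.sum_congr rfl fun a _ => ?_
    rw [Finset.sum_comm]
  have h2 : ‖∑ a, ∑ b, ∑ t ∈ S, V a b * G a b (u t)‖ ≤ ∑ a : Fin K → {n // n ∈ I}, ∑ b : Fin K → {n // n ∈ I},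
      (S.card : ℝ) * (W (em X) (∑ i, ev r X (a i).1 - ∑ i, ev r X (b i).1) + 1 / (2 * H + 1)) :=
    (norm_sum_le _ _).trans (Finset.sum_le_sum fun a _ => (norm_sum_le _ _).trans (Finset.sum_le_sum fun b _ => hone a b))
  rw [← h1, Complex.norm_real, Real.norm_eq_abs] at h2
  refine (le_abs_self _).trans (h2.trans ?_)
  simp_rw [← Finset.mul_sum, Finset.sum_add_distrib]
  refine mul_le_mul_of_nonneg_left ?_ hS0.le
  have h3 := hmod M X hMX hX I hI
  rw [← hK, moment_eq] at h3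
  simp only [Finset.prod_const_one, one_mul] at h3
  refine add_le_add h3 ?_
  rw [Finset.sum_const, Finset.sum_const, card_univ, Fintype.card_fun, Fintype.card_fin, Fintype.card_coe, nsmul_eq_mul, nsmul_eq_mul]
  have h4 : I.card ≤ X := by
    refine (card_le_card hI).trans ?_
    rw [Nat.card_Ioc]
    omega
  have h5 : ((I.card ^ K : ℕ) : ℝ) * ((I.card ^ K : ℕ) : ℝ) ≤ 2 * H + 1 := by
    have h6 : I.card ^ K * I.card ^ K ≤ 2 * H + 1 := by
      refine le_trans (Nat.mul_le_mul (Nat.pow_le_pow_left h4 K) (Nat.pow_le_pow_left h4 K)) ?_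
      rw [← pow_add, ← two_mul]
      exact hXH
    exact_mod_cast h6
  rw [← mul_assoc, mul_one_div, div_le_one (by positivity)]
  exact h5

end

end Pool.Agent.J4H77.CB
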