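import Mathlib

set_option autoImplicit false
set_option linter.all false

/-! The fourth moment of a sum of products of independent characters of `ℤ/r` with small means. -/

namespace Pool.Agent.J4H77.CB

open Finset

section
variable {r : ℕ} [NeZero r]

/-- the character -/
noncomputable def ch (y : ZMod r) : ℂ := ZMod.stdAddChar y

lemma ch_add (a b : ZMod r) : ch (a + b) = ch a * ch b := AddChar.map_add_eq_mul _ _ _

lemma ch_zero : ch (0 : ZMod r) = 1 := AddChar.map_zero_eq_one _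

lemma ch_norm (a : ZMod r) : ‖ch a‖ = 1 := by
  unfold ch
  exact AddChar.norm_apply _ _

lemma ch_neg (a : ZMod r) : ch (-a) = (starRingEnd ℂ) (ch a) := by
  unfold ch
  exact (AddChar.map_neg_eq_conj _ _)

lemma ch_sum (a : ZMod r) : ∑ y : ZMod r, ch (a * y) = if a = 0 then (r : ℂ) else 0 := by
  have h := AddChar.sum_mulShift (ψ := (ZMod.stdAddChar (N := r))) a (ZMod.isPrimitive_stdAddChar r)
  rw [ZMod.card] at h
  unfold ch
  rw [Finset.sum_congr rfl fun y _ => by rw [mul_comm a y]]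
  rw [h]
  split_ifs <;> simp

/-- the weights -/
noncomputable def wt (e : ℝ) (y : ZMod r) : ℝ := (1 - e) / r + if y = 0 then e else 0

lemma wt_nonneg {e : ℝ} (h0 : 0 ≤ e) (h1 : e ≤ 1) (y : ZMod r) : 0 ≤ wt e y := by
  unfold wt
  have : 0 ≤ (1 - e) / r := div_nonneg (by linarith) (Nat.cast_nonneg _)
  split_ifs <;> linarith

lemma r_ne : (r : ℝ) ≠ 0 := by exact_mod_cast NeZero.ne r

lemma wt_sum (e : ℝ) : ∑ y : ZMod r, wt e y = 1 := by
  unfold wt
  rw [Finset.sum_add_distrib, Finset.sum_const, card_univ, ZMod.card, nsmul_eq_mul, Finset.sum_ite_eq' univ (0 : ZMod r)]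
  rw [if_pos (mem_univ _), mul_div_cancel₀ _ (r_ne (r := r))]
  ring

lemma wt_ch (e : ℝ) (a : ZMod r) : ∑ y : ZMod r, (wt e y : ℂ) * ch (a * y) = if a = 0 then 1 else (e : ℂ) := by
  have hr : (r : ℂ) ≠ 0 := by exact_mod_cast NeZero.ne r
  have h1 : ∀ y : ZMod r, (wt e y : ℂ) * ch (a * y) = (((1 - e) / r : ℝ) : ℂ) * ch (a * y) +
      (if y = 0 then (e : ℂ) else 0) := by
    intro y
    unfold wt
    by_cases hy : y = 0
    · subst hy
      rw [if_pos rfl, if_pos rfl, mul_zero, ch_zero]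
      push_cast
      ring
    · rw [if_neg hy, if_neg hy]
      push_cast
      ring
  rw [Finset.sum_congr rfl fun y _ => h1 y, Finset.sum_add_distrib, ← Finset.mul_sum, ch_sum,
    Finset.sum_ite_eq' univ (0 : ZMod r), if_pos (mem_univ _)]
  split_ifs with h
  · push_cast
    field_simp
    ring
  · ring

lemma pw4 (A Y : ℂ) : ‖A + Y‖ ^ 4 ≤ ‖A‖ ^ 4 + 4 * ‖A‖ ^ 2 * ((starRingEnd ℂ) A * Y).re + 8 * ‖A‖ ^ 2 * ‖Y‖ ^ 2 +
    3 * ‖Y‖ ^ 4 := by
  obtain ⟨t, ht⟩ : ∃ t, t = ((starRingEnd ℂ) A * Y).re := ⟨_, rfl⟩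
  have h1 : ‖A + Y‖ ^ 2 = ‖A‖ ^ 2 + 2 * t + ‖Y‖ ^ 2 := by
    rw [← Complex.normSq_eq_norm_sq, ← Complex.normSq_eq_norm_sq, ← Complex.normSq_eq_norm_sq, ht,
      Complex.normSq_apply, Complex.normSq_apply, Complex.normSq_apply]
    simp
    ring
  have h2 : |t| ≤ ‖A‖ * ‖Y‖ := by
    rw [ht]
    refine (Complex.abs_re_le_norm _).trans ?_
    rw [norm_mul, RCLike.norm_conj]
  rw [← ht]
  have e : ‖A + Y‖ ^ 4 = (‖A + Y‖ ^ 2) ^ 2 := by ring
  rw [e, h1]
  obtain ⟨h3, h4⟩ := abs_le.1 h2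
  have ha := norm_nonneg A
  have hy := norm_nonneg Y
  have h5 : t ^ 2 ≤ (‖A‖ * ‖Y‖) ^ 2 := by
    rw [← sq_abs t]
    exact pow_le_pow_left₀ (abs_nonneg _) h2 2
  have h6 : t * ‖Y‖ ^ 2 ≤ ‖A‖ * ‖Y‖ * ‖Y‖ ^ 2 := mul_le_mul_of_nonneg_right h4 (by positivity)
  have h7 : ‖A‖ * ‖Y‖ * ‖Y‖ ^ 2 ≤ (‖A‖ ^ 2 * ‖Y‖ ^ 2 + ‖Y‖ ^ 4) / 2 := by
    have : 0 ≤ (‖A‖ - ‖Y‖) ^ 2 * ‖Y‖ ^ 2 := by positivity
    nlinarith
  nlinarith

/-- the constants -/
noncomputable def cc (r : ℕ) (j : ZMod r) : ℝ := if j = 0 then 1 else 16 * r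

/-- **One variable.** -/
lemma one_var {e : ℝ} (h0 : 0 ≤ e) (h1 : e ≤ 1) (a : ZMod r → ℂ) :
    ∑ y : ZMod r, wt e y * ‖∑ j, a j * ch (j * y)‖ ^ 4 ≤ ((1 + e) * ∑ j, cc r j * ‖a j‖ ^ 2) ^ 2 := by
  classical
  obtain ⟨A, hA⟩ : ∃ A, A = a 0 := ⟨_, rfl⟩
  obtain ⟨Y, hY⟩ : ∃ Y : ZMod r → ℂ, Y = fun y => ∑ j ∈ univ.erase 0, a j * ch (j * y) := ⟨_, rfl⟩
  obtain ⟨s, hs⟩ : ∃ s, s = ∑ j ∈ univ.erase (0 : ZMod r), ‖a j‖ ^ 2 := ⟨_, rfl⟩
  have hs0 : 0 ≤ s := by
    rw [hs]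
    exact Finset.sum_nonneg fun _ _ => by positivity
  have hr1 : (1 : ℝ) ≤ r := by exact_mod_cast NeZero.one_le
  have hsplit : ∀ y, ∑ j, a j * ch (j * y) = A + Y y := by
    intro y
    rw [hY, hA, ← Finset.add_sum_erase univ _ (mem_univ (0 : ZMod r)), zero_mul, ch_zero, mul_one]
  have hYb : ∀ y, ‖Y y‖ ^ 2 ≤ r * s := by
    intro y
    have h2 : ‖Y y‖ ≤ ∑ j ∈ univ.erase (0 : ZMod r), ‖a j‖ := by
      rw [hY]
      refine (norm_sum_le _ _).trans (le_of_eq ?_)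
      refine Finset.sum_congr rfl fun j _ => ?_
      rw [norm_mul, ch_norm, mul_one]
    have h3 : (∑ j ∈ univ.erase (0 : ZMod r), ‖a j‖) ^ 2 ≤ (#(univ.erase (0 : ZMod r)) : ℝ) * s := by
      rw [hs]
      exact sq_sum_le_card_mul_sum_sq
    have h4 : (#(univ.erase (0 : ZMod r)) : ℝ) ≤ r := by
      have : #(univ.erase (0 : ZMod r)) ≤ r := by
        refine (card_le_univ _).trans ?_
        rw [ZMod.card]
      exact_mod_cast this
    calc ‖Y y‖ ^ 2 ≤ (∑ j ∈ univ.erase (0 : ZMod r), ‖a j‖) ^ 2 := pow_le_pow_left₀ (norm_nonneg _) h2 2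
      _ ≤ (#(univ.erase (0 : ZMod r)) : ℝ) * s := h3
      _ ≤ r * s := mul_le_mul_of_nonneg_right h4 hs0
  obtain ⟨s', hs'⟩ : ∃ s', s' = r * s := ⟨_, rfl⟩
  have hs'0 : 0 ≤ s' := by rw [hs']; positivity
  rw [← hs'] at hYb
  have hE : ∑ y : ZMod r, (wt e y : ℂ) * Y y = (e : ℂ) * Y 0 := by
    rw [hY]
    simp only [Finset.mul_sum]
    rw [Finset.sum_comm]
    refine Finset.sum_congr rfl fun j hj => ?_
    have hj0 : j ≠ 0 := (mem_erase.1 hj).1
    have h2 : ∑ y : ZMod r, (wt e y : ℂ) * (a j * ch (j * y)) = a j * ∑ y : ZMod r, (wt e y : ℂ) * ch (j * y) := by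
      rw [Finset.mul_sum]
      exact Finset.sum_congr rfl fun y _ => by ring
    rw [h2, wt_ch, if_neg hj0, mul_zero, ch_zero]
    ring
  have hE2 : ∑ y : ZMod r, wt e y * ((starRingEnd ℂ) A * Y y).re = e * ((starRingEnd ℂ) A * Y 0).re := by
    have h2 : ∀ y, wt e y * ((starRingEnd ℂ) A * Y y).re = ((starRingEnd ℂ) A * ((wt e y : ℂ) * Y y)).re := by
      intro y
      have : (starRingEnd ℂ) A * ((wt e y : ℂ) * Y y) = (wt e y : ℂ) * ((starRingEnd ℂ) A * Y y) := by ring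
      rw [this, Complex.re_ofReal_mul]
    rw [Finset.sum_congr rfl fun y _ => h2 y, ← Complex.re_sum, ← Finset.mul_sum, hE]
    have : (starRingEnd ℂ) A * ((e : ℂ) * Y 0) = (e : ℂ) * ((starRingEnd ℂ) A * Y 0) := by ring
    rw [this, Complex.re_ofReal_mul]
  have hA0 := norm_nonneg A
  have hmain : ∑ y : ZMod r, wt e y * ‖∑ j, a j * ch (j * y)‖ ^ 4 ≤
      ‖A‖ ^ 4 + 4 * ‖A‖ ^ 2 * (e * ((starRingEnd ℂ) A * Y 0).re) + 8 * ‖A‖ ^ 2 * s' + 3 * s' ^ 2 := by
    calc ∑ y : ZMod r, wt e y * ‖∑ j, a j * ch (j * y)‖ ^ 4 ≤ ∑ y : ZMod r, wt e y * (‖A‖ ^ 4 +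
          4 * ‖A‖ ^ 2 * ((starRingEnd ℂ) A * Y y).re + 8 * ‖A‖ ^ 2 * s' + 3 * s' ^ 2) := by
          refine Finset.sum_le_sum fun y _ => mul_le_mul_of_nonneg_left ?_ (wt_nonneg h0 h1 y)
          rw [hsplit y]
          refine (pw4 A (Y y)).trans ?_
          have h2 := hYb y
          have h3 : ‖Y y‖ ^ 4 ≤ s' ^ 2 := by
            have e : ‖Y y‖ ^ 4 = (‖Y y‖ ^ 2) ^ 2 := by ring
            rw [e]
            exact pow_le_pow_left₀ (by positivity) h2 2
          have h4 : 8 * ‖A‖ ^ 2 * ‖Y y‖ ^ 2 ≤ 8 * ‖A‖ ^ 2 * s' := mul_le_mul_of_nonneg_left h2 (by positivity)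
          linarith
      _ = _ := by
          have e : ∀ y : ZMod r, wt e y * (‖A‖ ^ 4 + 4 * ‖A‖ ^ 2 * ((starRingEnd ℂ) A * Y y).re + 8 * ‖A‖ ^ 2 * s' + 3 * s' ^ 2) =
              wt e y * (‖A‖ ^ 4 + 8 * ‖A‖ ^ 2 * s' + 3 * s' ^ 2) +
                4 * ‖A‖ ^ 2 * (wt e y * ((starRingEnd ℂ) A * Y y).re) := fun y => by ring
          rw [Finset.sum_congr rfl fun y _ => e y, Finset.sum_add_distrib, ← Finset.sum_mul, ← Finset.mul_sum, hE2, wt_sum]
          ring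
  refine hmain.trans ?_
  have hre : ((starRingEnd ℂ) A * Y 0).re ≤ ‖A‖ * √s' := by
    refine (Complex.re_le_norm _).trans ?_
    rw [norm_mul, RCLike.norm_conj]
    exact mul_le_mul_of_nonneg_left (Real.le_sqrt_of_sq_le (hYb 0)) hA0
  have hsq : √s' ^ 2 = s' := Real.sq_sqrt hs'0
  have hsq0 := Real.sqrt_nonneg s'
  have h2 : 4 * ‖A‖ ^ 2 * (e * ((starRingEnd ℂ) A * Y 0).re) ≤ 2 * e * (‖A‖ ^ 4 + ‖A‖ ^ 2 * s') := by
    have h3 : e * ((starRingEnd ℂ) A * Y 0).re ≤ e * (‖A‖ * √s') := mul_le_mul_of_nonneg_left hre h0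
    have h4 : 4 * ‖A‖ ^ 2 * (e * (‖A‖ * √s')) ≤ 2 * e * (‖A‖ ^ 4 + ‖A‖ ^ 2 * s') := by
      have h5 : 0 ≤ 2 * e * ‖A‖ ^ 2 * (‖A‖ - √s') ^ 2 := by positivity
      have h6 : 2 * e * (‖A‖ ^ 4 + ‖A‖ ^ 2 * s') - 4 * ‖A‖ ^ 2 * (e * (‖A‖ * √s')) =
          2 * e * ‖A‖ ^ 2 * (‖A‖ - √s') ^ 2 := by
        linear_combination (-2 * e * ‖A‖ ^ 2) * hsq
      linarith
    exact (mul_le_mul_of_nonneg_left h3 (by positivity)).trans h4
  have hsum : ∑ j, cc r j * ‖a j‖ ^ 2 = ‖A‖ ^ 2 + 16 * s' := by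
    rw [← Finset.add_sum_erase univ _ (mem_univ (0 : ZMod r)), hA, hs', hs]
    have h3 : ∑ j ∈ univ.erase (0 : ZMod r), cc r j * ‖a j‖ ^ 2 = ∑ j ∈ univ.erase (0 : ZMod r), 16 * r * ‖a j‖ ^ 2 := by
      refine Finset.sum_congr rfl fun j hj => ?_
      unfold cc
      rw [if_neg (mem_erase.1 hj).1]
    rw [h3, ← Finset.mul_sum]
    unfold cc
    rw [if_pos rfl]
    ring
  rw [hsum]
  have h3 : 0 ≤ ‖A‖ ^ 2 * s' := by positivity
  have h4 : 0 ≤ ‖A‖ ^ 4 := by positivity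
  have h5 : 0 ≤ s' ^ 2 := by positivity
  have e1 : ((1 + e) * (‖A‖ ^ 2 + 16 * s')) ^ 2 =
      (1 + 2 * e + e ^ 2) * ‖A‖ ^ 4 + (1 + 2 * e + e ^ 2) * (32 * (‖A‖ ^ 2 * s')) + (1 + 2 * e + e ^ 2) * (256 * s' ^ 2) := by ring
  rw [e1]
  have h6 : 0 ≤ e ^ 2 * ‖A‖ ^ 4 := by positivity
  have h7 : 0 ≤ e ^ 2 * (‖A‖ ^ 2 * s') := by positivity
  have h8 : 0 ≤ e * (‖A‖ ^ 2 * s') := by positivity
  have h9 : 0 ≤ e ^ 2 * s' ^ 2 := by positivity
  have h10 : 0 ≤ e * s' ^ 2 := by positivity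
  have h11 : e * (‖A‖ ^ 2 * s') ≤ ‖A‖ ^ 2 * s' := by nlinarith
  nlinarith

variable {ι : Type} [Fintype ι]

/-- the pairing -/
def dot {m : ℕ} (v x : Fin m → ZMod r) : ZMod r := ∑ i, v i * x i

/-- the polynomial -/
noncomputable def PP {m : ℕ} (v : ι → Fin m → ZMod r) (g : ι → ℝ) (x : Fin m → ZMod r) : ℂ :=
  ∑ i, (g i : ℂ) * ch (dot (v i) x)

/-- the expectation -/
noncomputable def EE {m : ℕ} (e : Fin m → ℝ) (f : (Fin m → ZMod r) → ℝ) : ℝ :=
  ∑ x, (∏ i, wt (e i) (x i)) * f x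

open Classical in
/-- the number of the nonzero coordinates -/
noncomputable def nz {m : ℕ} (v : Fin m → ZMod r) : ℕ := #(univ.filter fun p => v p ≠ 0)

open Classical in
/-- the quadratic form -/
noncomputable def QQ {m : ℕ} (D : ℝ) (v : ι → Fin m → ZMod r) (g : ι → ℝ) : ℝ :=
  ∑ i, ∑ j, if v i = v j then D ^ (nz (v i)) * (g i * g j) else 0

lemma sum_cons {m : ℕ} (f : (Fin (m + 1) → ZMod r) → ℝ) :
    ∑ x, f x = ∑ x : Fin m → ZMod r, ∑ y : ZMod r, f (Fin.cons y x) := by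
  rw [← (Fin.consEquiv (fun _ : Fin (m + 1) => ZMod r)).sum_comp, Fintype.sum_prod_type, Finset.sum_comm]
  rfl

lemma nz_succ {m : ℕ} (v : Fin (m + 1) → ZMod r) :
    nz v = (if v 0 = 0 then 0 else 1) + nz (fun i : Fin m => v i.succ) := by
  classical
  unfold nz
  rw [Finset.card_filter, Finset.card_filter, Fin.sum_univ_succ]
  congr 1
  by_cases h : v 0 = 0 <;> simp [h]

/-- the part of the polynomial -/
noncomputable def gj {m : ℕ} (v : ι → Fin (m + 1) → ZMod r) (g : ι → ℝ) (j : ZMod r) (i : ι) : ℝ :=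
  open Classical in if v i 0 = j then g i else 0

lemma PP_cons {m : ℕ} (v : ι → Fin (m + 1) → ZMod r) (g : ι → ℝ) (x : Fin m → ZMod r) (y : ZMod r) :
    PP v g (Fin.cons y x) = ∑ j, PP (fun i k => v i k.succ) (gj v g j) x * ch (j * y) := by
  classical
  unfold PP
  simp only [Finset.sum_mul]
  rw [Finset.sum_comm]
  refine Finset.sum_congr rfl fun i _ => ?_
  have h1 : ∀ j : ZMod r, ((gj v g j i : ℝ) : ℂ) * ch (dot (fun k => v i k.succ) x) * ch (j * y) =
      if v i 0 = j then (g i : ℂ) * ch (dot (fun k => v i k.succ) x) * ch (v i 0 * y) else 0 := by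
    intro j
    unfold gj
    by_cases h : v i 0 = j
    · rw [if_pos h, if_pos h, h]
    · rw [if_neg h, if_neg h]
      push_cast
      ring
  rw [Finset.sum_congr rfl fun j _ => h1 j, Finset.sum_ite_eq univ (v i 0), if_pos (mem_univ _)]
  have h2 : dot (v i) (Fin.cons y x) = v i 0 * y + dot (fun k => v i k.succ) x := by
    unfold dot
    rw [Fin.sum_univ_succ]
    simp
  rw [h2, ch_add]
  ring

lemma QQ_succ {m : ℕ} (D : ℝ) (v : ι → Fin (m + 1) → ZMod r) (g : ι → ℝ) :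
    QQ D v g = ∑ j : ZMod r, (if j = 0 then 1 else D) * QQ D (fun i k => v i k.succ) (gj v g j) := by
  classical
  have key : ∀ i i' : ι, (∑ j : ZMod r, (if j = 0 then 1 else D) *
      (if (fun k : Fin m => v i k.succ) = (fun k => v i' k.succ) then
        D ^ (nz fun k : Fin m => v i k.succ) * (gj v g j i * gj v g j i') else 0)) =
      if v i = v i' then D ^ (nz (v i)) * (g i * g i') else 0 := by
    intro i i'
    have hcons : v i = v i' ↔ v i 0 = v i' 0 ∧ (fun k : Fin m => v i k.succ) = (fun k => v i' k.succ) := by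
      constructor
      · intro h
        rw [h]
        exact ⟨rfl, rfl⟩
      · rintro ⟨h1, h2⟩
        funext k
        refine Fin.cases h1 (fun k => congrFun h2 k) k
    by_cases ht : (fun k : Fin m => v i k.succ) = (fun k => v i' k.succ)
    · simp only [if_pos ht]
      have h1 : ∀ j : ZMod r, (if j = 0 then 1 else D) * (D ^ (nz fun k : Fin m => v i k.succ) *
          (gj v g j i * gj v g j i')) = if v i 0 = j then (if v i' 0 = j then
            (if j = 0 then 1 else D) * (D ^ (nz fun k : Fin m => v i k.succ) * (g i * g i')) else 0) else 0 := by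
        intro j
        unfold gj
        by_cases h2 : v i 0 = j
        · by_cases h3 : v i' 0 = j
          · rw [if_pos h2, if_pos h3, if_pos h2, if_pos h3]
          · rw [if_pos h2, if_neg h3, if_pos h2, if_neg h3]
            ring
        · rw [if_neg h2, if_neg h2]
          ring
      rw [Finset.sum_congr rfl fun j _ => h1 j, Finset.sum_ite_eq univ (v i 0), if_pos (mem_univ _)]
      by_cases h0 : v i 0 = v i' 0
      · rw [if_pos h0.symm, if_pos (hcons.2 ⟨h0, ht⟩), nz_succ]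
        by_cases hz : v i 0 = 0
        · rw [if_pos hz, if_pos hz, zero_add, one_mul]
        · rw [if_neg hz, if_neg hz, pow_add, pow_one]
          ring
      · rw [if_neg fun h => h0 h.symm, if_neg fun h => h0 (hcons.1 h).1]
    · rw [if_neg fun h => ht (hcons.1 h).2]
      refine Finset.sum_eq_zero fun j _ => ?_
      rw [if_neg ht, mul_zero]
  unfold QQ
  calc ∑ i : ι, ∑ i' : ι, (if v i = v i' then D ^ (nz (v i)) * (g i * g i') else 0) =
      ∑ i : ι, ∑ i' : ι, ∑ j : ZMod r, (if j = 0 then 1 else D) *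
      (if (fun k : Fin m => v i k.succ) = (fun k => v i' k.succ) then
        D ^ (nz fun k : Fin m => v i k.succ) * (gj v g j i * gj v g j i') else 0) :=
        Finset.sum_congr rfl fun i _ => Finset.sum_congr rfl fun i' _ => (key i i').symm
    _ = ∑ i : ι, ∑ j : ZMod r, ∑ i' : ι, (if j = 0 then 1 else D) *
      (if (fun k : Fin m => v i k.succ) = (fun k => v i' k.succ) then
        D ^ (nz fun k : Fin m => v i k.succ) * (gj v g j i * gj v g j i') else 0) :=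
        Finset.sum_congr rfl fun i _ => Finset.sum_comm
    _ = ∑ j : ZMod r, ∑ i : ι, ∑ i' : ι, (if j = 0 then 1 else D) *
      (if (fun k : Fin m => v i k.succ) = (fun k => v i' k.succ) then
        D ^ (nz fun k : Fin m => v i k.succ) * (gj v g j i * gj v g j i') else 0) := Finset.sum_comm
    _ = _ := by
        refine Finset.sum_congr rfl fun j _ => ?_
        rw [Finset.mul_sum]
        refine Finset.sum_congr rfl fun i _ => ?_
        rw [Finset.mul_sum]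

lemma gj_nonneg {m : ℕ} {v : ι → Fin (m + 1) → ZMod r} {g : ι → ℝ} (hg : ∀ i, 0 ≤ g i) (j : ZMod r) (i : ι) :
    0 ≤ gj v g j i := by
  unfold gj
  split_ifs
  · exact hg i
  · exact le_rfl

lemma QQ_nonneg {m : ℕ} {D : ℝ} (hD : 0 ≤ D) (v : ι → Fin m → ZMod r) {g : ι → ℝ} (hg : ∀ i, 0 ≤ g i) :
    0 ≤ QQ D v g := by
  unfold QQ
  refine Finset.sum_nonneg fun i _ => Finset.sum_nonneg fun j _ => ?_
  have := hg i
  have := hg j
  split_ifs <;> positivity

/-- Minkowski -/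
lemma mink {X J : Type} [Fintype X] [Fintype J] (w : X → ℝ) (hw : ∀ x, 0 ≤ w x) (U : J → X → ℝ) (c B : J → ℝ)
    (hc : ∀ j, 0 ≤ c j) (hB : ∀ j, 0 ≤ B j) (h : ∀ j, ∑ x, w x * U j x ^ 2 ≤ B j ^ 2) :
    ∑ x, w x * (∑ j, c j * U j x) ^ 2 ≤ (∑ j, c j * B j) ^ 2 := by
  have h1 : ∀ x, w x * (∑ j, c j * U j x) ^ 2 = ∑ j, ∑ j', c j * c j' * (w x * (U j x * U j' x)) := by
    intro x
    rw [sq, Finset.sum_mul_sum, Finset.mul_sum]
    refine Finset.sum_congr rfl fun j _ => ?_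
    rw [Finset.mul_sum]
    refine Finset.sum_congr rfl fun j' _ => ?_
    ring
  have h2 : ∀ j j', ∑ x, w x * (U j x * U j' x) ≤ B j * B j' := by
    intro j j'
    refine le_of_sq_le_sq ?_ (mul_nonneg (hB j) (hB j'))
    have e1 : ∑ x, w x * (U j x * U j' x) = ∑ x, (√(w x) * U j x) * (√(w x) * U j' x) := by
      refine Finset.sum_congr rfl fun x _ => ?_
      have := Real.mul_self_sqrt (hw x)
      calc w x * (U j x * U j' x) = (√(w x) * √(w x)) * (U j x * U j' x) := by rw [this]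
        _ = _ := by ring
    have e2 : ∀ j, ∑ x, (√(w x) * U j x) ^ 2 = ∑ x, w x * U j x ^ 2 := by
      intro j
      refine Finset.sum_congr rfl fun x _ => ?_
      rw [mul_pow, Real.sq_sqrt (hw x)]
    rw [e1]
    refine (Finset.sum_mul_sq_le_sq_mul_sq _ _ _).trans ?_
    rw [e2, e2, mul_pow]
    exact mul_le_mul (h j) (h j') (Finset.sum_nonneg fun x _ => mul_nonneg (hw x) (sq_nonneg _)) (sq_nonneg _)
  rw [Finset.sum_congr rfl fun x _ => h1 x, sq, Finset.sum_mul_sum, Finset.sum_comm]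
  refine Finset.sum_le_sum fun j _ => ?_
  rw [Finset.sum_comm]
  refine Finset.sum_le_sum fun j' _ => ?_
  rw [← Finset.mul_sum]
  have := mul_le_mul_of_nonneg_left (h2 j j') (mul_nonneg (hc j) (hc j'))
  linarith

/-- **The fourth moment.** -/
theorem hc4 (m : ℕ) : ∀ (e : Fin m → ℝ), (∀ p, 0 ≤ e p ∧ e p ≤ 1) → ∀ (v : ι → Fin m → ZMod r) (g : ι → ℝ),
    (∀ i, 0 ≤ g i) → EE e (fun x => ‖PP v g x‖ ^ 4) ≤ ((∏ p, (1 + e p)) * QQ (16 * r) v g) ^ 2 := by
  classical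
  induction m with
  | zero =>
    intro e he v g hg
    have h1 : ∀ x : Fin 0 → ZMod r, PP v g x = ((∑ i, g i : ℝ) : ℂ) := by
      intro x
      unfold PP
      push_cast
      refine Finset.sum_congr rfl fun i _ => ?_
      have : dot (v i) x = 0 := by
        unfold dot
        exact Fin.sum_univ_zero _
      rw [this, ch_zero, mul_one]
    have hs : 0 ≤ ∑ i, g i := Finset.sum_nonneg fun i _ => hg i
    have h2 : EE e (fun x => ‖PP v g x‖ ^ 4) = (∑ i, g i) ^ 4 := by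
      unfold EE
      rw [Fintype.sum_unique]
      beta_reduce
      rw [h1, Complex.norm_real, Real.norm_eq_abs, abs_of_nonneg hs]
      simp
    have h3 : QQ (16 * r) v g = (∑ i, g i) ^ 2 := by
      unfold QQ
      rw [sq, Finset.sum_mul_sum]
      refine Finset.sum_congr rfl fun i _ => Finset.sum_congr rfl fun j _ => ?_
      rw [if_pos (Subsingleton.elim _ _)]
      have : nz (v i) = 0 := by
        unfold nz
        rw [Finset.card_eq_zero, Finset.filter_eq_empty_iff]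
        intro p
        exact p.elim0
      rw [this, pow_zero, one_mul]
    rw [h2, h3, Fin.prod_univ_zero]
    apply le_of_eq
    ring
  | succ m ih =>
    intro e he v g hg
    obtain ⟨e', he'⟩ : ∃ e' : Fin m → ℝ, e' = fun i => e i.succ := ⟨_, rfl⟩
    obtain ⟨V, hV⟩ : ∃ V : ι → Fin m → ZMod r, V = fun i k => v i k.succ := ⟨_, rfl⟩
    obtain ⟨R, hR⟩ : ∃ R, R = ∏ p, (1 + e' p) := ⟨_, rfl⟩
    have hR0 : 0 ≤ R := by
      rw [hR, he']
      exact Finset.prod_nonneg fun p _ => by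
        have := (he p.succ).1
        linarith
    obtain ⟨B, hB⟩ : ∃ B : ZMod r → ℝ, B = fun j => R * QQ (16 * r) V (gj v g j) := ⟨_, rfl⟩
    have hB0 : ∀ j, 0 ≤ B j := by
      intro j
      rw [hB]
      exact mul_nonneg hR0 (QQ_nonneg (by positivity) _ fun i => gj_nonneg hg j i)
    have hwt : ∀ x : Fin m → ZMod r, 0 ≤ ∏ i, wt (e' i) (x i) := fun x => by
      rw [he']
      exact Finset.prod_nonneg fun i _ => wt_nonneg (he i.succ).1 (he i.succ).2 _
    have hcc : ∀ j : ZMod r, 0 ≤ cc r j := by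
      intro j
      unfold cc
      split_ifs <;> positivity
    have h1 : EE e (fun x => ‖PP v g x‖ ^ 4) = ∑ x : Fin m → ZMod r, (∏ i, wt (e' i) (x i)) *
        ∑ y : ZMod r, wt (e 0) y * ‖∑ j, PP V (gj v g j) x * ch (j * y)‖ ^ 4 := by
      unfold EE
      rw [sum_cons]
      refine Finset.sum_congr rfl fun x _ => ?_
      rw [Finset.mul_sum]
      refine Finset.sum_congr rfl fun y _ => ?_
      beta_reduce
      rw [Fin.prod_univ_succ, PP_cons, hV, he']
      simp only [Fin.cons_zero, Fin.cons_succ]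
      ring
    have h2 : EE e (fun x => ‖PP v g x‖ ^ 4) ≤ ∑ x : Fin m → ZMod r, (∏ i, wt (e' i) (x i)) *
        ((1 + e 0) * ∑ j, cc r j * ‖PP V (gj v g j) x‖ ^ 2) ^ 2 := by
      rw [h1]
      refine Finset.sum_le_sum fun x _ => mul_le_mul_of_nonneg_left ?_ (hwt x)
      exact one_var (he 0).1 (he 0).2 fun j => PP V (gj v g j) x
    have h3 := mink (fun x : Fin m → ZMod r => ∏ i, wt (e' i) (x i)) hwt
      (fun j x => ‖PP V (gj v g j) x‖ ^ 2) (cc r) B hcc hB0 (by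
        intro j
        have h4 := ih e' (fun p => by rw [he']; exact he p.succ) V (gj v g j) (fun i => gj_nonneg hg j i)
        rw [← hR] at h4
        rw [hB]
        refine le_trans (le_of_eq ?_) h4
        unfold EE
        refine Finset.sum_congr rfl fun x _ => ?_
        ring)
    have h5 : (∏ p, (1 + e p)) * QQ (16 * r) v g = (1 + e 0) * ∑ j, cc r j * B j := by
      rw [Fin.prod_univ_succ, QQ_succ, hB, ← hV]
      have : ∏ i : Fin m, (1 + e i.succ) = R := by rw [hR, he']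
      rw [this, mul_assoc, Finset.mul_sum]
      congr 1
      refine Finset.sum_congr rfl fun j _ => ?_
      unfold cc
      ring
    rw [h5]
    refine h2.trans ?_
    have h6 : ∑ x : Fin m → ZMod r, (∏ i, wt (e' i) (x i)) *
        ((1 + e 0) * ∑ j, cc r j * ‖PP V (gj v g j) x‖ ^ 2) ^ 2 =
        (1 + e 0) ^ 2 * ∑ x : Fin m → ZMod r, (∏ i, wt (e' i) (x i)) *
          (∑ j, cc r j * ‖PP V (gj v g j) x‖ ^ 2) ^ 2 := by
      rw [Finset.mul_sum]
      refine Finset.sum_congr rfl fun x _ => ?_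
      ring
    rw [h6, mul_pow]
    exact mul_le_mul_of_nonneg_left h3 (by positivity)

end

end Pool.Agent.J4H77.CB
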