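import Pool.Agent.J4H77.CB.HC

set_option autoImplicit false
set_option linter.all false

/-! Higher moments. -/

namespace Pool.Agent.J4H77.CB

open Finset

section
variable {r : ℕ} [NeZero r] {ι : Type} [Fintype ι]

/-- the mean of a character -/
noncomputable def W {m : ℕ} (e : Fin m → ℝ) (v : Fin m → ZMod r) : ℝ :=
  ∏ p, if v p = 0 then 1 else e p

lemma dot_add {m : ℕ} (v w x : Fin m → ZMod r) : dot (v + w) x = dot v x + dot w x := by
  unfold dot
  rw [← Finset.sum_add_distrib]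
  refine Finset.sum_congr rfl fun i _ => ?_
  rw [Pi.add_apply, add_mul]

lemma dot_zero {m : ℕ} (x : Fin m → ZMod r) : dot (0 : Fin m → ZMod r) x = 0 := by
  unfold dot
  simp

lemma dot_sub {m : ℕ} (v w x : Fin m → ZMod r) : dot (v - w) x = dot v x - dot w x := by
  have h := dot_add (v - w) w x
  rw [sub_add_cancel] at h
  rw [h]
  ring

lemma dot_sum {m : ℕ} {J : Type} (s : Finset J) (v : J → Fin m → ZMod r) (x : Fin m → ZMod r) :
    dot (∑ j ∈ s, v j) x = ∑ j ∈ s, dot (v j) x := by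
  classical
  induction s using Finset.induction_on with
  | empty => simp [dot_zero]
  | insert a s ha ih => rw [Finset.sum_insert ha, Finset.sum_insert ha, dot_add, ih]

lemma ch_prod {J : Type} (s : Finset J) (f : J → ZMod r) : ch (∑ j ∈ s, f j) = ∏ j ∈ s, ch (f j) := by
  classical
  induction s using Finset.induction_on with
  | empty => simp [ch_zero]
  | insert a s ha ih => rw [Finset.sum_insert ha, Finset.prod_insert ha, ch_add, ih]

/-- the mean of a character -/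
lemma mean_ch {m : ℕ} (e : Fin m → ℝ) (v : Fin m → ZMod r) :
    ∑ x : Fin m → ZMod r, ((∏ i, wt (e i) (x i) : ℝ) : ℂ) * ch (dot v x) = (W e v : ℂ) := by
  classical
  have h1 : ∀ x : Fin m → ZMod r, ((∏ i, wt (e i) (x i) : ℝ) : ℂ) * ch (dot v x) =
      ∏ i, ((wt (e i) (x i) : ℂ) * ch (v i * x i)) := by
    intro x
    unfold dot
    rw [ch_prod, Finset.prod_mul_distrib]
    push_cast
    rfl
  rw [Finset.sum_congr rfl fun x _ => h1 x]
  have h2 := (Finset.prod_univ_sum (fun _ : Fin m => (univ : Finset (ZMod r)))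
    (fun i y => (wt (e i) y : ℂ) * ch (v i * y))).symm
  rw [Fintype.piFinset_univ] at h2
  rw [h2]
  unfold W
  push_cast
  refine Finset.prod_congr rfl fun i _ => ?_
  rw [wt_ch]
  split_ifs <;> simp

/-- **Parseval.** -/
lemma par {m : ℕ} (e : Fin m → ℝ) (v : ι → Fin m → ZMod r) (g : ι → ℝ) :
    EE e (fun x => ‖PP v g x‖ ^ 2) = ∑ i, ∑ j, g i * g j * W e (v i - v j) := by
  have h1 : ∀ x, ((‖PP v g x‖ ^ 2 : ℝ) : ℂ) = ∑ i, ∑ j, ((g i * g j : ℝ) : ℂ) * ch (dot (v i - v j) x) := by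
    intro x
    have h2 : ((‖PP v g x‖ ^ 2 : ℝ) : ℂ) = PP v g x * (starRingEnd ℂ) (PP v g x) := by
      rw [Complex.mul_conj, Complex.normSq_eq_norm_sq]
    rw [h2]
    unfold PP
    rw [map_sum, Finset.sum_mul_sum]
    refine Finset.sum_congr rfl fun i _ => Finset.sum_congr rfl fun j _ => ?_
    rw [map_mul, Complex.conj_ofReal, ← ch_neg, dot_sub, sub_eq_add_neg, ch_add]
    push_cast
    ring
  have h3 : ((EE e (fun x => ‖PP v g x‖ ^ 2) : ℝ) : ℂ) = ((∑ i, ∑ j, g i * g j * W e (v i - v j) : ℝ) : ℂ) := by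
    unfold EE
    push_cast
    have h4 : ∀ x : Fin m → ZMod r, (∏ i, (wt (e i) (x i) : ℂ)) * ((‖PP v g x‖ : ℂ) ^ 2) =
        ∑ i, ∑ j, ((g i * g j : ℝ) : ℂ) * (((∏ i, wt (e i) (x i) : ℝ) : ℂ) * ch (dot (v i - v j) x)) := by
      intro x
      have h5 := h1 x
      push_cast at h5
      rw [h5, Finset.mul_sum]
      refine Finset.sum_congr rfl fun i _ => ?_
      rw [Finset.mul_sum]
      refine Finset.sum_congr rfl fun j _ => ?_
      push_cast
      ring
    rw [Finset.sum_congr rfl fun x _ => h4 x, Finset.sum_comm]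
    refine Finset.sum_congr rfl fun i _ => ?_
    rw [Finset.sum_comm]
    refine Finset.sum_congr rfl fun j _ => ?_
    rw [← Finset.mul_sum, mean_ch]
    push_cast
    ring
  exact_mod_cast h3

lemma PP_pow {m : ℕ} (k : ℕ) (v : ι → Fin m → ZMod r) (g : ι → ℝ) (x : Fin m → ZMod r) :
    PP v g x ^ k = PP (fun t : Fin k → ι => ∑ j, v (t j)) (fun t => ∏ j, g (t j)) x := by
  classical
  unfold PP
  have h2 := (Finset.prod_univ_sum (fun _ : Fin k => (univ : Finset ι))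
    (fun _ i => (g i : ℂ) * ch (dot (v i) x)))
  rw [Fintype.piFinset_univ, Finset.prod_const, card_univ, Fintype.card_fin] at h2
  rw [h2]
  refine Finset.sum_congr rfl fun t _ => ?_
  rw [Finset.prod_mul_distrib, dot_sum, ch_prod]
  push_cast
  rfl

/-- the moments as sums over tuples -/
lemma moment_eq {m : ℕ} (k : ℕ) (e : Fin m → ℝ) (v : ι → Fin m → ZMod r) (g : ι → ℝ) :
    EE e (fun x => ‖PP v g x‖ ^ (2 * k)) = ∑ t : Fin k → ι, ∑ t' : Fin k → ι,
      (∏ j, g (t j)) * (∏ j, g (t' j)) * W e (∑ j, v (t j) - ∑ j, v (t' j)) := by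
  rw [← par e (fun t : Fin k → ι => ∑ j, v (t j)) (fun t => ∏ j, g (t j))]
  congr 1
  funext x
  rw [← PP_pow, norm_pow, ← pow_mul, mul_comm k 2]

lemma nz_add {m : ℕ} (v w : Fin m → ZMod r) : nz (v + w) ≤ nz v + nz w := by
  classical
  unfold nz
  refine (Finset.card_le_card ?_).trans (Finset.card_union_le _ _)
  intro p hp
  rw [mem_filter] at hp
  rw [mem_union, mem_filter, mem_filter]
  by_contra h
  push Not at h
  apply hp.2
  rw [Pi.add_apply]
  rw [h.1 (mem_univ _), h.2 (mem_univ _), add_zero]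

lemma W_zero {m : ℕ} (v : Fin m → ZMod r) : W (fun _ => (0 : ℝ)) v = if v = 0 then 1 else 0 := by
  unfold W
  split_ifs with h
  · subst h
    simp
  · have : ∃ p, v p ≠ 0 := by
      by_contra h1
      push Not at h1
      exact h (funext h1)
    obtain ⟨p, hp⟩ := this
    exact Finset.prod_eq_zero (mem_univ p) (if_neg hp)

/-- **Doubling.** -/
lemma dbl {m : ℕ} {D : ℝ} (hD : 1 ≤ D) (v : ι → Fin m → ZMod r) (g : ι → ℝ) (hg : ∀ i, 0 ≤ g i) :
    QQ D (fun t : Fin 2 → ι => ∑ j, v (t j)) (fun t => ∏ j, g (t j)) ≤ (QQ (16 * r * D) v g) ^ 2 := by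
  classical
  have hD0 : 0 ≤ D := by linarith
  obtain ⟨s, hs⟩ : ∃ s, s = √D := ⟨_, rfl⟩
  have hs1 : 1 ≤ s := by rw [hs]; exact Real.one_le_sqrt.2 hD
  have hs2 : s * s = D := by rw [hs]; exact Real.mul_self_sqrt hD0
  have hs0 : 0 ≤ s := by linarith
  obtain ⟨g', hg'⟩ : ∃ g' : ι → ℝ, g' = fun i => s ^ nz (v i) * g i := ⟨_, rfl⟩
  have hg'0 : ∀ i, 0 ≤ g' i := by
    intro i
    rw [hg']
    exact mul_nonneg (by positivity) (hg i)
  have h4 := hc4 m (fun _ : Fin m => (0 : ℝ)) (fun _ => ⟨le_rfl, zero_le_one⟩) v g' hg'0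
  have h5 := moment_eq 2 (fun _ : Fin m => (0 : ℝ)) v g'
  have h6 : QQ D (fun t : Fin 2 → ι => ∑ j, v (t j)) (fun t => ∏ j, g (t j)) ≤
      EE (fun _ : Fin m => (0 : ℝ)) (fun x => ‖PP v g' x‖ ^ 4) := by
    have e4 : (4 : ℕ) = 2 * 2 := rfl
    rw [e4, h5]
    unfold QQ
    refine Finset.sum_le_sum fun t _ => Finset.sum_le_sum fun t' _ => ?_
    rw [W_zero]
    by_cases h : ∑ j, v (t j) = ∑ j, v (t' j)
    · rw [if_pos h, if_pos (sub_eq_zero.2 h), mul_one]
      have h7 : D ^ nz (∑ j, v (t j)) = s ^ nz (∑ j, v (t j)) * s ^ nz (∑ j, v (t' j)) := by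
        rw [← h, ← mul_pow, hs2]
      have h8 : ∀ t : Fin 2 → ι, s ^ nz (∑ j, v (t j)) * ∏ j, g (t j) ≤ ∏ j, g' (t j) := by
        intro t
        rw [hg']
        simp only [Fin.prod_univ_two, Fin.sum_univ_two]
        have h9 : s ^ nz (v (t 0) + v (t 1)) ≤ s ^ nz (v (t 0)) * s ^ nz (v (t 1)) := by
          rw [← pow_add]
          exact pow_le_pow_right₀ hs1 (nz_add _ _)
        have h10 : 0 ≤ g (t 0) * g (t 1) := mul_nonneg (hg _) (hg _)
        calc s ^ nz (v (t 0) + v (t 1)) * (g (t 0) * g (t 1)) ≤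
            s ^ nz (v (t 0)) * s ^ nz (v (t 1)) * (g (t 0) * g (t 1)) := mul_le_mul_of_nonneg_right h9 h10
          _ = _ := by ring
      rw [h7]
      have h9 : ∀ t : Fin 2 → ι, 0 ≤ ∏ j, g (t j) := fun t => Finset.prod_nonneg fun j _ => hg _
      have h10 : ∀ t : Fin 2 → ι, 0 ≤ ∏ j, g' (t j) := fun t => Finset.prod_nonneg fun j _ => hg'0 _
      calc s ^ nz (∑ j, v (t j)) * s ^ nz (∑ j, v (t' j)) * ((∏ j, g (t j)) * ∏ j, g (t' j)) =
          (s ^ nz (∑ j, v (t j)) * ∏ j, g (t j)) * (s ^ nz (∑ j, v (t' j)) * ∏ j, g (t' j)) := by ring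
        _ ≤ (∏ j, g' (t j)) * ∏ j, g' (t' j) :=
            mul_le_mul (h8 t) (h8 t') (mul_nonneg (by positivity) (h9 t')) (h10 t)
    · rw [if_neg h, if_neg fun h' => h (sub_eq_zero.1 h'), mul_zero]
  refine h6.trans (h4.trans ?_)
  have h7 : QQ (16 * r) v g' = QQ (16 * r * D) v g := by
    unfold QQ
    refine Finset.sum_congr rfl fun i _ => Finset.sum_congr rfl fun j _ => ?_
    by_cases h : v i = v j
    · rw [if_pos h, if_pos h, hg']
      simp only
      rw [← h, mul_pow, ← hs2, mul_pow]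
      ring
    · rw [if_neg h, if_neg h]
  rw [h7]
  simp

/-- **The moments.** -/
theorem hc_all {m : ℕ} (e : Fin m → ℝ) (he : ∀ p, 0 ≤ e p ∧ e p ≤ 1) (j : ℕ) :
    ∀ (ι : Type) [Fintype ι] (v : ι → Fin m → ZMod r) (g : ι → ℝ), (∀ i, 0 ≤ g i) →
    EE e (fun x => ‖PP v g x‖ ^ (2 * (2 * 2 ^ j))) ≤
      ((∏ p, (1 + e p)) * QQ ((16 * r) ^ (j + 1)) v g) ^ (2 * 2 ^ j) := by
  have hR1 : 1 ≤ ∏ p, (1 + e p) := by
    have : ∏ p : Fin m, (1 : ℝ) ≤ ∏ p, (1 + e p) :=
      Finset.prod_le_prod (fun _ _ => zero_le_one) fun p _ => by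
        have := (he p).1
        linarith
    simpa using this
  have hr1 : (1 : ℝ) ≤ r := by exact_mod_cast NeZero.one_le
  have hc1 : (1 : ℝ) ≤ 16 * r := by linarith
  induction j with
  | zero =>
    intro ι _ v g hg
    have := hc4 m e he v g hg
    simpa using this
  | succ j ih =>
    intro ι _ v g hg
    have h1 := ih (Fin 2 → ι) (fun t => ∑ j, v (t j)) (fun t => ∏ j, g (t j))
      (fun t => Finset.prod_nonneg fun j _ => hg _)
    have h2 : EE e (fun x => ‖PP v g x‖ ^ (2 * (2 * 2 ^ (j + 1)))) =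
        EE e (fun x => ‖PP (fun t : Fin 2 → ι => ∑ j, v (t j)) (fun t => ∏ j, g (t j)) x‖ ^ (2 * (2 * 2 ^ j))) := by
      congr 1
      funext x
      rw [← PP_pow, norm_pow, ← pow_mul]
      congr 1
      ring
    rw [h2]
    refine h1.trans ?_
    have h3 := dbl (one_le_pow₀ hc1 : (1 : ℝ) ≤ (16 * (r : ℝ)) ^ (j + 1)) v g hg
    obtain ⟨R, hR⟩ : ∃ R, R = ∏ p, (1 + e p) := ⟨_, rfl⟩
    rw [← hR] at hR1 ⊢
    have hQ0 : 0 ≤ QQ ((16 * (r : ℝ)) ^ (j + 1)) (fun t : Fin 2 → ι => ∑ j, v (t j)) (fun t => ∏ j, g (t j)) :=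
      QQ_nonneg (by positivity) _ fun t => Finset.prod_nonneg fun j _ => hg _
    have h4 : R * QQ ((16 * (r : ℝ)) ^ (j + 1)) (fun t : Fin 2 → ι => ∑ j, v (t j)) (fun t => ∏ j, g (t j)) ≤
        (R * QQ ((16 * (r : ℝ)) ^ (j + 1 + 1)) v g) ^ 2 := by
      have h5 : 16 * (r : ℝ) * (16 * (r : ℝ)) ^ (j + 1) = (16 * (r : ℝ)) ^ (j + 1 + 1) := by ring
      rw [h5] at h3
      have h6 : R ≤ R ^ 2 := by nlinarith
      have h7 := mul_pow R (QQ ((16 * (r : ℝ)) ^ (j + 1 + 1)) v g) 2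
      rw [h7]
      exact mul_le_mul h6 h3 hQ0 (by positivity)
    calc (R * QQ ((16 * (r : ℝ)) ^ (j + 1)) (fun t : Fin 2 → ι => ∑ j, v (t j)) (fun t => ∏ j, g (t j))) ^ (2 * 2 ^ j) ≤
        ((R * QQ ((16 * (r : ℝ)) ^ (j + 1 + 1)) v g) ^ 2) ^ (2 * 2 ^ j) :=
          pow_le_pow_left₀ (mul_nonneg (by linarith) hQ0) h4 _
      _ = _ := by
        rw [← pow_mul]
        congr 1
        ring

end

end Pool.Agent.J4H77.CB
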