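import Pool.Agent.J4H77.CB.Fm

set_option autoImplicit false
set_option linter.all false

/-! Sums of completely multiplicative functions over all the intervals up to a power of their length. -/

namespace Pool.Agent.J4H77.CB

open Finset
open Pool.Agent.X22.MT
open Pool.Agent.N647.TS (WellN)
open Pool.Agent.X22.ND (absorb)

section
variable {r : ℕ} [NeZero r]

open Classical in
/-- the exceptions for one interval -/
lemma one_int (hr : 2 ≤ r) (δ : ℝ) (hδ : 0 < δ) (A B : ℕ) : ∃ M₀ x₀ : ℕ, 1 ≤ x₀ ∧ ∀ (d L : ℕ) (F : ℕ → (Fin d → ℕ) → ℂ), FR r d L F →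
    ∀ (S : Finset ℕ) (u : ℕ → Fin d → ℕ) (H : ℕ), WellN S u H → ∀ x : ℕ, x₀ ≤ x → x ^ M₀ ≤ 2 * H + 1 →
    ∀ M X : ℕ, X ≤ x ^ B → X ≤ M + 2 * x → ∀ I ⊆ Ioc M X, (∀ n ∈ I, n.Coprime L) → ∀ w : ℕ → ℂ, (∀ n, ‖w n‖ ≤ 1) →
    ((S.filter fun t => (x : ℝ) ^ (1 / 2 + δ) < ‖∑ n ∈ I, w n * F n (u t)‖).card : ℝ) ≤ (x : ℝ) ^ (-(A : ℝ)) * S.card := by
  obtain ⟨j, hj⟩ : ∃ j, j = ⌈((A : ℝ) + 1) / δ⌉₊ := ⟨_, rfl⟩
  obtain ⟨K, hK⟩ : ∃ K, K = 2 * 2 ^ j := ⟨_, rfl⟩
  have hKA : (A : ℝ) + 1 ≤ δ * K := by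
    have h1 : ((A : ℝ) + 1) / δ ≤ j := by rw [hj]; exact Nat.le_ceil _
    have h2 : (j : ℝ) ≤ K := by
      have h3 : j ≤ K := by
        rw [hK]
        have : j < 2 ^ j := Nat.lt_two_pow_self
        omega
      exact_mod_cast h3
    have h3 := h1.trans h2
    rw [div_le_iff₀ hδ] at h3
    linarith
  obtain ⟨η, hη⟩ : ∃ η : ℝ, η = δ / (B + 1) := ⟨_, rfl⟩
  have hη0 : 0 < η := by rw [hη]; positivity
  have hηB : (B : ℝ) * η ≤ δ := by
    rw [hη, mul_div_assoc', div_le_iff₀ (by positivity)]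
    nlinarith
  obtain ⟨C, hC, hm⟩ := fam_moment (r := r) hr j hη0
  obtain ⟨x₁, hx₁⟩ := exists_nat_ge (2 * (2 * C) ^ K)
  refine ⟨B * (2 * K), x₁ + 1, by omega, fun d L F hF S u H hW x hx hxH M X hXB hXM I hI hIL w hw => ?_⟩
  have hx1 : (1 : ℝ) ≤ x := by exact_mod_cast (by omega : 1 ≤ x)
  have hx0 : (0 : ℝ) < x := by linarith
  have hS0 : (0 : ℝ) < S.card := by exact_mod_cast hW.pos
  by_cases hgood : M < X ∧ 2 ≤ X
  · obtain ⟨hMX, hX2⟩ := hgood
    have hXK : X ^ (2 * (2 * 2 ^ j)) ≤ 2 * H + 1 := by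
      rw [← hK]
      calc X ^ (2 * K) ≤ (x ^ B) ^ (2 * K) := Nat.pow_le_pow_left hXB _
        _ = x ^ (B * (2 * K)) := by rw [← pow_mul]
        _ ≤ _ := hxH
    have h1 := hm d L F hF S u H hW M X hMX hX2 hXK I hI hIL w hw
    rw [← hK] at h1
    obtain ⟨Ex, hEx⟩ : ∃ Ex, Ex = S.filter fun t => (x : ℝ) ^ (1 / 2 + δ) < ‖∑ n ∈ I, w n * F n (u t)‖ := ⟨_, rfl⟩
    rw [← hEx]
    have h3 : (Ex.card : ℝ) * ((x : ℝ) ^ (1 / 2 + δ)) ^ (2 * K) ≤ ∑ t ∈ S, ‖∑ n ∈ I, w n * F n (u t)‖ ^ (2 * K) := by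
      calc (Ex.card : ℝ) * ((x : ℝ) ^ (1 / 2 + δ)) ^ (2 * K) = ∑ _t ∈ Ex, ((x : ℝ) ^ (1 / 2 + δ)) ^ (2 * K) := by rw [sum_const, nsmul_eq_mul]
        _ ≤ ∑ t ∈ Ex, ‖∑ n ∈ I, w n * F n (u t)‖ ^ (2 * K) := by
            refine sum_le_sum fun t ht => ?_
            rw [hEx, mem_filter] at ht
            exact pow_le_pow_left₀ (by positivity) ht.2.le _
        _ ≤ _ := sum_le_sum_of_subset_of_nonneg (by rw [hEx]; exact filter_subset _ _) fun t _ _ => by positivity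
    have h4 : (C * (X : ℝ) ^ η * ((X - M : ℕ) : ℝ)) ^ K + 1 ≤ (x : ℝ) ^ (-(A : ℝ)) * ((x : ℝ) ^ (1 / 2 + δ)) ^ (2 * K) := by
      have e1 : (X : ℝ) ^ η ≤ (x : ℝ) ^ δ := by
        calc (X : ℝ) ^ η ≤ ((x : ℝ) ^ B) ^ η := Real.rpow_le_rpow (Nat.cast_nonneg _) (by exact_mod_cast hXB) hη0.le
          _ = (x : ℝ) ^ ((B : ℝ) * η) := by rw [← Real.rpow_natCast, ← Real.rpow_mul hx0.le]
          _ ≤ (x : ℝ) ^ δ := Real.rpow_le_rpow_of_exponent_le hx1 hηB
      have e2 : ((X - M : ℕ) : ℝ) ≤ 2 * x := by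
        have : X - M ≤ 2 * x := by omega
        exact_mod_cast this
      have e3 : C * (X : ℝ) ^ η * ((X - M : ℕ) : ℝ) ≤ (2 * C) * (x : ℝ) ^ (1 + δ) := by
        calc C * (X : ℝ) ^ η * ((X - M : ℕ) : ℝ) ≤ C * (x : ℝ) ^ δ * (2 * x) := by gcongr
          _ = (2 * C) * (x : ℝ) ^ (1 + δ) := by
              rw [Real.rpow_add hx0, Real.rpow_one]
              ring
      have e4 : (C * (X : ℝ) ^ η * ((X - M : ℕ) : ℝ)) ^ K ≤ (2 * C) ^ K * (x : ℝ) ^ ((1 + δ) * K) := by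
        refine (pow_le_pow_left₀ (by positivity) e3 K).trans (le_of_eq ?_)
        rw [mul_pow, ← Real.rpow_natCast ((x : ℝ) ^ (1 + δ)), ← Real.rpow_mul hx0.le]
      have e5 : (1 : ℝ) ≤ (2 * C) ^ K * (x : ℝ) ^ ((1 + δ) * K) := by
        have e6 : (1 : ℝ) ≤ (2 * C) ^ K := one_le_pow₀ (by linarith)
        have e7 : (1 : ℝ) ≤ (x : ℝ) ^ ((1 + δ) * K) := Real.one_le_rpow hx1 (by positivity)
        exact one_le_mul_of_one_le_of_one_le e6 e7
      have e8 : 2 * (2 * C) ^ K ≤ (x : ℝ) ^ (1 : ℝ) := by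
        rw [Real.rpow_one]
        refine hx₁.trans ?_
        exact_mod_cast (by omega : x₁ ≤ x)
      calc (C * (X : ℝ) ^ η * ((X - M : ℕ) : ℝ)) ^ K + 1 ≤ (2 * (2 * C) ^ K) * (x : ℝ) ^ ((1 + δ) * K) := by linarith
        _ ≤ (x : ℝ) ^ (1 : ℝ) * (x : ℝ) ^ ((1 + δ) * K) := mul_le_mul_of_nonneg_right e8 (by positivity)
        _ = (x : ℝ) ^ (1 + (1 + δ) * K) := by rw [← Real.rpow_add hx0]
        _ ≤ (x : ℝ) ^ (-(A : ℝ) + (1 / 2 + δ) * (2 * K : ℕ)) := by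
            apply Real.rpow_le_rpow_of_exponent_le hx1
            push_cast
            nlinarith
        _ = (x : ℝ) ^ (-(A : ℝ)) * ((x : ℝ) ^ (1 / 2 + δ)) ^ (2 * K) := by
            rw [← Real.rpow_natCast ((x : ℝ) ^ (1 / 2 + δ)), ← Real.rpow_mul hx0.le, Real.rpow_add hx0]
    have h6 : (Ex.card : ℝ) * ((x : ℝ) ^ (1 / 2 + δ)) ^ (2 * K) ≤ ((x : ℝ) ^ (-(A : ℝ)) * S.card) * ((x : ℝ) ^ (1 / 2 + δ)) ^ (2 * K) := by
      refine (h3.trans h1).trans ?_
      calc (S.card : ℝ) * ((C * (X : ℝ) ^ η * ((X - M : ℕ) : ℝ)) ^ K + 1) ≤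
            S.card * ((x : ℝ) ^ (-(A : ℝ)) * ((x : ℝ) ^ (1 / 2 + δ)) ^ (2 * K)) := mul_le_mul_of_nonneg_left h4 hS0.le
        _ = _ := by ring
    exact le_of_mul_le_mul_right h6 (by positivity)
  · have hIc : I.card ≤ 1 := by
      refine (card_le_card hI).trans ?_
      rw [Nat.card_Ioc]
      omega
    have hempty : (S.filter fun t => (x : ℝ) ^ (1 / 2 + δ) < ‖∑ n ∈ I, w n * F n (u t)‖) = ∅ := by
      apply filter_false_of_mem
      intro t _
      push Not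
      have h1 : ‖∑ n ∈ I, w n * F n (u t)‖ ≤ 1 := by
        refine (norm_sum_le _ _).trans ?_
        have h2 : ∀ n ∈ I, ‖w n * F n (u t)‖ ≤ 1 := by
          intro n hn
          have h3 := mem_Ioc.1 (hI hn)
          rw [norm_mul]
          exact mul_le_one₀ (hw n) (norm_nonneg _) (hF.norm_all (by omega) (hIL n hn) _)
        refine (sum_le_sum h2).trans ?_
        rw [sum_const, nsmul_eq_mul, mul_one]
        exact_mod_cast hIc
      exact h1.trans (Real.one_le_rpow hx1 (by positivity))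
    rw [hempty, card_empty, Nat.cast_zero]
    positivity

open Classical in
/-- **The sums over all the intervals.** -/
theorem lawI (hr : 2 ≤ r) (d L : ℕ) (hL0 : L ≠ 0) (δ : ℝ) (hδ : 0 < δ) (A B : ℕ) : ∃ M₀ y₀ : ℕ,
    ∀ (S : Finset ℕ) (u : ℕ → Fin d → ℕ) (H y : ℕ), WellN S u H → y₀ ≤ y →
    ∀ (κ : Type) (Λ : ℕ → Finset κ), (∀ x, y ≤ x → (Λ x).card ≤ x ^ B) →
    ∀ (F : ℕ → (Fin d → ℕ) → ℂ), FR r d L F →
    ∀ (v w : ℕ → κ → ℕ → ℂ), (∀ x l n, ‖v x l n‖ ≤ 1) → (∀ x l n, ‖w x l n‖ ≤ 1) →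
    ∀ E : (Fin d → ℕ) → Prop,
    (∀ m, (∀ x : ℕ, y ≤ x → x ^ M₀ ≤ 2 * H + 1 → ∀ l ∈ Λ x, ∀ χ : ℕ → ℂ,
      (∀ n, ‖χ n‖ ≤ 1) → (∀ n n' : ℕ, 1 ≤ n → 1 ≤ n' → χ (n * n') = χ n * χ n') →
      (∀ n, 1 ≤ n → n.Coprime L → χ n = w x l n * F n m) → ∀ M : ℕ, M ≤ x ^ B →
      ‖∑ n ∈ Ioc M (M + x), v x l n * χ n‖ ≤ (x : ℝ) ^ (1 / 2 + δ)) → E m) →
      ((S.filter fun t => ¬ E (u t)).card : ℝ) ≤ 1 / (y : ℝ) ^ A * S.card := by
  obtain ⟨M₀, x₀, hx₀, h⟩ := one_int (r := r) hr (δ / 2) (by positivity) (A + 3 * B + 12) (B + 2)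
  obtain ⟨D, hD0, hD⟩ := sm_card L hL0 (δ / (4 * (B + 2))) (by positivity)
  obtain ⟨x₁, hx₁⟩ := absorb D (δ / 4) hD0.le (by positivity)
  refine ⟨M₀ + 1, x₀ + x₁ + 3, fun S u H y hW hy κ Λ hΛ F hF v w hv hw E hE => ?_⟩
  have hy0 : (0 : ℝ) < y := by exact_mod_cast (by omega : 0 < y)
  obtain ⟨P, hP⟩ : ∃ P : ℝ, P = S.card := ⟨_, rfl⟩
  have hP0 : 0 ≤ P := by rw [hP]; exact Nat.cast_nonneg _
  -- the intervals
  obtain ⟨I, hI⟩ : ∃ I : ℕ → ℕ → ℕ → Finset ℕ, I = fun x M a => (Ioc (M / a) ((M + x) / a)).filter fun n => n.Coprime L := ⟨_, rfl⟩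
  obtain ⟨ex, hex⟩ : ∃ ex : ℕ → κ × ℕ × ℕ → Finset ℕ, ex = fun (x : ℕ) (q : κ × ℕ × ℕ) =>
      S.filter (fun t => x ^ (M₀ + 1) ≤ 2 * H + 1 ∧
        (x : ℝ) ^ (1 / 2 + δ / 2) < ‖∑ n ∈ I x q.2.1 q.2.2, (v x q.1 (q.2.2 * n) * w x q.1 n) * F n (u t)‖) := ⟨_, rfl⟩
  have hexc : ∀ x, y ≤ x → ∀ q : κ × ℕ × ℕ, q.2.1 ≤ x ^ B → 1 ≤ q.2.2 →
      ((ex x q).card : ℝ) ≤ (x : ℝ) ^ (-((A + 3 * B + 12 : ℕ) : ℝ)) * P := by
    intro x hyx q hqM hq1
    have hx0 : (0 : ℝ) < x := by exact_mod_cast (by omega : 0 < x)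
    by_cases hxr : x ^ (M₀ + 1) ≤ 2 * H + 1
    · have h1 := h d L F hF S u H hW x (by omega) ((Nat.pow_le_pow_right (by omega) (by omega)).trans hxr) (q.2.1 / q.2.2)
        ((q.2.1 + x) / q.2.2) ?_ ?_ (I x q.2.1 q.2.2) ?_ ?_ (fun n => v x q.1 (q.2.2 * n) * w x q.1 n) ?_
      · rw [hP]
        refine le_trans ?_ h1
        rw [hex]
        refine Nat.cast_le.2 (card_le_card ?_)
        intro t ht
        rw [mem_filter] at ht ⊢
        exact ⟨ht.1, ht.2.2⟩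
      · refine (Nat.div_le_self _ _).trans ?_
        have h2 : x ≤ x ^ (B + 1) := by
          calc x = x ^ 1 := (pow_one x).symm
            _ ≤ x ^ (B + 1) := Nat.pow_le_pow_right (by omega) (by omega)
        have h3 : x ^ B ≤ x ^ (B + 1) := Nat.pow_le_pow_right (by omega) (by omega)
        have h4 : 2 * x ^ (B + 1) ≤ x ^ (B + 2) := by
          rw [pow_succ x (B + 1), mul_comm]
          exact Nat.mul_le_mul_left _ (by omega)
        omega
      · have h2 : (q.2.1 + x) / q.2.2 ≤ q.2.1 / q.2.2 + x / q.2.2 + 1 := by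
          have h3 : q.2.1 < (q.2.1 / q.2.2 + 1) * q.2.2 := by
            have := Nat.lt_mul_div_succ q.2.1 (by omega : 0 < q.2.2)
            rw [mul_comm]
            exact this
          have h4 : x < (x / q.2.2 + 1) * q.2.2 := by
            have := Nat.lt_mul_div_succ x (by omega : 0 < q.2.2)
            rw [mul_comm]
            exact this
          have h5 : (q.2.1 + x) / q.2.2 < q.2.1 / q.2.2 + x / q.2.2 + 2 := by
            rw [Nat.div_lt_iff_lt_mul (by omega)]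
            calc q.2.1 + x < (q.2.1 / q.2.2 + 1) * q.2.2 + (x / q.2.2 + 1) * q.2.2 := by omega
              _ = _ := by ring
          omega
        have h3 : x / q.2.2 ≤ x := Nat.div_le_self _ _
        omega
      · rw [hI]
        exact filter_subset _ _
      · intro n hn
        rw [hI, mem_filter] at hn
        exact hn.2
      · intro n
        rw [norm_mul]
        exact mul_le_one₀ (hv _ _ _) (norm_nonneg _) (hw _ _ _)
    · have : ex x q = ∅ := by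
        rw [hex]
        apply filter_false_of_mem
        intro T _ hT
        exact hxr hT.1
      rw [this, card_empty, Nat.cast_zero]
      positivity
  obtain ⟨J, hJ⟩ : ∃ J : ℕ → Finset (κ × ℕ × ℕ), J = fun x => (Λ x) ×ˢ ((range (x ^ B + 1)) ×ˢ (Icc 1 (x ^ B + x))) := ⟨_, rfl⟩
  have hJc : ∀ x, y ≤ x → (J x).card ≤ x ^ (3 * B + 8) := by
    intro x hx
    rw [hJ]
    show ((Λ x) ×ˢ ((range (x ^ B + 1)) ×ˢ (Icc 1 (x ^ B + x)))).card ≤ _
    rw [card_product, card_product, card_range, Nat.card_Icc, Nat.add_sub_cancel]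
    have h1 := hΛ x hx
    have h2 : 1 ≤ x ^ B := Nat.one_le_pow _ _ (by omega)
    have h3 : x ^ B + 1 ≤ x ^ (B + 4) := by
      calc x ^ B + 1 ≤ x ^ B * 2 := by omega
        _ ≤ x ^ B * x ^ 4 := Nat.mul_le_mul_left _ (by
            have := Nat.pow_le_pow_left (by omega : 2 ≤ x) 4
            omega)
        _ = x ^ (B + 4) := by rw [pow_add]
    have h4 : x ^ B + x ≤ x ^ (B + 4) := by
      have h5 : x ≤ x ^ (B + 3) := by
        calc x = x ^ 1 := (pow_one x).symm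
          _ ≤ x ^ (B + 3) := Nat.pow_le_pow_right (by omega) (by omega)
      have h6 : x ^ B ≤ x ^ (B + 3) := Nat.pow_le_pow_right (by omega) (by omega)
      calc x ^ B + x ≤ x ^ (B + 3) * 2 := by omega
        _ ≤ x ^ (B + 3) * x := Nat.mul_le_mul_left _ (by omega)
        _ = x ^ (B + 4) := by rw [← pow_succ]
    calc (Λ x).card * ((x ^ B + 1) * (x ^ B + x)) ≤ x ^ B * (x ^ (B + 4) * x ^ (B + 4)) := Nat.mul_le_mul h1 (Nat.mul_le_mul h3 h4)
      _ = x ^ (3 * B + 8) := by rw [← pow_add, ← pow_add]; congr 1; ring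
  -- the largest length
  obtain ⟨X, hX⟩ : ∃ X, X = 2 * H + 1 := ⟨_, rfl⟩
  have hsub : (S.filter fun t => ¬ E (u t)) ⊆ (Icc y X).biUnion (fun x => (J x).biUnion (fun q => ex x q)) := by
    intro t ht
    rw [mem_filter] at ht
    by_contra hcon
    apply ht.2
    apply hE
    intro x hyx hxr l hl χ hχ1 hχm hχF M hM
    have hx0 : (0 : ℝ) < x := by exact_mod_cast (by omega : 0 < x)
    have hx1 : (1 : ℝ) ≤ x := by exact_mod_cast (by omega : 1 ≤ x)
    have hxX : x ∈ Icc y X := by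
      rw [mem_Icc]
      refine ⟨hyx, ?_⟩
      rw [hX]
      exact (Nat.le_self_pow (by omega) x).trans hxr
    obtain ⟨G, hG⟩ : ∃ G : ℕ → ℂ, G = fun n => if M < n then v x l n * χ n else 0 := ⟨_, rfl⟩
    have e1 : ∑ n ∈ Ioc M (M + x), v x l n * χ n = ∑ n ∈ Icc 1 (M + x), G n := by
      rw [hG, ← sum_filter]
      apply sum_congr _ (fun _ _ => rfl)
      ext n
      rw [mem_Ioc, mem_filter, mem_Icc]
      omega
    rw [e1, smooth_sum L (M + x) G]
    have h2 : ∀ a ∈ sm L (M + x), ‖∑ c ∈ nn L (M + x), if a * c ≤ M + x then G (a * c) else 0‖ ≤ (x : ℝ) ^ (1 / 2 + δ / 2) := by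
      intro a ha
      rw [mem_sm] at ha
      have h4 : (∑ c ∈ nn L (M + x), if a * c ≤ M + x then G (a * c) else 0) =
          χ a * ∑ n ∈ I x M a, (v x l (a * n) * w x l n) * F n (u t) := by
        rw [← sum_filter, mul_sum, hI]
        have h5 : ∀ n, M / a < n ↔ M < a * n := by
          intro n
          rw [Nat.div_lt_iff_lt_mul (by omega), mul_comm]
        have h6 : ∀ n, n ≤ (M + x) / a ↔ a * n ≤ M + x := by
          intro n
          rw [Nat.le_div_iff_mul_le (by omega), mul_comm]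
        have h7 : ((Ioc (M / a) ((M + x) / a)).filter fun n => n.Coprime L) ⊆ (nn L (M + x)).filter fun c => a * c ≤ M + x := by
          intro n hn
          rw [mem_filter, mem_Ioc, h5, h6] at hn
          rw [mem_filter, mem_nn]
          have h8 : 1 ≤ n := by
            rcases Nat.eq_zero_or_pos n with h0 | h0
            · rw [h0, mul_zero] at hn
              omega
            · exact h0
          refine ⟨⟨⟨h8, ?_⟩, hn.2⟩, hn.1.2⟩
          calc n ≤ a * n := Nat.le_mul_of_pos_left n (by omega)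
            _ ≤ M + x := hn.1.2
        rw [← sum_subset h7]
        · refine sum_congr rfl fun n hn => ?_
          rw [mem_filter, mem_Ioc, h5, h6] at hn
          have h8 : 1 ≤ n := by
            rcases Nat.eq_zero_or_pos n with h0 | h0
            · rw [h0, mul_zero] at hn
              omega
            · exact h0
          rw [hG]
          show (if M < a * n then v x l (a * n) * χ (a * n) else 0) = _
          rw [if_pos hn.1.1, hχm a n ha.1.1 h8, hχF n h8 hn.2]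
          ring
        · intro n hn hn'
          rw [mem_filter, mem_nn] at hn
          rw [mem_filter, mem_Ioc, h5, h6] at hn'
          rw [hG]
          show (if M < a * n then v x l (a * n) * χ (a * n) else 0) = 0
          rw [if_neg]
          intro h8
          exact hn' ⟨⟨h8, hn.2⟩, hn.1.2⟩
      rw [h4, norm_mul]
      have h5 : ‖∑ n ∈ I x M a, (v x l (a * n) * w x l n) * F n (u t)‖ ≤ (x : ℝ) ^ (1 / 2 + δ / 2) := by
        by_contra hcon2
        push Not at hcon2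
        apply hcon
        rw [mem_biUnion]
        refine ⟨x, hxX, ?_⟩
        rw [mem_biUnion]
        refine ⟨(l, M, a), ?_, ?_⟩
        · rw [hJ]
          show (l, M, a) ∈ (Λ x) ×ˢ ((range (x ^ B + 1)) ×ˢ (Icc 1 (x ^ B + x)))
          rw [mem_product, mem_product, mem_range, mem_Icc]
          exact ⟨hl, by show M < x ^ B + 1; omega, ha.1.1, by show a ≤ x ^ B + x; omega⟩
        · rw [hex, mem_filter]
          exact ⟨ht.1, hxr, hcon2⟩
      calc ‖χ a‖ * ‖∑ n ∈ I x M a, (v x l (a * n) * w x l n) * F n (u t)‖ ≤ 1 * (x : ℝ) ^ (1 / 2 + δ / 2) :=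
            mul_le_mul (hχ1 a) h5 (norm_nonneg _) zero_le_one
        _ = _ := one_mul _
    refine (norm_sum_le _ _).trans ((sum_le_sum h2).trans ?_)
    rw [sum_const, nsmul_eq_mul]
    have h5 := hD (M + x) (by omega)
    have h6 := hx₁ x (by omega)
    have h7 : 0 ≤ Real.log x := Real.log_natCast_nonneg x
    have h8 : D ≤ (x : ℝ) ^ (δ / 4) := by
      have : 0 ≤ D * Real.log x := mul_nonneg hD0.le h7
      linarith
    have h9 : ((M + x : ℕ) : ℝ) ^ (δ / (4 * (B + 2))) ≤ (x : ℝ) ^ (δ / 4) := by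
      have h10 : M + x ≤ x ^ (B + 2) := by
        have h2 : x ≤ x ^ (B + 1) := by
          calc x = x ^ 1 := (pow_one x).symm
            _ ≤ x ^ (B + 1) := Nat.pow_le_pow_right (by omega) (by omega)
        have h3 : x ^ B ≤ x ^ (B + 1) := Nat.pow_le_pow_right (by omega) (by omega)
        have h4 : 2 * x ^ (B + 1) ≤ x ^ (B + 2) := by
          rw [pow_succ x (B + 1), mul_comm]
          exact Nat.mul_le_mul_left _ (by omega)
        omega
      calc ((M + x : ℕ) : ℝ) ^ (δ / (4 * (B + 2))) ≤ ((x : ℝ) ^ (B + 2)) ^ (δ / (4 * (B + 2))) :=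
            Real.rpow_le_rpow (Nat.cast_nonneg _) (by exact_mod_cast h10) (by positivity)
        _ = (x : ℝ) ^ (δ / 4) := by
            rw [← Real.rpow_natCast, ← Real.rpow_mul hx0.le]
            congr 1
            push_cast
            field_simp
    calc ((sm L (M + x)).card : ℝ) * (x : ℝ) ^ (1 / 2 + δ / 2) ≤ (D * (x : ℝ) ^ (δ / 4)) * (x : ℝ) ^ (1 / 2 + δ / 2) :=
          mul_le_mul_of_nonneg_right (h5.trans (mul_le_mul_of_nonneg_left h9 hD0.le)) (by positivity)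
      _ ≤ ((x : ℝ) ^ (δ / 4) * (x : ℝ) ^ (δ / 4)) * (x : ℝ) ^ (1 / 2 + δ / 2) := by gcongr
      _ = (x : ℝ) ^ (1 / 2 + δ) := by
          rw [← Real.rpow_add hx0, ← Real.rpow_add hx0]
          congr 1
          ring
  have hone : ∀ x ∈ Icc y X, ((((J x).biUnion (fun q => ex x q)).card : ℕ) : ℝ) ≤ (x : ℝ) ^ (-((A + 4 : ℕ) : ℝ)) * P := by
    intro x hx
    rw [mem_Icc] at hx
    have hx0 : (0 : ℝ) < x := by exact_mod_cast (by omega : 0 < x)
    have h1 : ((((J x).biUnion (fun q => ex x q)).card : ℕ) : ℝ) ≤ ∑ q ∈ J x, ((ex x q).card : ℝ) := by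
      exact_mod_cast card_biUnion_le
    refine h1.trans ((sum_le_sum (fun q hq => hexc x hx.1 q ?_ ?_)).trans ?_)
    · rw [hJ] at hq
      have := (mem_range.1 (mem_product.1 (mem_product.1 hq).2).1)
      omega
    · rw [hJ] at hq
      exact (mem_Icc.1 (mem_product.1 (mem_product.1 hq).2).2).1
    rw [sum_const, nsmul_eq_mul]
    have h2 : ((J x).card : ℝ) ≤ (x : ℝ) ^ ((3 * B + 8 : ℕ) : ℝ) := by
      rw [Real.rpow_natCast]
      exact_mod_cast hJc x hx.1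
    calc ((J x).card : ℝ) * ((x : ℝ) ^ (-((A + 3 * B + 12 : ℕ) : ℝ)) * P) ≤
          (x : ℝ) ^ ((3 * B + 8 : ℕ) : ℝ) * ((x : ℝ) ^ (-((A + 3 * B + 12 : ℕ) : ℝ)) * P) :=
          mul_le_mul_of_nonneg_right h2 (by positivity)
      _ = (x : ℝ) ^ (-((A + 4 : ℕ) : ℝ)) * P := by
          rw [← mul_assoc, ← Real.rpow_add hx0]
          congr 2
          push_cast
          ring
  have hcard : ((S.filter fun t => ¬ E (u t)).card : ℝ) ≤ ∑ x ∈ Icc y X, (x : ℝ) ^ (-((A + 4 : ℕ) : ℝ)) * P := by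
    have h1 := (card_le_card hsub).trans card_biUnion_le
    have h2 : ((S.filter fun t => ¬ E (u t)).card : ℝ) ≤ ∑ x ∈ Icc y X, ((((J x).biUnion (fun q => ex x q)).card : ℕ) : ℝ) := by
      exact_mod_cast h1
    exact h2.trans (sum_le_sum hone)
  refine hcard.trans ?_
  rw [← sum_mul, ← hP]
  apply mul_le_mul_of_nonneg_right _ hP0
  have hy2 : (2 : ℝ) ≤ y := by exact_mod_cast (by omega : 2 ≤ y)
  have h1 : ∀ x ∈ Icc y X, (x : ℝ) ^ (-((A + 4 : ℕ) : ℝ)) ≤ 1 / (y : ℝ) ^ (A + 2) * (1 / (x : ℝ) ^ 2) := by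
    intro x hx
    rw [mem_Icc] at hx
    have hx0 : (0 : ℝ) < x := by exact_mod_cast (by omega : 0 < x)
    have hyx : (y : ℝ) ≤ x := by exact_mod_cast hx.1
    rw [Real.rpow_neg hx0.le, Real.rpow_natCast, show A + 4 = (A + 2) + 2 by ring, pow_add, mul_inv, ← one_div, ← one_div]
    apply mul_le_mul_of_nonneg_right _ (by positivity)
    apply one_div_le_one_div_of_le (by positivity)
    gcongr
  refine (sum_le_sum h1).trans ?_
  rw [← mul_sum]
  have h2 : ∑ x ∈ Icc y X, 1 / (x : ℝ) ^ 2 ≤ 1 := by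
    rcases Nat.lt_or_ge X y with hXy | hXy
    · rw [Icc_eq_empty (by omega), sum_empty]
      exact zero_le_one
    · have h3 : Icc y X = Ioc (y - 1) X := by
        ext t
        rw [mem_Icc, mem_Ioc]
        omega
      have h4 := sum_Ioc_inv_sq_le_sub (α := ℝ) (k := y - 1) (n := X) (by omega) (by omega)
      rw [h3]
      have h5 : ∑ x ∈ Ioc (y - 1) X, 1 / (x : ℝ) ^ 2 = ∑ i ∈ Ioc (y - 1) X, ((i : ℝ) ^ 2)⁻¹ :=
        sum_congr rfl fun x _ => by rw [one_div]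
      rw [h5]
      refine h4.trans ?_
      have h6 : (((y - 1 : ℕ) : ℝ))⁻¹ ≤ 1 := by
        apply inv_le_one_of_one_le₀
        exact_mod_cast (by omega : 1 ≤ y - 1)
      have h7 : 0 ≤ ((X : ℝ))⁻¹ := by positivity
      linarith
  have h8 : 1 / (y : ℝ) ^ (A + 2) ≤ 1 / (y : ℝ) ^ A := by
    apply one_div_le_one_div_of_le (by positivity)
    apply pow_le_pow_right₀ (by linarith) (by omega)
  calc 1 / (y : ℝ) ^ (A + 2) * ∑ x ∈ Icc y X, 1 / (x : ℝ) ^ 2 ≤ 1 / (y : ℝ) ^ (A + 2) * 1 :=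
        mul_le_mul_of_nonneg_left h2 (by positivity)
    _ ≤ 1 / (y : ℝ) ^ A := by rw [mul_one]; exact h8

end

end Pool.Agent.J4H77.CB
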