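import Pool.Agent.J4H77.CB.Star
import Pool.Agent.J4H77.CB.Law

set_option autoImplicit false
set_option linter.all false

/-! The families of the cubic residue symbols along lines and for all Eisenstein integers. -/

namespace Pool.Agent.J4H77.CB

open Finset
open Pool.Agent.Y692.QS
open Pool.Agent.X22.CC
open Pool.Agent.X22.MT
open Pool.Agent.TH894.NE (box mem_box card_box)
open Pool.Agent.N647.TS (WellN)

lemma cube_pow {z : ℂ} (hz : z = 0 ∨ z ^ 3 = 1) {i : ℕ} (hi : ¬ 3 ∣ i) : z ^ i = z ∨ z ^ i = (starRingEnd ℂ) z := by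
  rcases hz with h | h
  · left
    rw [h, zero_pow (by rintro rfl; exact hi (dvd_zero 3))]
  · have h1 : z ^ i = z ^ (i % 3) := by
      conv_lhs => rw [← Nat.mod_add_div i 3, pow_add, pow_mul, h, one_pow, mul_one]
    have h2 : i % 3 = 1 ∨ i % 3 = 2 := by omega
    rcases h2 with h2 | h2
    · left
      rw [h1, h2, pow_one]
    · right
      rw [h1, h2]
      have hn : ‖z‖ = 1 := Complex.norm_eq_one_of_pow_eq_one h (by norm_num)
      have h3 : z * (starRingEnd ℂ) z = 1 := by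
        rw [Complex.mul_conj, Complex.normSq_eq_norm_sq, hn]
        norm_num
      have h4 : z ≠ 0 := by
        intro h0
        rw [h0, norm_zero] at hn
        exact zero_ne_one hn
      apply mul_left_cancel₀ h4
      rw [h3, ← pow_succ', h]

/-- the sums of the powers -/
lemma cube_sum {J : Type} (s : Finset J) (f : J → ℂ) (hf : ∀ j, f j = 0 ∨ f j ^ 3 = 1) {i : ℕ} (hi : ¬ 3 ∣ i) :
    ‖∑ j ∈ s, f j ^ i‖ = ‖∑ j ∈ s, f j‖ := by
  have h2 : i % 3 = 1 ∨ i % 3 = 2 := by omega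
  have hpos : i ≠ 0 := by rintro rfl; exact hi (dvd_zero 3)
  rcases h2 with h2 | h2
  · congr 1
    refine Finset.sum_congr rfl fun j _ => ?_
    rcases hf j with h | h
    · rw [h, zero_pow hpos]
    · conv_lhs => rw [← Nat.mod_add_div i 3, pow_add, pow_mul, h, one_pow, mul_one, h2, pow_one]
  · have h3 : ∑ j ∈ s, f j ^ i = (starRingEnd ℂ) (∑ j ∈ s, f j) := by
      rw [map_sum]
      refine Finset.sum_congr rfl fun j _ => ?_
      rcases hf j with h | h
      · rw [h, zero_pow hpos, map_zero]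
      · have h1 : f j ^ i = f j ^ 2 := by
          conv_lhs => rw [← Nat.mod_add_div i 3, pow_add, pow_mul, h, one_pow, mul_one, h2]
        rw [h1]
        have hn : ‖f j‖ = 1 := Complex.norm_eq_one_of_pow_eq_one h (by norm_num)
        have h3 : f j * (starRingEnd ℂ) (f j) = 1 := by
          rw [Complex.mul_conj, Complex.normSq_eq_norm_sq, hn]
          norm_num
        have h4 : f j ≠ 0 := by
          intro h0
          rw [h0, norm_zero] at hn
          exact zero_ne_one hn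
        apply mul_left_cancel₀ h4
        rw [h3, ← pow_succ', h]
    rw [h3, RCLike.norm_conj]

lemma box_one' (q : ℕ) (f : ℕ → ℂ) : ∑ m ∈ box 1 q, f (m 0) = ∑ t ∈ range q, f t := by
  apply sum_nbij' (fun n => n 0) (fun a => fun _ => a)
  · intro n hn
    exact mem_range.2 (mem_box.1 hn 0)
  · intro a ha
    exact mem_box.2 (fun _ => mem_range.1 ha)
  · intro n _
    funext i
    rw [Subsingleton.elim i 0]
  · intro a _
    rfl
  · intro n _
    rfl

/-- the family of a line -/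
lemma fr_line (D : ℕ) (hD0 : D ≠ 0) (β γ : Ei) (hD : (β.re * γ.im - β.im * γ.re).natAbs = D) :
    FR 3 1 (3 * D) (fun n m => FF n (β * (m 0 : Ei) + γ)) where
  per n hn hc := by
    intro m
    have h3 : ¬ 3 ∣ n := fun h => Nat.not_coprime_of_dvd_of_dvd (by norm_num : 1 < 3) h (dvd_mul_right 3 D) hc
    refine FF_congr (by omega) h3 ?_
    have e1 : β * (m 0 : Ei) + γ - (β * ((m 0 % n : ℕ) : Ei) + γ) = β * ((m 0 : Ei) - ((m 0 % n : ℕ) : Ei)) := by ring
    show (n : Ei) ∣ β * (m 0 : Ei) + γ - (β * ((m 0 % n : ℕ) : Ei) + γ)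
    rw [e1]
    apply Dvd.dvd.mul_left
    have h4 : (((n : ℤ)) : Ei) ∣ (((m 0 : ℤ) - ((m 0 % n : ℕ) : ℤ) : ℤ) : Ei) := by
      rw [int_dvd_int]
      push_cast
      exact Int.dvd_self_sub_emod
    push_cast at h4
    push_cast
    exact_mod_cast h4
  one m := FF_one _
  mul a b ha hb hac hbc m := by
    have h3a : ¬ 3 ∣ a := fun h => Nat.not_coprime_of_dvd_of_dvd (by norm_num : 1 < 3) h (dvd_mul_right 3 D) hac
    have h3b : ¬ 3 ∣ b := fun h => Nat.not_coprime_of_dvd_of_dvd (by norm_num : 1 < 3) h (dvd_mul_right 3 D) hbc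
    exact FF_mul (by omega) (by omega) h3a h3b _
  val p _ _ m := FF_val _ _
  mean p hp hc i hi := by
    have hp3 : p ≠ 3 := by
      rintro rfl
      exact Nat.not_coprime_of_dvd_of_dvd (by norm_num : 1 < 3) (dvd_refl 3) (dvd_mul_right 3 D) hc
    have hpD : ¬ (p : ℤ) ∣ β.re * γ.im - β.im * γ.re := by
      intro h
      have h1 : p ∣ D := by
        rw [← hD]
        exact Int.natCast_dvd.1 h
      exact Nat.not_coprime_of_dvd_of_dvd hp.one_lt (dvd_refl p) (h1.mul_left 3) hc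
    rw [cube_sum (box 1 p) (fun m => FF p (β * (m 0 : Ei) + γ)) (fun m => FF_val _ _) hi,
      box_one' p (fun t => FF p (β * (t : Ei) + γ)), line_sum p hp hp3 β γ hpD, norm_neg]
    have hp0 : (0 : ℝ) < p := by exact_mod_cast hp.pos
    have e : (p : ℝ) ^ 1 * (1 / p) = 1 := by field_simp
    rw [e]
    exact FF_norm _ _

/-- the family of all the Eisenstein integers -/
lemma fr_surf : FR 3 2 3 (fun n m => FF n (toE m)) where
  per n hn hc := by
    refine FF_per n (by omega) ?_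
    intro h
    exact Nat.not_coprime_of_dvd_of_dvd (by norm_num : 1 < 3) h (dvd_refl 3) hc
  one m := FF_one _
  mul a b ha hb hac hbc m := by
    have h3a : ¬ 3 ∣ a := fun h => Nat.not_coprime_of_dvd_of_dvd (by norm_num : 1 < 3) h (dvd_refl 3) hac
    have h3b : ¬ 3 ∣ b := fun h => Nat.not_coprime_of_dvd_of_dvd (by norm_num : 1 < 3) h (dvd_refl 3) hbc
    exact FF_mul (by omega) (by omega) h3a h3b _
  val p _ _ m := FF_val _ _
  mean p hp hc i hi := by
    have hp3 : p ≠ 3 := by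
      rintro rfl
      exact Nat.not_coprime_of_dvd_of_dvd (by norm_num : 1 < 3) (dvd_refl 3) (dvd_refl 3) hc
    rw [cube_sum (box 2 p) (fun m => FF p (toE m)) (fun m => FF_val _ _) hi, FF_mean p hp hp3, norm_zero]
    positivity

/-- the integers of an interval in a residue class -/
lemma ap_count (q r a T : ℕ) (hq : 1 ≤ q) :
    |(((Ioc a (a + T)).filter (fun n => n ≡ r [MOD q])).card : ℝ) - (T : ℝ) / q| ≤ 1 := by
  have h := Nat.Ioc_filter_modEq_card a (a + T) (by omega : 0 < q) r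
  have hq0 : (0 : ℚ) < q := by exact_mod_cast hq
  obtain ⟨c, hc⟩ : ∃ c, c = ((Ioc a (a + T)).filter (fun n => n ≡ r [MOD q])).card := ⟨_, rfl⟩
  have h1 : |(c : ℚ) - (T : ℚ) / q| ≤ 1 := by
    have h2 : (c : ℤ) = max (⌊(((a + T : ℕ) : ℚ) - r) / (q : ℚ)⌋ - ⌊((a : ℚ) - r) / (q : ℚ)⌋) 0 := by rw [hc]; exact h
    have h4 := Int.floor_le ((((a + T : ℕ) : ℚ) - r) / (q : ℚ))
    have h5 := Int.lt_floor_add_one ((((a + T : ℕ) : ℚ) - r) / (q : ℚ))
    have h6 := Int.floor_le (((a : ℚ) - r) / (q : ℚ))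
    have h7 := Int.lt_floor_add_one (((a : ℚ) - r) / (q : ℚ))
    have h8 : (((a + T : ℕ) : ℚ) - r) / q = ((a : ℚ) - r) / (q : ℚ) + (T : ℚ) / q := by
      push_cast
      ring
    have hT : (0 : ℚ) ≤ (T : ℚ) / q := by positivity
    have h9 : ⌊((a : ℚ) - r) / (q : ℚ)⌋ ≤ ⌊(((a + T : ℕ) : ℚ) - r) / (q : ℚ)⌋ := by
      apply Int.floor_le_floor
      rw [h8]
      linarith
    rw [max_eq_left (by omega)] at h2
    have h10 : (c : ℚ) = (⌊(((a + T : ℕ) : ℚ) - r) / (q : ℚ)⌋ : ℚ) - (⌊((a : ℚ) - r) / (q : ℚ)⌋ : ℚ) := by exact_mod_cast h2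
    rw [h10, abs_le]
    constructor <;> linarith
  rw [← hc]
  have h3 := (Rat.cast_le (K := ℝ)).mpr h1
  push_cast at h3
  exact h3

/-- the integers of an interval are well distributed -/
lemma wellN_int (a T H : ℕ) (hT : (2 * H + 1) ^ 2 ≤ T) : WellN (d := 1) (Ioc a (a + T)) (fun n _ => n) H where
  pos := by
    rw [Nat.card_Ioc]
    have : 0 < (2 * H + 1) ^ 2 := by positivity
    omega
  dist q hq hqH r hr := by
    rw [mem_box] at hr
    have hr0 := hr 0
    have hT0 : 0 < T := lt_of_lt_of_le (by positivity) hT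
    have hTr : (0 : ℝ) < T := by exact_mod_cast hT0
    have hq0 : (0 : ℝ) < q := by exact_mod_cast hq
    have e1 : ((Ioc a (a + T)).filter fun n => (fun i : Fin 1 => n % q) = r) = (Ioc a (a + T)).filter fun n => n ≡ r 0 [MOD q] := by
      apply filter_congr
      intro n _
      constructor
      · intro h
        have h1 := congrFun h 0
        show n % q = r 0 % q
        rw [h1, Nat.mod_eq_of_lt hr0]
      · intro h
        funext i
        rw [Subsingleton.elim i 0]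
        have h1 : n % q = r 0 % q := h
        show n % q = r 0
        rw [h1, Nat.mod_eq_of_lt hr0]
    rw [e1, Nat.card_Ioc, Nat.add_sub_cancel_left, pow_one]
    have h1 := ap_count q (r 0) a T hq
    have e2 : ((#{x ∈ Ioc a (a + T) | x ≡ r 0 [MOD q]} : ℕ) : ℝ) / T - 1 / q =
        (((#{x ∈ Ioc a (a + T) | x ≡ r 0 [MOD q]} : ℕ) : ℝ) - (T : ℝ) / q) / T := by
      field_simp
    rw [e2, abs_div, abs_of_pos hTr]
    have h2 : |((#{x ∈ Ioc a (a + T) | x ≡ r 0 [MOD q]} : ℕ) : ℝ) - (T : ℝ) / q| / T ≤ 1 / T :=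
      div_le_div_of_nonneg_right h1 hTr.le
    refine h2.trans ?_
    rw [one_div_mul_one_div]
    apply one_div_le_one_div_of_le (by positivity)
    have h3 : ((2 * H + 1 : ℕ) : ℝ) * q ≤ T := by
      have h4 : (2 * H + 1) * q ≤ T := by
        calc (2 * H + 1) * q ≤ (2 * H + 1) * (2 * H + 1) := Nat.mul_le_mul_left _ hqH
          _ = (2 * H + 1) ^ 2 := by ring
          _ ≤ T := hT
      exact_mod_cast h4
    push_cast at h3
    exact h3

open Classical in
/-- **The sums over all the intervals, for families of one variable.** -/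
theorem law_int {r : ℕ} [NeZero r] (hr : 2 ≤ r) (L : ℕ) (hL0 : L ≠ 0) (δ : ℝ) (hδ : 0 < δ) (A B : ℕ) :
    ∃ κ₀ : ℝ, 0 < κ₀ ∧ ∃ y₀ : ℕ, ∀ y T a : ℕ, y₀ ≤ y →
    ∀ (κ : Type) (Λ : ℕ → Finset κ), (∀ x, y ≤ x → (Λ x).card ≤ x ^ B) →
    ∀ (F : ℕ → (Fin 1 → ℕ) → ℂ), FR r 1 L F →
    ∀ (v w : ℕ → κ → ℕ → ℂ), (∀ x l n, ‖v x l n‖ ≤ 1) → (∀ x l n, ‖w x l n‖ ≤ 1) →
    ∀ E : (Fin 1 → ℕ) → Prop,
    (∀ m, (∀ x : ℕ, y ≤ x → (x : ℝ) ≤ (T : ℝ) ^ κ₀ → ∀ l ∈ Λ x, ∀ χ : ℕ → ℂ,
      (∀ n, ‖χ n‖ ≤ 1) → (∀ n n' : ℕ, 1 ≤ n → 1 ≤ n' → χ (n * n') = χ n * χ n') →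
      (∀ n, 1 ≤ n → n.Coprime L → χ n = w x l n * F n m) → ∀ M : ℕ, M ≤ x ^ B →
      ‖∑ n ∈ Ioc M (M + x), v x l n * χ n‖ ≤ (x : ℝ) ^ (1 / 2 + δ)) → E m) →
      (((Ioc a (a + T)).filter fun t => ¬ E (fun _ => t)).card : ℝ) ≤ 1 / (y : ℝ) ^ A * T := by
  obtain ⟨M₀, y₀, h⟩ := lawI (r := r) hr 1 L hL0 δ hδ A B
  refine ⟨1 / (4 * (M₀ + 1)), by positivity, y₀ + 2, fun y T a hy κ Λ hΛ F hF v w hv hw E hE => ?_⟩
  by_cases hT : 1 ≤ Nat.sqrt T
  · obtain ⟨s, hs⟩ : ∃ s, s = Nat.sqrt T := ⟨_, rfl⟩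
    rw [← hs] at hT
    have hsT : s * s ≤ T := by rw [hs]; exact Nat.sqrt_le T
    have hH : (2 * ((s - 1) / 2) + 1) ^ 2 ≤ T := by
      refine le_trans (Nat.pow_le_pow_left (by omega : 2 * ((s - 1) / 2) + 1 ≤ s) 2) ?_
      rw [sq]
      exact hsT
    have hW := wellN_int a T ((s - 1) / 2) hH
    have h1 := h (Ioc a (a + T)) (fun n _ => n) ((s - 1) / 2) y hW (by omega) κ Λ hΛ F hF v w hv hw E ?_
    · rw [Nat.card_Ioc, Nat.add_sub_cancel_left] at h1
      exact h1
    · intro m hm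
      refine hE m fun x hyx hxT => hm x hyx ?_
      have hx2 : 2 ≤ x := by omega
      have h3 : x ^ (4 * (M₀ + 1)) ≤ T := by
        have h4 : ((x : ℝ)) ^ (4 * (M₀ + 1)) ≤ T := by
          calc (x : ℝ) ^ (4 * (M₀ + 1)) ≤ ((T : ℝ) ^ ((1 : ℝ) / (4 * (M₀ + 1)))) ^ (4 * (M₀ + 1)) := pow_le_pow_left₀ (Nat.cast_nonneg _) hxT _
            _ = T := by
                rw [← Real.rpow_natCast, ← Real.rpow_mul (Nat.cast_nonneg _)]
                push_cast
                rw [one_div_mul_cancel (by positivity), Real.rpow_one]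
        exact_mod_cast h4
      obtain ⟨z, hz⟩ : ∃ z, z = x ^ (M₀ + 1) := ⟨_, rfl⟩
      have hz2 : 2 ≤ z := by
        rw [hz]
        exact hx2.trans (Nat.le_self_pow (by omega) x)
      have hz4 : (z * z) * (z * z) ≤ T := by
        refine le_trans (le_of_eq ?_) h3
        rw [hz]
        ring
      have hzs : z * z ≤ s := by
        rw [hs]
        exact Nat.le_sqrt.2 hz4
      have h5 : x ^ M₀ ≤ z := by
        rw [hz]
        exact Nat.pow_le_pow_right (by omega) (by omega)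
      have h6 : z + z ≤ z * z := by nlinarith
      omega
  · have hall : ∀ m, E m := by
      intro m
      refine hE m fun x hyx hxT => ?_
      exfalso
      have h0 : T = 0 := by
        by_contra h0
        exact hT (Nat.le_sqrt.2 (by omega))
      rw [h0, Nat.cast_zero, Real.zero_rpow (by positivity)] at hxT
      have h1 : (1 : ℝ) ≤ x := by exact_mod_cast (by omega : 1 ≤ x)
      linarith
    rw [filter_false_of_mem (fun t _ => not_not.2 (hall _)), card_empty, Nat.cast_zero]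
    positivity

end Pool.Agent.J4H77.CB
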