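import Pool.Agent.J4H77.CB.Cnt
import Pool.Agent.N647.TS.MulT

set_option autoImplicit false
set_option linter.all false

/-! The moments of sums of characters over the integers of an interval, for well distributed families. -/

namespace Pool.Agent.J4H77.CB

open Finset
open Pool.Agent.TH894.NE (box mem_box card_box)
open Pool.Agent.X22.MT
open Pool.Agent.N647.TS (WellN avg_nearC)

/-- a completely multiplicative family of local functions whose values are `0` or roots of unity of order `r` -/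
structure FR (r d L : ℕ) (F : ℕ → (Fin d → ℕ) → ℂ) : Prop where
  per : ∀ n, 1 ≤ n → n.Coprime L → PerC n (F n)
  one : ∀ m, F 1 m = 1
  mul : ∀ a b, 1 ≤ a → 1 ≤ b → a.Coprime L → b.Coprime L → ∀ m, F (a * b) m = F a m * F b m
  val : ∀ p, p.Prime → p.Coprime L → ∀ m, F p m = 0 ∨ F p m ^ r = 1
  mean : ∀ p, p.Prime → p.Coprime L → ∀ i, ¬ r ∣ i → ‖∑ m ∈ box d p, F p m ^ i‖ ≤ (p : ℝ) ^ d * (1 / p)

section
variable {r d L : ℕ} {F : ℕ → (Fin d → ℕ) → ℂ}

lemma FR.pow (h : FR r d L F) {p : ℕ} (hp : 1 ≤ p) (hc : p.Coprime L) (e : ℕ) (m : Fin d → ℕ) :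
    F (p ^ e) m = F p m ^ e := by
  induction e with
  | zero => rw [pow_zero, pow_zero, h.one]
  | succ e ih =>
    rw [pow_succ, pow_succ, h.mul _ _ (Nat.one_le_pow _ _ hp) hp (Nat.Coprime.pow_left _ hc) hc, ih]

lemma FR.prod (h : FR r d L F) (s : Finset ℕ) (e : ℕ → ℕ) (hs : ∀ p ∈ s, 1 ≤ p ∧ p.Coprime L) (m : Fin d → ℕ) :
    F (∏ p ∈ s, p ^ e p) m = ∏ p ∈ s, F p m ^ e p := by
  classical
  induction s using Finset.induction_on with
  | empty => rw [Finset.prod_empty, Finset.prod_empty, h.one]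
  | insert a s ha ih =>
    have hs' : ∀ p ∈ s, 1 ≤ p ∧ p.Coprime L := fun p hp => hs p (mem_insert_of_mem hp)
    obtain ⟨h1, h2⟩ := hs a (mem_insert_self _ _)
    rw [Finset.prod_insert ha, Finset.prod_insert ha, h.mul _ _ (Nat.one_le_pow _ _ h1) ?_ (Nat.Coprime.pow_left _ h2) ?_,
      h.pow h1 h2, ih hs']
    · exact Finset.prod_pos fun p hp => Nat.pow_pos (hs' p hp).1
    · exact Nat.Coprime.prod_left fun p hp => Nat.Coprime.pow_left _ (hs' p hp).2

lemma FR.fac (h : FR r d L F) {n : ℕ} (hn : 1 ≤ n) (hc : n.Coprime L) {T : Finset ℕ} (hT : n.primeFactors ⊆ T)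
    (hTp : ∀ p ∈ T, p.Prime) (m : Fin d → ℕ) : F n m = ∏ p ∈ T, F p m ^ n.factorization p := by
  classical
  have h1 : F n m = ∏ p ∈ n.primeFactors, F p m ^ n.factorization p := by
    conv_lhs => rw [← Nat.factorization_prod_pow_eq_self (by omega : n ≠ 0)]
    rw [Finsupp.prod, Nat.support_factorization]
    exact h.prod _ _ (fun p hp => ⟨(Nat.prime_of_mem_primeFactors hp).one_lt.le,
      Nat.Coprime.coprime_dvd_left (Nat.dvd_of_mem_primeFactors hp) hc⟩) m
  rw [h1]
  refine Finset.prod_subset hT fun p _ hp => ?_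
  rw [← Nat.support_factorization, Finsupp.mem_support_iff, not_not] at hp
  rw [hp, pow_zero]

/-- the local factor -/
noncomputable def loc (F : ℕ → (Fin d → ℕ) → ℂ) (a b p : ℕ) (m : Fin d → ℕ) : ℂ :=
  F p m ^ a * (starRingEnd ℂ) (F p m) ^ b

lemma FR.norm_le (h : FR r d L F) (hr : 1 ≤ r) {p : ℕ} (hp : p.Prime) (hc : p.Coprime L) (m : Fin d → ℕ) :
    ‖F p m‖ ≤ 1 := by
  rcases h.val p hp hc m with h1 | h1
  · rw [h1]
    simp
  · exact (Complex.norm_eq_one_of_pow_eq_one h1 (by omega)).le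

lemma loc_norm (h : FR r d L F) (hr : 1 ≤ r) {p : ℕ} (hp : p.Prime) (hc : p.Coprime L) (a b : ℕ) (m : Fin d → ℕ) :
    ‖loc F a b p m‖ ≤ 1 := by
  have h1 := h.norm_le hr hp hc m
  unfold loc
  rw [norm_mul, norm_pow, norm_pow, RCLike.norm_conj]
  exact mul_le_one₀ (pow_le_one₀ (norm_nonneg _) h1) (by positivity) (pow_le_one₀ (norm_nonneg _) h1)

open Classical in
/-- the mean of the local factor -/
lemma loc_mean (h : FR r d L F) (hr : 2 ≤ r) {p : ℕ} (hp : p.Prime) (hc : p.Coprime L) (a b : ℕ) :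
    ‖1 / (p : ℂ) ^ d * ∑ m ∈ box d p, loc F a b p m‖ ≤ if ((a : ZMod r)) = b then 1 else 1 / (p : ℝ) := by
  have hp0 : (0 : ℝ) < p := by exact_mod_cast hp.pos
  have hpd : (0 : ℝ) < (p : ℝ) ^ d := by positivity
  have hn : ‖1 / (p : ℂ) ^ d‖ = 1 / (p : ℝ) ^ d := by
    rw [norm_div, norm_one, norm_pow, Complex.norm_natCast]
  rw [norm_mul, hn]
  split_ifs with hab
  · have h1 : ‖∑ m ∈ box d p, loc F a b p m‖ ≤ (p : ℝ) ^ d := by
      refine (norm_sum_le _ _).trans ((Finset.sum_le_sum fun m _ => loc_norm h (by omega) hp hc a b m).trans ?_)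
      rw [Finset.sum_const, card_box, nsmul_eq_mul, mul_one]
      push_cast
      exact le_rfl
    rw [one_div_mul_eq_div, div_le_one hpd]
    exact h1
  · obtain ⟨i, hi⟩ : ∃ i, i = a + (r - 1) * b := ⟨_, rfl⟩
    have hri : ¬ r ∣ i := by
      intro hd
      apply hab
      have h1 : ((i : ℕ) : ZMod r) = 0 := (ZMod.natCast_eq_zero_iff _ _).2 hd
      rw [hi] at h1
      have h2 : ((r - 1 : ℕ) : ZMod r) = -1 := by
        have : ((r - 1 : ℕ) : ZMod r) + 1 = 0 := by
          have h3 : (((r - 1) + 1 : ℕ) : ZMod r) = 0 := by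
            rw [Nat.sub_add_cancel (by omega : 1 ≤ r)]
            exact ZMod.natCast_self r
          push_cast at h3
          exact h3
        exact eq_neg_of_add_eq_zero_left this
      push_cast at h1
      rw [h2] at h1
      linear_combination h1
    have hi1 : i ≠ 0 := by
      rintro h0
      exact hri (h0 ▸ dvd_zero r)
    have hpt : ∀ m, loc F a b p m = F p m ^ i := by
      intro m
      unfold loc
      rcases h.val p hp hc m with h1 | h1
      · rw [h1, zero_pow hi1]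
        have : a ≠ 0 ∨ b ≠ 0 := by
          by_contra hcon
          push Not at hcon
          rw [hcon.1, hcon.2] at hab
          exact hab rfl
        rcases this with h2 | h2
        · rw [zero_pow h2, zero_mul]
        · rw [map_zero, zero_pow h2, mul_zero]
      · have hn1 : ‖F p m‖ = 1 := Complex.norm_eq_one_of_pow_eq_one h1 (by omega)
        have hconj : (starRingEnd ℂ) (F p m) = F p m ^ (r - 1) := by
          have h2 : F p m * (starRingEnd ℂ) (F p m) = 1 := by
            rw [Complex.mul_conj, Complex.normSq_eq_norm_sq, hn1]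
            norm_num
          have h3 : F p m * F p m ^ (r - 1) = 1 := by
            rw [← pow_succ', Nat.sub_add_cancel (by omega : 1 ≤ r), h1]
          have h4 : F p m ≠ 0 := by
            intro h0
            rw [h0, norm_zero] at hn1
            exact zero_ne_one hn1
          exact mul_left_cancel₀ h4 (h2.trans h3.symm)
        rw [hconj, ← pow_mul, ← pow_add, hi]
    rw [Finset.sum_congr rfl fun m _ => hpt m]
    have := h.mean p hp hc i hri
    rw [one_div_mul_eq_div, div_le_iff₀ hpd]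
    linarith

lemma box_one (G : (Fin d → ℕ) → ℂ) (hG : ∀ m, G m = 1) : ∑ m ∈ box d 1, G m = 1 := by
  rw [Finset.sum_congr rfl fun m _ => hG m, Finset.sum_const, card_box]
  simp

/-- the sum over the residues is a product -/
lemma box_prod (s : Finset ℕ) (hs : ∀ p ∈ s, p.Prime) (A : ℕ → (Fin d → ℕ) → ℂ) (hA : ∀ p ∈ s, PerC p (A p)) :
    ∑ m ∈ box d (∏ p ∈ s, p), ∏ p ∈ s, A p m = ∏ p ∈ s, ∑ m ∈ box d p, A p m := by
  classical
  induction s using Finset.induction_on with
  | empty =>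
    rw [Finset.prod_empty, Finset.prod_empty]
    exact box_one _ fun _ => Finset.prod_empty
  | insert a s ha ih =>
    have hs' : ∀ p ∈ s, p.Prime := fun p hp => hs p (mem_insert_of_mem hp)
    have hpa := hs a (mem_insert_self _ _)
    rw [Finset.prod_insert ha, Finset.prod_insert ha, ← ih hs' fun p hp => hA p (mem_insert_of_mem hp)]
    have hcop : Nat.Coprime a (∏ p ∈ s, p) := by
      refine Nat.Coprime.prod_right fun p hp => ?_
      rw [Nat.coprime_primes hpa (hs' p hp)]
      rintro rfl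
      exact ha hp
    rw [← two_modC a (∏ p ∈ s, p) hpa.one_lt.le (Finset.prod_pos fun p hp => (hs' p hp).pos) hcop (A a)
      (fun m => ∏ p ∈ s, A p m) (hA a (mem_insert_self _ _)) ?_]
    · refine Finset.sum_congr rfl fun m _ => ?_
      rw [Finset.prod_insert ha]
    · exact PerC.prod s fun p hp => (hA p (mem_insert_of_mem hp)).of_dvd (Finset.dvd_prod_of_mem _ hp)

open Classical in
/-- **The complete sums.** -/
lemma complete (h : FR r d L F) (hr : 2 ≤ r) {n n' : ℕ} (hn : 1 ≤ n) (hn' : 1 ≤ n') (hc : n.Coprime L) (hc' : n'.Coprime L) :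
    ‖1 / ((n * n' : ℕ) : ℂ) ^ d * ∑ m ∈ box d (n * n'), F n m * (starRingEnd ℂ) (F n' m)‖ ≤
      ∏ p ∈ (n * n').primeFactors, if ((n.factorization p : ℕ) : ZMod r) = ((n'.factorization p : ℕ) : ZMod r) then 1
        else 1 / (p : ℝ) := by
  obtain ⟨T, hT⟩ : ∃ T, T = (n * n').primeFactors := ⟨_, rfl⟩
  have hQ : n * n' ≠ 0 := Nat.mul_ne_zero (by omega) (by omega)
  have hTp : ∀ p ∈ T, p.Prime := fun p hp => Nat.prime_of_mem_primeFactors (hT ▸ hp)
  have hTL : ∀ p ∈ T, p.Coprime L := by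
    intro p hp
    rw [hT] at hp
    exact Nat.Coprime.coprime_dvd_left (Nat.dvd_of_mem_primeFactors hp) (Nat.Coprime.mul_left hc hc')
  have h1 : n.primeFactors ⊆ T := by
    rw [hT, Nat.primeFactors_mul (by omega) (by omega)]
    exact Finset.subset_union_left
  have h2 : n'.primeFactors ⊆ T := by
    rw [hT, Nat.primeFactors_mul (by omega) (by omega)]
    exact Finset.subset_union_right
  obtain ⟨A, hA⟩ : ∃ A : ℕ → (Fin d → ℕ) → ℂ, A = fun p => loc F (n.factorization p) (n'.factorization p) p := ⟨_, rfl⟩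
  have hG : ∀ m, F n m * (starRingEnd ℂ) (F n' m) = ∏ p ∈ T, A p m := by
    intro m
    rw [h.fac hn hc h1 hTp, h.fac hn' hc' h2 hTp, map_prod, ← Finset.prod_mul_distrib, hA]
    refine Finset.prod_congr rfl fun p _ => ?_
    unfold loc
    rw [map_pow]
  have hper : ∀ p ∈ T, PerC p (A p) := by
    intro p hp
    have h3 := h.per p (hTp p hp).one_lt.le (hTL p hp)
    rw [hA]
    intro m
    show F p m ^ _ * (starRingEnd ℂ) (F p m) ^ _ = F p _ ^ _ * (starRingEnd ℂ) (F p _) ^ _
    rw [h3 m]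
  obtain ⟨P, hP⟩ : ∃ P, P = ∏ p ∈ T, p := ⟨_, rfl⟩
  have hP1 : 1 ≤ P := by
    rw [hP]
    exact Finset.prod_pos fun p hp => (hTp p hp).pos
  have hPd : P ∣ n * n' := by
    rw [hP, hT]
    exact Nat.prod_primeFactors_dvd _
  obtain ⟨t, ht⟩ := hPd
  have ht1 : 1 ≤ t := by
    rcases Nat.eq_zero_or_pos t with h0 | h0
    · rw [h0, mul_zero] at ht
      exact absurd ht hQ
    · exact h0
  have hPp : PerC P (fun m => ∏ p ∈ T, A p m) :=
    PerC.prod T fun p hp => (hper p hp).of_dvd (hP ▸ Finset.dvd_prod_of_mem _ hp)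
  rw [Finset.sum_congr rfl fun m _ => hG m, ← hT, ht, box_mul P t hP1 ht1 _ hPp]
  have hPc : (P : ℂ) ≠ 0 := by exact_mod_cast (by omega : P ≠ 0)
  have htc : (t : ℂ) ≠ 0 := by exact_mod_cast (by omega : t ≠ 0)
  have e1 : 1 / ((P * t : ℕ) : ℂ) ^ d * ((t : ℂ) ^ d * ∑ m ∈ box d P, ∏ p ∈ T, A p m) =
      ∏ p ∈ T, (1 / (p : ℂ) ^ d * ∑ m ∈ box d p, A p m) := by
    rw [Finset.prod_mul_distrib, ← box_prod T hTp A hper, ← hP]
    have e2 : ∏ p ∈ T, 1 / (p : ℂ) ^ d = 1 / (P : ℂ) ^ d := by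
      rw [hP, Finset.prod_div_distrib, Finset.prod_const_one, Finset.prod_pow]
      push_cast
      rfl
    rw [e2]
    push_cast
    rw [mul_pow]
    field_simp
  rw [e1, norm_prod]
  refine Finset.prod_le_prod (fun _ _ => norm_nonneg _) fun p hp => ?_
  rw [hA]
  exact loc_mean h hr (hTp p hp) (hTL p hp) _ _

end

end Pool.Agent.J4H77.CB
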