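import Pool.Agent.J4H77.CB.Cls
import Pool.Agent.J4H77.CB.Box

set_option autoImplicit false
set_option linter.all false

/-! The primitive cubic Dirichlet characters as cubic residue symbols. -/

namespace Pool.Agent.J4H77.CB

open Finset
open Pool.Agent.Y692.QS
open Pool.Agent.X22.CC

lemma cf_char {q : ℕ} (hq : 1 ≤ q) (χ : DirichletCharacter ℂ q) (hχ : χ ^ 3 = 1) : CF q (fun n => χ (n : ZMod q)) := by
  refine ⟨fun m n _ _ => ?_, fun n hn => ?_, fun m n _ hmn => ?_⟩
  · show χ ((m * n : ℕ) : ZMod q) = χ (m : ZMod q) * χ (n : ZMod q)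
    rw [Nat.cast_mul, map_mul]
  · have h1 : IsUnit (n : ZMod q) := (ZMod.isUnit_iff_coprime n q).2 hn
    have h2 : (χ ^ 3) (n : ZMod q) = 1 := by
      rw [hχ]
      exact MulChar.one_apply h1
    rw [← h2, MulChar.pow_apply' _ (by norm_num)]
  · show χ (m : ZMod q) = χ (n : ZMod q)
    rw [(ZMod.natCast_eq_natCast_iff m n q).2 hmn]

/-- the product of the symbols vanishes at the integers not coprime to the norm -/
lemma prod_zero (α : Ei) (P : Multiset Ei) (hP : ∀ π ∈ P, Prime π) (hPa : Associated P.prod α) (n : ℕ)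
    (hn : ¬ n.Coprime (nr α).natAbs) : (P.map (fun π => Pool.Agent.X22.CC.loc π (n : Ei))).prod = 0 := by
  obtain ⟨p, hp, hpn, hpα⟩ := Nat.Prime.not_coprime_iff_dvd.1 hn
  have hpZ : Prime (p : ℤ) := Nat.prime_iff_prime_int.1 hp
  have h1 : (p : ℤ) ∣ nr P.prod := by
    have h2 : nr P.prod = nr α := by
      obtain ⟨u, hu⟩ := hPa
      rw [← hu, Pool.Agent.Y692.QS.nr_mul, Pool.Agent.Y692.QS.isUnit_iff.1 u.isUnit, mul_one]
    rw [h2]
    exact (Int.natCast_dvd).2 hpα
  have h2 : ∀ s : Multiset Ei, (p : ℤ) ∣ nr s.prod → ∃ π ∈ s, (p : ℤ) ∣ nr π := by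
    intro s
    induction s using Multiset.induction_on with
    | empty =>
      intro h
      exfalso
      rw [Multiset.prod_zero, Pool.Agent.Y692.QS.nr_one] at h
      exact hpZ.not_isUnit (isUnit_of_dvd_one h)
    | cons a s ih =>
      intro h
      rw [Multiset.prod_cons, Pool.Agent.Y692.QS.nr_mul] at h
      rcases hpZ.dvd_or_dvd h with h | h
      · exact ⟨a, Multiset.mem_cons_self a s, h⟩
      · obtain ⟨π, hπ, h'⟩ := ih h
        exact ⟨π, Multiset.mem_cons_of_mem hπ, h'⟩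
  obtain ⟨π, hπ, hpπ⟩ := h2 P h1
  obtain ⟨l, hl, hπl, hc⟩ := Pool.Agent.Y715.T.Rec.exists_p (hP π hπ)
  have hpl : p = l := by
    have h3 : (p : ℤ) ∣ l := by
      rcases hc with h | h
      · rw [h] at hpπ
        exact hpπ
      · rw [h] at hpπ
        exact hpZ.dvd_of_dvd_pow hpπ
    exact (Nat.prime_dvd_prime_iff_eq hp hl).1 (by exact_mod_cast h3)
  have hπn : π ∣ (n : Ei) := by
    refine hπl.trans ?_
    rw [← hpl]
    exact_mod_cast (Nat.cast_dvd_cast hpn : ((p : ℕ) : Ei) ∣ (n : Ei))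
  apply Multiset.prod_eq_zero
  rw [Multiset.mem_map]
  exact ⟨π, hπ, loc_zero hπn⟩

/-- the associate with nonnegative coordinates -/
lemma cone (x : Ei) : ∃ y : Ei, Associated x y ∧ 0 ≤ y.re ∧ 0 ≤ y.im := by
  have hw : IsUnit (w : Ei) := by
    rw [isUnit_iff]
    decide
  have hwre : ∀ x : Ei, (x * w).re = -x.im := by
    intro x
    rw [mul_re]
    have hw1 : (w : Ei).re = 0 := rfl
    have hw2 : (w : Ei).im = 1 := rfl
    rw [hw1, hw2]
    ring
  have hwim : ∀ x : Ei, (x * w).im = x.re - x.im := by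
    intro x
    rw [mul_im]
    have hw1 : (w : Ei).re = 0 := rfl
    have hw2 : (w : Ei).im = 1 := rfl
    rw [hw1, hw2]
    ring
  rcases le_total 0 x.re with h1 | h1 <;> rcases le_total 0 x.im with h2 | h2
  · exact ⟨x, Associated.refl x, h1, h2⟩
  · refine ⟨x * w, ⟨hw.unit, rfl⟩, ?_, ?_⟩
    · rw [hwre]; omega
    · rw [hwim]; omega
  · refine ⟨-(x * w), ⟨-hw.unit, ?_⟩, ?_, ?_⟩
    · rw [Units.val_neg, mul_neg]
      rfl
    · rw [QuadraticAlgebra.re_neg, hwre]; omega
    · rw [QuadraticAlgebra.im_neg, hwim]; omega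
  · refine ⟨-x, ⟨-1, ?_⟩, ?_, ?_⟩
    · rw [Units.val_neg, Units.val_one, mul_neg, mul_one]
    · rw [QuadraticAlgebra.re_neg]; omega
    · rw [QuadraticAlgebra.im_neg]; omega

/-- **The primitive cubic characters.** -/
theorem prim_rep {q : ℕ} (hq : 1 ≤ q) (χ : DirichletCharacter ℂ q) (hχ : χ ^ 3 = 1) (hprim : χ.IsPrimitive) :
    ∃ (α : Ei) (g : ZMod 9 → ℂ), 0 ≤ α.re ∧ 0 ≤ α.im ∧ ¬ (3 : ℤ) ∣ nr α ∧ nr α ∣ q ∧ (q : ℤ) ∣ 9 * nr α ∧ (∀ a, g a ^ 3 = 1) ∧
      ∀ n : ℕ, 1 ≤ n → n.Coprime 3 → χ (n : ZMod q) = g n * (FF n (star (ep α)) * FF n α) := by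
  haveI : NeZero q := ⟨by omega⟩
  obtain ⟨P, g, h1, h2, h3, h4, h5⟩ := rep_all q hq _ (cf_char hq χ hχ)
  obtain ⟨α, hα, hre, him⟩ := cone P.prod
  have hnr : nr α = nr P.prod := by
    obtain ⟨u, hu⟩ := hα
    rw [← hu, nr_mul, isUnit_iff.1 u.isUnit, mul_one]
  obtain ⟨N, hN⟩ : ∃ N : ℕ, nr α = N := ⟨(nr α).toNat, (Int.toNat_of_nonneg (nr_nonneg α)).symm⟩
  have hN3 : ¬ 3 ∣ N := by
    intro h
    apply h3
    rw [← hnr, hN]
    exact_mod_cast h
  have hN1 : 1 ≤ N := by
    rcases Nat.eq_zero_or_pos N with h0 | h0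
    · exact absurd (h0 ▸ dvd_zero 3) hN3
    · exact h0
  have hNq : N ∣ q := by
    have : (N : ℤ) ∣ q := by rw [← hN, hnr]; exact h2
    exact_mod_cast this
  have hP3 : ∀ π ∈ P, Prime π ∧ ¬ π ∣ 3 := by
    intro π hπ
    refine ⟨h1 π hπ, not_three (fun h => h3 (h.trans (nr_dvd ?_))) (h1 π hπ)⟩
    exact Multiset.dvd_prod hπ
  -- the modulus
  have hq9 : q ∣ 9 * N := by
    have hd : χ.FactorsThrough (q.gcd (9 * N)) := by
      rw [DirichletCharacter.factorsThrough_iff_ker_unitsMap (Nat.gcd_dvd_left q (9 * N))]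
      intro x hx
      rw [MonoidHom.mem_ker, Units.ext_iff, MulChar.coe_toUnitHom, Units.val_one]
      obtain ⟨z, hz₁, hz₂⟩ : ∃ z : ℕ, z = x.val ∧ (z : ZMod (9 * N)) = 1 := by
        suffices x.val.val ≡ 1 [MOD q.gcd (9 * N)] by
          obtain ⟨z, hz₁, hz₂⟩ := Nat.chineseRemainder' this
          refine ⟨z, ?_, ?_⟩
          · simpa [← ZMod.natCast_eq_natCast_iff] using hz₁
          · rwa [← ZMod.natCast_eq_natCast_iff, Nat.cast_one] at hz₂
        rwa [MonoidHom.mem_ker, Units.ext_iff, ZMod.unitsMap_val, ← ZMod.natCast_val,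
          Units.val_one, ← Nat.cast_one, ZMod.natCast_eq_natCast_iff] at hx
      have hzm : z ≡ 1 [MOD 9 * N] := by
        rw [← Nat.cast_one, ZMod.natCast_eq_natCast_iff] at hz₂
        exact hz₂
      have hzq : z.Coprime q := (ZMod.isUnit_iff_coprime _ _).mp (hz₁ ▸ x.isUnit)
      have hz3 : z.Coprime 3 := by
        have h6 : z ≡ 1 [MOD 3] := hzm.of_dvd ((by norm_num : 3 ∣ 9).mul_right N)
        rw [Nat.coprime_comm, Nat.Prime.coprime_iff_not_dvd Nat.prime_three]
        have : z % 3 = 1 := h6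
        omega
      have h6 := h5 z hzq hz3
      have h7 := h5 1 (Nat.coprime_one_left q) (Nat.coprime_one_left 3)
      have h8 : ((z : ℕ) : ZMod 9) = ((1 : ℕ) : ZMod 9) := by
        rw [ZMod.natCast_eq_natCast_iff]
        exact hzm.of_dvd (dvd_mul_right 9 N)
      have h9 : (P.map (fun π => Pool.Agent.X22.CC.loc π (z : Ei))) = (P.map (fun π => Pool.Agent.X22.CC.loc π ((1 : ℕ) : Ei))) := by
        apply Multiset.map_congr rfl
        intro π hπ
        obtain ⟨hπ1, hπ3⟩ := hP3 π hπ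
        apply loc_congr hπ1 hπ3
        have hπN : π ∣ (N : Ei) := by
          have h10 : π ∣ α := (Multiset.dvd_prod hπ).trans hα.dvd
          have h11 : α ∣ (N : Ei) := by
            refine ⟨star α, ?_⟩
            rw [Pool.Agent.Y692.QS.mul_star, hN]
            push_cast
            rfl
          exact h10.trans h11
        have h12 : (N : ℤ) ∣ (z : ℤ) - 1 := by
          have := (Nat.modEq_iff_dvd).1 (hzm.of_dvd (dvd_mul_left N 9)).symm
          exact_mod_cast this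
        have h13 : ((N : ℤ) : Ei) ∣ (((z : ℤ) - 1 : ℤ) : Ei) := int_dvd_int.2 h12
        push_cast at h13
        rw [Nat.cast_one]
        exact hπN.trans h13
      have h14 : χ (z : ZMod q) = χ ((1 : ℕ) : ZMod q) := by
        have e1 : χ (z : ZMod q) = g z * (P.map (fun π => Pool.Agent.X22.CC.loc π (z : Ei))).prod := h6
        have e2 : χ ((1 : ℕ) : ZMod q) = g ((1 : ℕ) : ZMod 9) * (P.map (fun π => Pool.Agent.X22.CC.loc π ((1 : ℕ) : Ei))).prod := h7
        rw [e1, e2, h8, h9]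
      rw [← hz₁, h14, Nat.cast_one, map_one]
    have h6 : χ.conductor ≤ q.gcd (9 * N) := Nat.sInf_le hd
    rw [hprim] at h6
    have h7 : q.gcd (9 * N) = q := le_antisymm (Nat.gcd_le_left _ (by omega)) h6
    exact Nat.gcd_eq_left_iff_dvd.1 h7
  refine ⟨α, g, hre, him, ?_, ?_, ?_, h4, ?_⟩
  · rw [hnr]; exact h3
  · rw [hnr]; exact h2
  · rw [hN]
    exact_mod_cast hq9
  · intro n hn1 hn3
    have hn3' : ¬ 3 ∣ n := (Nat.Prime.coprime_iff_not_dvd Nat.prime_three).1 hn3.symm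
    have hrec := recip (by omega) hn3' α (by rw [hnr]; exact h3) P h1 hα
    rw [← hrec]
    by_cases hnq : n.Coprime q
    · exact h5 n hnq hn3
    · obtain ⟨r, hr, hrn, hrq⟩ := Nat.Prime.not_coprime_iff_dvd.1 hnq
      have hr3 : r ≠ 3 := by
        rintro rfl
        exact hn3' hrn
      have hrN : r ∣ N := by
        rcases hr.dvd_mul.1 (hrq.trans hq9) with h6 | h6
        · exfalso
          have h7 : r ∣ 3 := by
            have : r ∣ 3 ^ 2 := by simpa using h6
            exact hr.dvd_of_dvd_pow this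
          exact hr3 ((Nat.prime_dvd_prime_iff_eq hr Nat.prime_three).1 h7)
        · exact h6
      have h6 : ¬ n.Coprime (nr α).natAbs := by
        rw [hN, Int.natAbs_natCast]
        exact Nat.not_coprime_of_dvd_of_dvd hr.one_lt hrn hrN
      rw [prod_zero α P h1 hα n h6, mul_zero]
      apply MulChar.map_nonunit
      rw [ZMod.isUnit_iff_coprime]
      exact hnq

/-- the character is determined by its values at the integers coprime to `3` -/
lemma char_ext {q : ℕ} (hq : 1 ≤ q) (χ ψ : DirichletCharacter ℂ q)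
    (h : ∀ n : ℕ, 1 ≤ n → n.Coprime 3 → χ (n : ZMod q) = ψ (n : ZMod q)) : χ = ψ := by
  haveI : NeZero q := ⟨by omega⟩
  refine MulChar.ext fun a => ?_
  have hex : ∃ n : ℕ, 1 ≤ n ∧ n.Coprime 3 ∧ ((n : ZMod q)) = a := by
    have hac : ((a : ZMod q).val).Coprime q := by
      rw [← ZMod.isUnit_iff_coprime, ZMod.natCast_zmod_val]
      exact a.isUnit
    by_cases h3 : 3 ∣ q
    · refine ⟨(a : ZMod q).val, ?_, Nat.Coprime.coprime_dvd_right h3 hac, ZMod.natCast_zmod_val _⟩
      rcases Nat.eq_zero_or_pos (a : ZMod q).val with h0 | h0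
      · rw [h0] at hac
        rw [Nat.coprime_zero_left] at hac
        rw [hac] at h3
        norm_num at h3
      · exact h0
    · have hc : Nat.Coprime q 3 := ((Nat.Prime.coprime_iff_not_dvd Nat.prime_three).2 h3).symm
      obtain ⟨n, hn1, hn2⟩ := Nat.chineseRemainder hc (a : ZMod q).val 1
      refine ⟨n, ?_, ?_, ?_⟩
      · rcases Nat.eq_zero_or_pos n with h0 | h0
        · rw [h0] at hn2
          exact absurd hn2 (by decide)
        · exact h0
      · rw [Nat.coprime_comm, Nat.Prime.coprime_iff_not_dvd Nat.prime_three]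
        have : n % 3 = 1 := hn2
        omega
      · rw [(ZMod.natCast_eq_natCast_iff n _ q).2 hn1, ZMod.natCast_zmod_val]
  obtain ⟨n, h1, h2, h3⟩ := hex
  rw [← h3]
  exact h n h1 h2

end Pool.Agent.J4H77.CB
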