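import Pool.Agent.X22.CC2

set_option autoImplicit false
set_option linter.all false

/-! The cubic residue symbols and the complex conjugation; the sums over lines. -/

namespace Pool.Agent.J4H77.CB

open Finset
open Pool.Agent.Y692.QS
open Pool.Agent.Y715.T.Rec (cs nn)
open Pool.Agent.Y715.T.RecG (cs_spec cs_of)
open Pool.Agent.Y715.T.RecC (star_prime star_dvd)
open Pool.Agent.X22.CC
open Pool.Agent.TH894.NE (box mem_box)

lemma star_three {ρ : Ei} (h3 : ¬ ρ ∣ 3) : ¬ star ρ ∣ 3 := by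
  intro h
  apply h3
  have h1 := star_dvd h
  rw [star_star] at h1
  have h2 : star (3 : Ei) = 3 := by decide
  rwa [h2] at h1

lemma cs_starG {ρ : Ei} (hρ : Prime ρ) (h3 : ¬ ρ ∣ 3) {x : Ei} (hx : ¬ ρ ∣ x) : cs (star ρ) (star x) = -cs ρ x := by
  apply cs_of (star_prime hρ) (star_three h3)
  have h1 := star_dvd (cs_spec hρ h3 hx)
  have h2 : nn (star ρ) = nn ρ := by
    unfold Pool.Agent.Y715.T.Rec.nn
    rw [nr_star]
  have h4 : ∀ c : ZMod 3, star (w ^ c.val : Ei) = w ^ (-c).val := by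
    intro c
    rw [star_pow, star_w]
    revert c
    decide
  rw [star_sub, star_pow, h4] at h1
  rw [h2]
  exact h1

lemma wC_conj' : (starRingEnd ℂ) wC = wC ^ 2 := by
  rw [wC_conj, sq]
  have := wC_sq
  linear_combination -this

lemma loc_star {ρ : Ei} (hρ : Prime ρ) (h3 : ¬ ρ ∣ 3) (x : Ei) : loc (star ρ) (star x) = (starRingEnd ℂ) (loc ρ x) := by
  by_cases hx : ρ ∣ x
  · rw [loc_zero hx, loc_zero (star_dvd hx), map_zero]
  · have hx' : ¬ star ρ ∣ star x := by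
      intro h
      have := star_dvd h
      rw [star_star, star_star] at this
      exact hx this
    rw [loc_ne hx, loc_ne hx', cs_starG hρ h3 hx, map_pow, wC_conj', ← pow_mul]
    have h4 := wC_cube
    have key : ∀ c : ZMod 3, c = 0 ∨ c = 1 ∨ c = 2 := by decide
    rcases key (cs ρ x) with h | h | h
    · rw [h]
      rfl
    · rw [h]
      rfl
    · rw [h]
      have e1 : (-(2 : ZMod 3)).val = 1 := rfl
      have e2 : (2 : ZMod 3).val = 2 := rfl
      rw [e1, e2]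
      calc wC ^ 1 = wC ^ 3 * wC := by rw [h4]; ring
        _ = wC ^ (2 * 2) := by ring

lemma star_nat (n : ℕ) : star (n : Ei) = n := by
  apply QuadraticAlgebra.ext
  · rw [star_re]
    simp
  · rw [star_im]
    simp

/-- the conjugation -/
lemma FF_star {n : ℕ} (hn : n ≠ 0) (h3 : ¬ 3 ∣ n) (x : Ei) : FF n (star x) = (starRingEnd ℂ) (FF n x) := by
  obtain ⟨R, hR⟩ : ∃ R, R = UniqueFactorizationMonoid.factors (n : Ei) := ⟨_, rfl⟩
  have hRp : ∀ ρ ∈ R, Prime ρ ∧ ¬ ρ ∣ 3 := by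
    intro ρ hρ
    rw [hR] at hρ
    obtain ⟨h1, h2, h4⟩ := factor_three hn h3 hρ
    exact ⟨h1, not_three h4 h1⟩
  have hprod : ∀ s : Multiset Ei, (s.map star).prod = star s.prod := by
    intro s
    induction s using Multiset.induction_on with
    | empty => simp
    | cons a s ih => rw [Multiset.map_cons, Multiset.prod_cons, Multiset.prod_cons, ih, star_mul']
  rw [FF_of hn h3 (R.map star) ?_ ?_]
  · rw [Multiset.map_map]
    have e1 : R.map ((fun ρ => loc ρ (star x)) ∘ star) = R.map (fun ρ => (starRingEnd ℂ) (loc ρ x)) := by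
      apply Multiset.map_congr rfl
      intro ρ hρ
      exact loc_star (hRp ρ hρ).1 (hRp ρ hρ).2 x
    rw [e1]
    unfold FF
    rw [← hR, map_multiset_prod, Multiset.map_map]
    rfl
  · intro ρ hρ
    rw [Multiset.mem_map] at hρ
    obtain ⟨τ, hτ, rfl⟩ := hρ
    exact star_prime (hRp τ hτ).1
  · rw [hprod]
    obtain ⟨u, hu⟩ := UniqueFactorizationMonoid.factors_prod (nat_ne hn)
    rw [← hR] at hu
    have h1 : star R.prod * star (u : Ei) = (n : Ei) := by
      rw [← star_mul', hu, star_nat]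
    have h2 : IsUnit (star (u : Ei)) := by
      rw [isUnit_iff, nr_star]
      exact isUnit_iff.1 u.isUnit
    obtain ⟨v, hv⟩ := h2
    exact ⟨v, by rw [hv]; exact h1⟩

lemma loc_val (ρ x : Ei) : loc ρ x = 0 ∨ loc ρ x ^ 3 = 1 := by
  by_cases h : ρ ∣ x
  · left
    exact loc_zero h
  · right
    rw [loc_ne h, ← pow_mul, mul_comm, pow_mul, wC_cube, one_pow]

lemma FF_val (n : ℕ) (x : Ei) : FF n x = 0 ∨ FF n x ^ 3 = 1 := by
  unfold FF
  generalize UniqueFactorizationMonoid.factors (n : Ei) = s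
  induction s using Multiset.induction_on with
  | empty => right; simp
  | cons a s ih =>
    rw [Multiset.map_cons, Multiset.prod_cons]
    rcases loc_val a x with h | h
    · left
      rw [h, zero_mul]
    · rcases ih with h' | h'
      · left
        rw [h', mul_zero]
      · right
        rw [mul_pow, h, h', one_mul]

lemma FF_one (x : Ei) : FF 1 x = 1 := by
  rw [FF_of one_ne_zero (by norm_num) 0 (by simp) (by simp)]
  simp

lemma FF_ne {n u : ℕ} (hn : n ≠ 0) (h3 : ¬ 3 ∣ n) (hc : Nat.Coprime n u) : FF n (u : Ei) ≠ 0 := by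
  unfold FF
  intro h
  rw [Multiset.prod_eq_zero_iff, Multiset.mem_map] at h
  obtain ⟨ρ, hρ, h0⟩ := h
  obtain ⟨h1, h2, h4⟩ := factor_three hn h3 hρ
  have h5 : ρ ∣ (u : Ei) := by
    by_contra hcon
    rw [loc_ne hcon] at h0
    exact pow_ne_zero _ (by
      intro h
      have := wC_norm
      rw [h, norm_zero] at this
      exact zero_ne_one this) h0
  have h6 : (n : ℤ) * Nat.gcdA n u + (u : ℤ) * Nat.gcdB n u = 1 := by
    rw [← Nat.gcd_eq_gcd_ab, hc.gcd_eq_one, Nat.cast_one]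
  have h7 : ((n : ℤ) : Ei) * ((Nat.gcdA n u : ℤ) : Ei) + ((u : ℤ) : Ei) * ((Nat.gcdB n u : ℤ) : Ei) = 1 := by
    rw [← Int.cast_mul, ← Int.cast_mul, ← Int.cast_add, h6, Int.cast_one]
  apply h1.not_isUnit
  apply isUnit_of_dvd_one
  rw [← h7, Int.cast_natCast, Int.cast_natCast]
  exact dvd_add (h2.mul_right _) (h5.mul_right _)

/-- the symbol is trivial at the rational integers -/
lemma FF_rat {n u : ℕ} (hn : n ≠ 0) (h3 : ¬ 3 ∣ n) (hc : Nat.Coprime n u) : FF n (u : Ei) = 1 := by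
  have h1 := FF_star hn h3 (u : Ei)
  rw [star_nat] at h1
  have h2 := FF_ne hn h3 hc
  have h4 := (FF_val n (u : Ei)).resolve_left h2
  obtain ⟨z, hz⟩ : ∃ z, z = FF n (u : Ei) := ⟨_, rfl⟩
  rw [← hz] at h1 h2 h4 ⊢
  obtain ⟨a, ha⟩ := Complex.conj_eq_iff_real.1 h1.symm
  rw [ha] at h4 ⊢
  have h5 : a ^ 3 = 1 := by exact_mod_cast h4
  have h6 : a = 1 := by
    nlinarith [sq_nonneg (a + 1), sq_nonneg (a - 1), sq_nonneg a]
  rw [h6]
  simp

/-- the change of variables -/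
lemma sum_shiftG (ℓ : ℕ) (hℓ : 1 ≤ ℓ) (lin : (Fin 2 → ℕ) → Ei)
    (hl : ∀ m ∈ box 2 ℓ, ∀ m' ∈ box 2 ℓ, (ℓ : Ei) ∣ lin m - lin m' → m = m') (G : Ei → ℂ)
    (hG : ∀ x y : Ei, (ℓ : Ei) ∣ x - y → G x = G y) : ∑ m ∈ box 2 ℓ, G (lin m) = ∑ m ∈ box 2 ℓ, G (toE m) := by
  classical
  obtain ⟨φ, hφ⟩ : ∃ φ : (Fin 2 → ℕ) → (Fin 2 → ℕ), φ = fun m => ![((lin m).re % (ℓ : ℤ)).toNat, ((lin m).im % (ℓ : ℤ)).toNat] := ⟨_, rfl⟩
  have hℓ0 : (ℓ : ℤ) ≠ 0 := by omega
  have hℓp : (0 : ℤ) < ℓ := by omega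
  have hco : ∀ m, ((φ m 0 : ℕ) : ℤ) = (lin m).re % (ℓ : ℤ) ∧ ((φ m 1 : ℕ) : ℤ) = (lin m).im % (ℓ : ℤ) := by
    intro m
    rw [hφ]
    constructor
    · simp only [Matrix.cons_val_zero]
      exact Int.toNat_of_nonneg (Int.emod_nonneg _ hℓ0)
    · simp only [Matrix.cons_val_one]
      exact Int.toNat_of_nonneg (Int.emod_nonneg _ hℓ0)
  have hdiv : ∀ m, (ℓ : Ei) ∣ lin m - toE (φ m) := by
    intro m
    have h1 : (((ℓ : ℤ) : Ei)) ∣ lin m - toE (φ m) := by
      rw [int_dvd, QuadraticAlgebra.re_sub, QuadraticAlgebra.im_sub]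
      have e1 : (toE (φ m)).re = ((φ m 0 : ℕ) : ℤ) := rfl
      have e2 : (toE (φ m)).im = ((φ m 1 : ℕ) : ℤ) := rfl
      rw [e1, e2, (hco m).1, (hco m).2]
      exact ⟨Int.dvd_self_sub_emod, Int.dvd_self_sub_emod⟩
    exact_mod_cast h1
  have hmaps : ∀ m ∈ box 2 ℓ, φ m ∈ box 2 ℓ := by
    intro m _
    rw [mem_box]
    intro i
    have h1 := hco m
    have h2 := Int.emod_lt_of_pos (lin m).re hℓp
    have h3 := Int.emod_lt_of_pos (lin m).im hℓp
    fin_cases i
    · show φ m 0 < ℓ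
      omega
    · show φ m 1 < ℓ
      omega
  have hinj : Set.InjOn φ (box 2 ℓ : Set (Fin 2 → ℕ)) := by
    intro m hm m' hm' h
    apply hl m hm m' hm'
    have h2 := dvd_sub (hdiv m) (hdiv m')
    rw [h] at h2
    have e : lin m - lin m' = lin m - toE (φ m') - (lin m' - toE (φ m')) := by ring
    rw [e]
    exact h2
  have hsurj : Set.SurjOn φ (box 2 ℓ : Set (Fin 2 → ℕ)) (box 2 ℓ : Set (Fin 2 → ℕ)) :=
    surjOn_of_injOn_of_card_le _ (fun n hn => hmaps n hn) hinj le_rfl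
  refine sum_nbij φ hmaps hinj hsurj ?_
  intro m _
  exact hG _ _ (hdiv m)

lemma box_two (ℓ : ℕ) (f : (Fin 2 → ℕ) → ℂ) : ∑ m ∈ box 2 ℓ, f m = ∑ s ∈ range ℓ, ∑ t ∈ range ℓ, f ![t, s] := by
  rw [← Finset.sum_product']
  refine Finset.sum_nbij' (fun m => (m 1, m 0)) (fun q => ![q.2, q.1]) ?_ ?_ ?_ ?_ ?_
  · intro m hm
    rw [mem_box] at hm
    rw [mem_product, mem_range, mem_range]
    exact ⟨hm 1, hm 0⟩
  · intro q hq
    rw [mem_product, mem_range, mem_range] at hq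
    rw [mem_box]
    intro i
    fin_cases i
    · exact hq.2
    · exact hq.1
  · intro m _
    funext i
    fin_cases i <;> rfl
  · intro q _
    rfl
  · intro m _
    congr 1
    funext i
    fin_cases i <;> rfl

/-- the multiples modulo a prime -/
lemma range_mul (p : ℕ) (hp : p.Prime) (s : ℕ) (hs : ¬ p ∣ s) (f : ℕ → ℂ) (hf : ∀ t, f t = f (t % p)) :
    ∑ t ∈ range p, f (s * t) = ∑ t ∈ range p, f t := by
  have hcop : Nat.Coprime s p := (Nat.coprime_comm.1 ((Nat.Prime.coprime_iff_not_dvd hp).2 hs))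
  refine Finset.sum_nbij (fun t => s * t % p) ?_ ?_ ?_ ?_
  · intro t _
    exact mem_range.2 (Nat.mod_lt _ hp.pos)
  · intro t ht t' ht' h
    rw [mem_coe, mem_range] at ht ht'
    have h1 : t ≡ t' [MOD p] := Nat.ModEq.cancel_left_of_coprime (Nat.coprime_comm.1 hcop) h
    exact Nat.ModEq.eq_of_lt_of_lt h1 ht ht'
  · refine Finset.surjOn_of_injOn_of_card_le _ (fun t _ => mem_range.2 (Nat.mod_lt _ hp.pos)) ?_ le_rfl
    intro t ht t' ht' h
    rw [mem_coe, mem_range] at ht ht'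
    have h1 : t ≡ t' [MOD p] := Nat.ModEq.cancel_left_of_coprime (Nat.coprime_comm.1 hcop) h
    exact Nat.ModEq.eq_of_lt_of_lt h1 ht ht'
  · intro t _
    exact hf _

/-- **The sums over lines.** -/
theorem line_sum (p : ℕ) (hp : p.Prime) (h3 : p ≠ 3) (β γ : Ei) (hdet : ¬ (p : ℤ) ∣ β.re * γ.im - β.im * γ.re) :
    ∑ t ∈ range p, FF p (β * (t : Ei) + γ) = -FF p β := by
  have h3' : ¬ 3 ∣ p := fun h => h3 (((Nat.prime_dvd_prime_iff_eq Nat.prime_three hp).1 h).symm)
  have hp0 := hp.ne_zero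
  have hcongr : ∀ x y : Ei, (p : Ei) ∣ x - y → FF p x = FF p y := fun x y h => FF_congr hp0 h3' h
  have h1 := sum_shiftG p hp.one_lt.le (fun m => β * (m 0 : Ei) + γ * (m 1 : Ei)) ?_ (FF p) hcongr
  · rw [FF_mean p hp h3, box_two] at h1
    simp only [Matrix.cons_val_zero, Matrix.cons_val_one] at h1
    have h2 : ∀ s ∈ range p, s ≠ 0 → ∑ t ∈ range p, FF p (β * (t : Ei) + γ * (s : Ei)) = ∑ t ∈ range p, FF p (β * (t : Ei) + γ) := by
      intro s hs hs0
      rw [mem_range] at hs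
      have hps : ¬ p ∣ s := fun h => by
        have := Nat.le_of_dvd (by omega) h
        omega
      rw [← range_mul p hp s hps (fun t => FF p (β * (t : Ei) + γ * (s : Ei)))]
      · refine Finset.sum_congr rfl fun t _ => ?_
        have e1 : β * ((s * t : ℕ) : Ei) + γ * (s : Ei) = (s : Ei) * (β * (t : Ei) + γ) := by
          push_cast
          ring
        rw [e1, FF_mul_right hp0 h3', FF_rat hp0 h3' ((Nat.Prime.coprime_iff_not_dvd hp).2 hps), one_mul]
      · intro t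
        apply hcongr
        have e1 : β * (t : Ei) + γ * (s : Ei) - (β * ((t % p : ℕ) : Ei) + γ * (s : Ei)) = β * ((t : Ei) - ((t % p : ℕ) : Ei)) := by ring
        rw [e1]
        apply Dvd.dvd.mul_left
        have h4 : (((p : ℤ)) : Ei) ∣ (((t : ℤ) - ((t % p : ℕ) : ℤ) : ℤ) : Ei) := by
          rw [int_dvd_int]
          push_cast
          exact Int.dvd_self_sub_emod
        push_cast at h4
        push_cast
        exact_mod_cast h4
    have h4 : ∑ t ∈ range p, FF p (β * (t : Ei) + γ * ((0 : ℕ) : Ei)) = ((p : ℂ) - 1) * FF p β := by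
      obtain ⟨k, rfl⟩ : ∃ k, p = k + 1 := ⟨p - 1, by have := hp.pos; omega⟩
      rw [Finset.sum_range_succ']
      have h5 : FF (k + 1) (β * ((0 : ℕ) : Ei) + γ * ((0 : ℕ) : Ei)) = 0 := by
        have e1 : β * ((0 : ℕ) : Ei) + γ * ((0 : ℕ) : Ei) = ((k + 1 : ℕ) : Ei) * 0 := by simp
        have h6 := FF_val (k + 1) 0
        rw [e1, mul_zero]
        obtain ⟨ρ, hρ⟩ := UniqueFactorizationMonoid.exists_mem_factors (nat_ne hp0) (by
          rw [isUnit_iff, nr_nat]
          intro h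
          have h1 : (1 : ℤ) < ((k + 1 : ℕ) : ℤ) := by exact_mod_cast hp.one_lt
          nlinarith)
        unfold FF
        apply Multiset.prod_eq_zero
        rw [Multiset.mem_map]
        exact ⟨ρ, hρ, loc_zero (dvd_zero ρ)⟩
      rw [h5, add_zero]
      have h7 : ∀ t ∈ range k, FF (k + 1) (β * ((t + 1 : ℕ) : Ei) + γ * ((0 : ℕ) : Ei)) = FF (k + 1) β := by
        intro t ht
        rw [mem_range] at ht
        have e1 : β * ((t + 1 : ℕ) : Ei) + γ * ((0 : ℕ) : Ei) = β * ((t + 1 : ℕ) : Ei) := by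
          rw [Nat.cast_zero, mul_zero, add_zero]
        rw [e1, FF_mul_right hp0 h3', FF_rat hp0 h3' ((Nat.Prime.coprime_iff_not_dvd hp).2 fun h => by
          have := Nat.le_of_dvd (by omega) h
          omega), mul_one]
      rw [Finset.sum_congr rfl h7, Finset.sum_const, card_range, nsmul_eq_mul]
      push_cast
      ring
    have h5 : ∑ s ∈ range p, ∑ t ∈ range p, FF p (β * (t : Ei) + γ * (s : Ei)) =
        ((p : ℂ) - 1) * FF p β + ((p : ℂ) - 1) * ∑ t ∈ range p, FF p (β * (t : Ei) + γ) := by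
      obtain ⟨k, hk⟩ : ∃ k, p = k + 1 := ⟨p - 1, by have := hp.pos; omega⟩
      have e1 : ∑ s ∈ range p, ∑ t ∈ range p, FF p (β * (t : Ei) + γ * (s : Ei)) =
          ∑ s ∈ range (k + 1), ∑ t ∈ range p, FF p (β * (t : Ei) + γ * (s : Ei)) := by rw [← hk]
      rw [e1, Finset.sum_range_succ', h4]
      have e2 : ∀ s ∈ range k, ∑ t ∈ range p, FF p (β * (t : Ei) + γ * ((s + 1 : ℕ) : Ei)) = ∑ t ∈ range p, FF p (β * (t : Ei) + γ) := by
        intro s hs
        rw [mem_range] at hs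
        exact h2 (s + 1) (mem_range.2 (by omega)) (by omega)
      rw [Finset.sum_congr rfl e2, Finset.sum_const, card_range, nsmul_eq_mul]
      have e3 : (k : ℂ) = (p : ℂ) - 1 := by
        rw [hk]
        push_cast
        ring
      rw [e3]
      ring
    rw [h5] at h1
    have h6 : ((p : ℂ) - 1) ≠ 0 := by
      have h7 : (1 : ℝ) < p := by exact_mod_cast hp.one_lt
      intro h
      have h8 : (p : ℂ) = 1 := by linear_combination h
      have h9 : (p : ℝ) = 1 := by exact_mod_cast h8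
      linarith
    have h7 : FF p β + ∑ t ∈ range p, FF p (β * (t : Ei) + γ) = 0 := by
      apply mul_left_cancel₀ h6
      rw [mul_zero]
      linear_combination h1
    exact eq_neg_of_add_eq_zero_right h7
  · -- injectivity
    intro m hm m' hm' hd
    rw [mem_box] at hm hm'
    have h1 : (((p : ℤ) : Ei)) ∣ (β * (m 0 : Ei) + γ * (m 1 : Ei)) - (β * (m' 0 : Ei) + γ * (m' 1 : Ei)) := by exact_mod_cast hd
    rw [int_dvd] at h1
    have hre : ((β * (m 0 : Ei) + γ * (m 1 : Ei)) - (β * (m' 0 : Ei) + γ * (m' 1 : Ei))).re =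
        β.re * ((m 0 : ℤ) - m' 0) + γ.re * ((m 1 : ℤ) - m' 1) := by
      simp only [QuadraticAlgebra.re_sub, QuadraticAlgebra.re_add, mul_re, QuadraticAlgebra.re_natCast, QuadraticAlgebra.im_natCast]
      ring
    have him : ((β * (m 0 : Ei) + γ * (m 1 : Ei)) - (β * (m' 0 : Ei) + γ * (m' 1 : Ei))).im =
        β.im * ((m 0 : ℤ) - m' 0) + γ.im * ((m 1 : ℤ) - m' 1) := by
      simp only [QuadraticAlgebra.im_sub, QuadraticAlgebra.im_add, mul_im, QuadraticAlgebra.re_natCast, QuadraticAlgebra.im_natCast]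
      ring
    rw [hre, him] at h1
    obtain ⟨h2, h4⟩ := h1
    have hpZ : Prime (p : ℤ) := Nat.prime_iff_prime_int.1 hp
    have h5 : (p : ℤ) ∣ (m 0 : ℤ) - m' 0 := by
      have h6 : (p : ℤ) ∣ (β.re * γ.im - β.im * γ.re) * ((m 0 : ℤ) - m' 0) := by
        have e : (β.re * γ.im - β.im * γ.re) * ((m 0 : ℤ) - m' 0) =
            γ.im * (β.re * ((m 0 : ℤ) - m' 0) + γ.re * ((m 1 : ℤ) - m' 1)) - γ.re * (β.im * ((m 0 : ℤ) - m' 0) + γ.im * ((m 1 : ℤ) - m' 1)) := by
          ring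
        rw [e]
        exact dvd_sub (h2.mul_left _) (h4.mul_left _)
      exact (hpZ.dvd_or_dvd h6).resolve_left hdet
    have h6 : (p : ℤ) ∣ (m 1 : ℤ) - m' 1 := by
      have h7 : (p : ℤ) ∣ (β.re * γ.im - β.im * γ.re) * ((m 1 : ℤ) - m' 1) := by
        have e : (β.re * γ.im - β.im * γ.re) * ((m 1 : ℤ) - m' 1) =
            β.re * (β.im * ((m 0 : ℤ) - m' 0) + γ.im * ((m 1 : ℤ) - m' 1)) - β.im * (β.re * ((m 0 : ℤ) - m' 0) + γ.re * ((m 1 : ℤ) - m' 1)) := by
          ring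
        rw [e]
        exact dvd_sub (h4.mul_left _) (h2.mul_left _)
      exact (hpZ.dvd_or_dvd h7).resolve_left hdet
    have key : ∀ a b : ℕ, a < p → b < p → (p : ℤ) ∣ (a : ℤ) - b → a = b := by
      intro a b ha hb h
      have h4 : (b : ℤ) ≡ a [ZMOD p] := (Int.modEq_iff_dvd).2 h
      have h5 : b ≡ a [MOD p] := (Int.natCast_modEq_iff).1 h4
      exact (Nat.ModEq.eq_of_lt_of_lt h5 hb ha).symm
    funext i
    fin_cases i
    · exact key _ _ (hm 0) (hm' 0) h5
    · exact key _ _ (hm 1) (hm' 1) h6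

end Pool.Agent.J4H77.CB
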